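import Mathlib

set_option autoImplicit false

namespace Pool.Agent.X101.SD

/-- the additive character `exp (2 π i t)` -/
noncomputable def e (t : ℝ) : ℂ := Complex.exp ((2 * Real.pi * t : ℝ) * Complex.I)

lemma e_add (s t : ℝ) : e (s + t) = e s * e t := by
  unfold e; rw [← Complex.exp_add]; congr 1; push_cast; ring

lemma norm_e (t : ℝ) : ‖e t‖ = 1 := Complex.norm_exp_ofReal_mul_I _

lemma e_zero : e 0 = 1 := by simp [e]

lemma e_int (n : ℤ) : e n = 1 := by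
  unfold e
  rw [← Complex.exp_int_mul_two_pi_mul_I n]; congr 1; push_cast; ring

lemma e_neg (t : ℝ) : e (-t) = (starRingEnd ℂ) (e t) := by
  unfold e
  rw [← Complex.exp_conj, map_mul, Complex.conj_I, Complex.conj_ofReal]
  congr 1
  push_cast
  ring

lemma e_mul_conj (t : ℝ) : e t * (starRingEnd ℂ) (e t) = 1 := by
  rw [← e_neg, ← e_add]; simp [e_zero]

lemma e_sub (s t : ℝ) : e (s - t) = e s * (starRingEnd ℂ) (e t) := by
  rw [← e_neg, ← e_add]; rfl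

lemma e_nat_mul (n : ℕ) (t : ℝ) : e (n * t) = e t ^ n := by
  induction n with
  | zero => simp [e_zero]
  | succ n ih => rw [pow_succ, ← ih, ← e_add]; congr 1; push_cast; ring

lemma e_eq_one {t : ℝ} (h : e t = 1) : ∃ n : ℤ, t = n := by
  unfold e at h
  rw [Complex.exp_eq_one_iff] at h
  obtain ⟨n, hn⟩ := h
  refine ⟨n, ?_⟩
  have h1 : ((2 * Real.pi * t : ℝ) : ℂ) = ((n * (2 * Real.pi) : ℝ) : ℂ) := by
    have h2 : ((2 * Real.pi * t : ℝ) : ℂ) * Complex.I = ((n * (2 * Real.pi) : ℝ) : ℂ) * Complex.I := by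
      rw [hn]; push_cast; ring
    exact mul_right_cancel₀ Complex.I_ne_zero h2
  have h3 : 2 * Real.pi * t = n * (2 * Real.pi) := by exact_mod_cast h1
  have := Real.pi_pos
  have h4 : (2 * Real.pi) * (t - n) = 0 := by linarith
  rcases mul_eq_zero.1 h4 with h5 | h5
  · linarith
  · linarith

/-- the exponential sum along the orbit -/
noncomputable def S (b M : ℕ) (y : ℝ) : ℂ := ∑ n ∈ Finset.range M, e ((b : ℝ) ^ n * y)

lemma norm_S_le (b M : ℕ) (y : ℝ) : ‖S b M y‖ ≤ M := by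
  unfold S
  refine (norm_sum_le _ _).trans ?_
  simp [norm_e]

lemma S_neg (b M : ℕ) (y : ℝ) : S b M (-y) = (starRingEnd ℂ) (S b M y) := by
  unfold S
  rw [map_sum]
  refine Finset.sum_congr rfl fun n _ => ?_
  rw [← e_neg]; congr 1; ring

/-- for all large `M` some sum with `1 ≤ h ≤ H` is large -/
def Bad (b H : ℕ) (ε : ℝ) (x : ℝ) : Prop :=
  ∃ M₀ : ℕ, ∀ M ≥ M₀, ∃ h ∈ Finset.Icc 1 H, ε * M ≤ ‖S b M (h * x)‖

lemma offdiag {ι : Type*} (R : Finset ι) (T : ι → ι → ℂ) (τ : ℝ) (hτ : 0 ≤ τ)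
    (h : ∀ r ∈ R, ∀ r' ∈ R, r ≠ r' → ‖T r r'‖ ≤ τ) :
    ‖∑ r ∈ R, ∑ r' ∈ R, T r r' - ∑ r ∈ R, T r r‖ ≤ (R.card : ℝ) ^ 2 * τ := by
  classical
  rw [← Finset.sum_sub_distrib]
  refine (norm_sum_le _ _).trans ?_
  have h1 : ∀ r ∈ R, ‖∑ r' ∈ R, T r r' - T r r‖ ≤ R.card * τ := by
    intro r hr
    rw [← Finset.sum_erase_eq_sub hr]
    refine (norm_sum_le _ _).trans ?_
    have h2 : ∀ r' ∈ R.erase r, ‖T r r'‖ ≤ τ := fun r' hr' =>
      h r hr r' (Finset.mem_of_mem_erase hr') (Finset.ne_of_mem_erase hr').symm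
    refine (Finset.sum_le_card_nsmul _ _ _ h2).trans ?_
    rw [nsmul_eq_mul]
    have : ((R.erase r).card : ℝ) ≤ R.card := by exact_mod_cast Finset.card_le_card (Finset.erase_subset _ _)
    gcongr
  refine (Finset.sum_le_card_nsmul _ _ _ h1).trans ?_
  rw [nsmul_eq_mul]
  exact le_of_eq (by ring)

lemma sum_norm_sq {ι : Type*} (R : Finset ι) (M : ℕ) (a : ι → ℕ → ℂ) :
    ((∑ n ∈ Finset.range M, ‖∑ r ∈ R, a r n‖ ^ 2 : ℝ) : ℂ) =
      ∑ r ∈ R, ∑ r' ∈ R, ∑ n ∈ Finset.range M, a r n * (starRingEnd ℂ) (a r' n) := by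
  push_cast
  have h1 : ∀ n ∈ Finset.range M, (‖∑ r ∈ R, a r n‖ : ℂ) ^ 2 =
      ∑ r ∈ R, ∑ r' ∈ R, a r n * (starRingEnd ℂ) (a r' n) := by
    intro n _
    rw [← Complex.mul_conj', map_sum, Finset.sum_mul_sum]
  rw [Finset.sum_congr rfl h1, Finset.sum_comm]
  refine Finset.sum_congr rfl fun r _ => ?_
  rw [Finset.sum_comm]

/-- the large sieve type inequality -/
lemma sieve {ι : Type*} (b M : ℕ) (I : Finset ι) (z : ι → ℝ) (h : ℝ) (B : ℝ) (hB : 0 ≤ B)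
    (hS : ∀ i ∈ I, ∀ j ∈ I, i ≠ j → ‖S b M (h * (z i - z j))‖ ≤ B) :
    (∑ i ∈ I, ‖S b M (h * z i)‖ ^ 2) ^ 2 ≤
      M * (M * (∑ i ∈ I, ‖S b M (h * z i)‖ ^ 2) + (I.card : ℝ) ^ 2 * (M ^ 2 * B)) := by
  set c : ι → ℂ := fun i => S b M (h * z i) with hc
  set A : ℝ := ∑ i ∈ I, ‖c i‖ ^ 2 with hA
  have hA0 : 0 ≤ A := Finset.sum_nonneg fun i _ => by positivity
  set a : ι → ℕ → ℂ := fun i n => (starRingEnd ℂ) (c i) * e ((b : ℝ) ^ n * (h * z i)) with ha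
  have h1 : (A : ℂ) = ∑ n ∈ Finset.range M, ∑ i ∈ I, a i n := by
    rw [Finset.sum_comm, hA]
    push_cast
    refine Finset.sum_congr rfl fun i _ => ?_
    rw [← Complex.conj_mul', ha]
    simp only
    rw [← Finset.mul_sum]
    rfl
  have h2 : A ≤ ∑ n ∈ Finset.range M, ‖∑ i ∈ I, a i n‖ := by
    calc A = ‖(A : ℂ)‖ := by rw [Complex.norm_real, Real.norm_of_nonneg hA0]
      _ ≤ _ := by rw [h1]; exact norm_sum_le _ _
  have h3 : A ^ 2 ≤ M * ∑ n ∈ Finset.range M, ‖∑ i ∈ I, a i n‖ ^ 2 := by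
    calc A ^ 2 ≤ (∑ n ∈ Finset.range M, ‖∑ i ∈ I, a i n‖) ^ 2 := by gcongr
      _ ≤ ((Finset.range M).card : ℝ) * ∑ n ∈ Finset.range M, ‖∑ i ∈ I, a i n‖ ^ 2 :=
        sq_sum_le_card_mul_sum_sq
      _ = _ := by rw [Finset.card_range]
  have h4 := sum_norm_sq I M a
  have h5 : ∀ i j, ∑ n ∈ Finset.range M, a i n * (starRingEnd ℂ) (a j n) =
      (starRingEnd ℂ) (c i) * c j * S b M (h * (z i - z j)) := by
    intro i j
    unfold S
    rw [Finset.mul_sum]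
    refine Finset.sum_congr rfl fun n _ => ?_
    have : (b : ℝ) ^ n * (h * (z i - z j)) = (b : ℝ) ^ n * (h * z i) - (b : ℝ) ^ n * (h * z j) := by
      ring
    rw [this, e_sub, ha]
    simp only [map_mul, Complex.conj_conj]
    ring
  have h6 : ∀ i, ∑ n ∈ Finset.range M, a i n * (starRingEnd ℂ) (a i n) = (‖c i‖ ^ 2 * M : ℝ) := by
    intro i
    rw [h5]
    have : S b M (h * (z i - z i)) = M := by
      unfold S
      simp [e_zero]
    rw [this, Complex.conj_mul']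
    push_cast
    ring
  have h7 := offdiag I (fun i j => ∑ n ∈ Finset.range M, a i n * (starRingEnd ℂ) (a j n))
    (M ^ 2 * B) (by positivity) (by
      intro i hi j hj hij
      rw [h5, norm_mul, norm_mul, RCLike.norm_conj]
      have h8 := norm_S_le b M (h * z i)
      have h9 := norm_S_le b M (h * z j)
      have h10 := hS i hi j hj hij
      calc ‖c i‖ * ‖c j‖ * ‖S b M (h * (z i - z j))‖ ≤ M * M * B := by gcongr
        _ = _ := by ring)
  rw [← h4] at h7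
  have h8 : ∑ i ∈ I, (fun i j => ∑ n ∈ Finset.range M, a i n * (starRingEnd ℂ) (a j n)) i i =
      ((M * A : ℝ) : ℂ) := by
    simp only [h6]
    rw [hA, Finset.mul_sum]
    push_cast
    refine Finset.sum_congr rfl fun i _ => by ring
  rw [h8, ← Complex.ofReal_sub, Complex.norm_real, Real.norm_eq_abs] at h7
  have h9 := (abs_le.1 h7).2
  calc A ^ 2 ≤ M * ∑ n ∈ Finset.range M, ‖∑ i ∈ I, a i n‖ ^ 2 := h3
    _ ≤ M * (M * A + (I.card : ℝ) ^ 2 * (M ^ 2 * B)) := by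
      gcongr
      linarith

/-- **Count lemma** -/
theorem count {ι : Type*} (b H : ℕ) (ε : ℝ) (hε : 0 ≤ ε) (I : Finset ι) (z : ι → ℝ)
    (hbad : ∀ i ∈ I, Bad b H ε (z i))
    (hS : ∀ i ∈ I, ∀ j ∈ I, i ≠ j → ∀ h : ℕ, 1 ≤ h → h ≤ H →
      ∃ B : ℝ, ∀ M : ℕ, ‖S b M (h * (z i - z j))‖ ≤ B) :
    (I.card : ℝ) * ε ^ 2 ≤ H := by
  classical
  -- uniform bound
  have hB : ∃ B : ℝ, 0 ≤ B ∧ ∀ i ∈ I, ∀ j ∈ I, i ≠ j → ∀ h : ℕ, 1 ≤ h → h ≤ H →
      ∀ M : ℕ, ‖S b M (h * (z i - z j))‖ ≤ B := by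
    have h1 : ∀ i j : ι, ∀ h : ℕ, ∃ B : ℝ, 0 ≤ B ∧ (i ∈ I → j ∈ I → i ≠ j → 1 ≤ h → h ≤ H →
        ∀ M : ℕ, ‖S b M (h * (z i - z j))‖ ≤ B) := by
      intro i j h
      by_cases hh : i ∈ I ∧ j ∈ I ∧ i ≠ j ∧ 1 ≤ h ∧ h ≤ H
      · obtain ⟨B, hB⟩ := hS i hh.1 j hh.2.1 hh.2.2.1 h hh.2.2.2.1 hh.2.2.2.2
        exact ⟨max B 0, le_max_right _ _, fun _ _ _ _ _ M => (hB M).trans (le_max_left _ _)⟩
      · exact ⟨0, le_rfl, fun a1 a2 a3 a4 a5 => absurd ⟨a1, a2, a3, a4, a5⟩ hh⟩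
    choose B hB0 hB using h1
    refine ⟨∑ i ∈ I, ∑ j ∈ I, ∑ h ∈ Finset.range (H + 1), B i j h,
      Finset.sum_nonneg fun i _ => Finset.sum_nonneg fun j _ => Finset.sum_nonneg fun h _ =>
        hB0 i j h, ?_⟩
    intro i hi j hj hij h h1 h2 M
    refine (hB i j h hi hj hij h1 h2 M).trans ?_
    calc B i j h ≤ ∑ h ∈ Finset.range (H + 1), B i j h :=
          Finset.single_le_sum (f := fun h => B i j h) (fun h _ => hB0 i j h)
            (Finset.mem_range.2 (by omega))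
      _ ≤ ∑ j ∈ I, ∑ h ∈ Finset.range (H + 1), B i j h :=
          Finset.single_le_sum (f := fun j => ∑ h ∈ Finset.range (H + 1), B i j h)
            (fun j _ => Finset.sum_nonneg fun h _ => hB0 i j h) hj
      _ ≤ _ := Finset.single_le_sum
            (f := fun i => ∑ j ∈ I, ∑ h ∈ Finset.range (H + 1), B i j h)
            (fun i _ => Finset.sum_nonneg fun j _ => Finset.sum_nonneg fun h _ => hB0 i j h) hi
  obtain ⟨B, hB0, hB⟩ := hB
  -- uniform M₀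
  have hM : ∃ M₀ : ℕ, ∀ i ∈ I, ∀ M ≥ M₀, ∃ h ∈ Finset.Icc 1 H, ε * M ≤ ‖S b M (h * z i)‖ := by
    have h1 : ∀ i : ι, ∃ M₀ : ℕ, i ∈ I → ∀ M ≥ M₀, ∃ h ∈ Finset.Icc 1 H,
        ε * M ≤ ‖S b M (h * z i)‖ := by
      intro i
      by_cases hi : i ∈ I
      · obtain ⟨M₀, h⟩ := hbad i hi
        exact ⟨M₀, fun _ => h⟩
      · exact ⟨0, fun h => absurd h hi⟩
    choose M₀ hM₀ using h1
    refine ⟨I.sup M₀, fun i hi M hM => hM₀ i hi M ((Finset.le_sup (f := M₀) hi).trans hM)⟩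
  obtain ⟨M₀, hM⟩ := hM
  set K : ℝ := (I.card : ℝ) with hK
  have hK0 : 0 ≤ K := by positivity
  have main : ∀ M : ℕ, M₀ ≤ M → 1 ≤ M → K * ε ^ 2 ≤ H * (1 + K ^ 2 * B / M) := by
    intro M hM1 hM2
    have hM0 : (0 : ℝ) < M := by exact_mod_cast hM2
    set A : ℕ → ℝ := fun h => ∑ i ∈ I, ‖S b M (h * z i)‖ ^ 2 with hA
    have hA0 : ∀ h, 0 ≤ A h := fun h => Finset.sum_nonneg fun i _ => by positivity
    have h1 : K * ε ^ 2 * M ^ 2 ≤ ∑ h ∈ Finset.Icc 1 H, A h := by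
      rw [hA]
      rw [Finset.sum_comm]
      have h2 : ∀ i ∈ I, ε ^ 2 * M ^ 2 ≤ ∑ h ∈ Finset.Icc 1 H, ‖S b M (h * z i)‖ ^ 2 := by
        intro i hi
        obtain ⟨h, hh, hle⟩ := hM i hi M hM1
        calc ε ^ 2 * M ^ 2 = (ε * M) ^ 2 := by ring
          _ ≤ ‖S b M (h * z i)‖ ^ 2 := by gcongr
          _ ≤ _ := Finset.single_le_sum (f := fun h : ℕ => ‖S b M (h * z i)‖ ^ 2)
              (fun h _ => by positivity) hh
      have h3 := Finset.card_nsmul_le_sum I _ _ h2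
      rw [nsmul_eq_mul] at h3
      calc K * ε ^ 2 * M ^ 2 = K * (ε ^ 2 * M ^ 2) := by ring
        _ ≤ _ := h3
    have h2 : ∀ h ∈ Finset.Icc 1 H, A h ≤ (1 + K ^ 2 * B / M) * M ^ 2 := by
      intro h hh
      rw [Finset.mem_Icc] at hh
      have h3 := sieve b M I z h B hB0 (fun i hi j hj hij => hB i hi j hj hij h hh.1 hh.2 M)
      change A h ^ 2 ≤ M * (M * A h + K ^ 2 * (M ^ 2 * B)) at h3
      by_contra hcon
      push Not at hcon
      have h4 : (M : ℝ) ^ 2 ≤ A h := by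
        refine le_trans ?_ hcon.le
        have : (0 : ℝ) ≤ K ^ 2 * B / M := by positivity
        nlinarith [sq_nonneg (M : ℝ)]
      have hAp : 0 < A h := lt_of_lt_of_le (by positivity) h4
      have h5 : K ^ 2 * (M ^ 2 * B) * M ≤ (K ^ 2 * B / M) * M ^ 2 * A h := by
        have h6 : K ^ 2 * (M ^ 2 * B) * M = (K ^ 2 * B / M) * M ^ 2 * M ^ 2 := by
          field_simp
        rw [h6]
        gcongr
      have h7 : A h ^ 2 ≤ (1 + K ^ 2 * B / M) * M ^ 2 * A h := by nlinarith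
      have h8 : A h ≤ (1 + K ^ 2 * B / M) * M ^ 2 := by
        have : A h * A h ≤ (1 + K ^ 2 * B / M) * M ^ 2 * A h := by nlinarith
        exact le_of_mul_le_mul_right this hAp
      linarith
    have h3 := Finset.sum_le_card_nsmul _ _ _ h2
    rw [nsmul_eq_mul, Nat.card_Icc] at h3
    have h4 : K * ε ^ 2 * M ^ 2 ≤ (H * (1 + K ^ 2 * B / M)) * M ^ 2 := by
      calc K * ε ^ 2 * M ^ 2 ≤ ∑ h ∈ Finset.Icc 1 H, A h := h1
        _ ≤ _ := h3
        _ = _ := by simp only [Nat.add_sub_cancel]; ring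
    exact le_of_mul_le_mul_right h4 (by positivity)
  have hlim : Filter.Tendsto (fun M : ℕ => (H : ℝ) * (1 + K ^ 2 * B / M)) Filter.atTop
      (nhds ((H : ℝ) * (1 + 0))) := by
    refine Filter.Tendsto.const_mul _ (Filter.Tendsto.const_add _ ?_)
    exact tendsto_const_div_atTop_nhds_zero_nat _
  rw [add_zero, mul_one] at hlim
  refine ge_of_tendsto hlim ?_
  filter_upwards [Filter.eventually_ge_atTop M₀, Filter.eventually_ge_atTop 1] with M h1 h2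
  exact main M h1 h2

lemma norm_e_sub_one {δ : ℝ} (hδ : 0 < δ) {s : ℝ} (h1 : δ ≤ |s|) (h2 : |s| ≤ 1 - δ) :
    4 * δ ≤ ‖e s - 1‖ := by
  have h3 : ‖e s - 1‖ = 2 * |Real.sin (Real.pi * |s|)| := by
    have h4 := Complex.norm_exp_I_mul_ofReal_sub_one (2 * Real.pi * s)
    unfold e
    rw [mul_comm _ Complex.I, h4, norm_mul, Real.norm_eq_abs, Real.norm_eq_abs,
      abs_of_pos (by norm_num : (0 : ℝ) < 2)]
    have h5 : 2 * Real.pi * s / 2 = Real.pi * s := by ring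
    rw [h5]
    rcases abs_cases s with ⟨h, _⟩ | ⟨h, _⟩
    · rw [h]
    · rw [h, mul_neg, Real.sin_neg, abs_neg]
  rw [h3]
  have hpi := Real.pi_pos
  have key : ∀ x : ℝ, 0 ≤ x → x ≤ 1 / 2 → 2 * x ≤ Real.sin (Real.pi * x) := by
    intro x hx0 hx
    have h5 := Real.mul_le_sin (x := Real.pi * x) (by positivity) (by nlinarith)
    have h6 : 2 / Real.pi * (Real.pi * x) = 2 * x := by field_simp
    linarith
  have h4 : 2 * δ ≤ Real.sin (Real.pi * |s|) := by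
    rcases le_total |s| (1 / 2) with h | h
    · linarith [key |s| (abs_nonneg s) h]
    · have h5 := key (1 - |s|) (by linarith) (by linarith)
      have h6 : Real.sin (Real.pi * (1 - |s|)) = Real.sin (Real.pi * |s|) := by
        rw [mul_sub, mul_one, Real.sin_pi_sub]
      linarith
  have h5 := le_abs_self (Real.sin (Real.pi * |s|))
  linarith

/-- if the orbit misses an arc, then the exponential sums are large -/
theorem bad_of_miss' {δ : ℝ} (hδ : 0 < δ) (_hδ1 : δ ≤ 1 / 2) :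
    ∃ K : ℕ, 1 / (2 * δ ^ 2) < K ∧ (K : ℝ) ≤ 1 / (2 * δ ^ 2) + 1 ∧ ∀ (b : ℕ) (z y : ℝ),
    δ ≤ y → y ≤ 1 - δ → (∀ n : ℕ, δ ≤ |Int.fract ((b : ℝ) ^ n * z) - y|) →
      Bad b K (1 / (4 * K)) z := by
  set K : ℕ := ⌊1 / (2 * δ ^ 2)⌋₊ + 1 with hKdef
  have hK : 1 / (2 * δ ^ 2) < K := by
    rw [hKdef]; push_cast; exact Nat.lt_floor_add_one _
  have hK0 : (0 : ℝ) < K := lt_trans (by positivity) hK
  have hK2 : (K : ℝ) ≤ 1 / (2 * δ ^ 2) + 1 := by
    rw [hKdef]; push_cast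
    have := Nat.floor_le (by positivity : 0 ≤ 1 / (2 * δ ^ 2))
    linarith
  refine ⟨K, hK, hK2, fun b z y hy1 hy2 hmiss => ⟨1, fun M hM => ?_⟩⟩
  by_contra hcon
  push Not at hcon
  have hM0 : (0 : ℝ) < M := by exact_mod_cast hM
  set t : ℕ → ℝ := fun n => Int.fract ((b : ℝ) ^ n * z) with ht
  set a : ℕ → ℕ → ℂ := fun j n => e ((j : ℝ) * (t n - y)) with ha
  set T : ℕ → ℕ → ℂ := fun j k => ∑ n ∈ Finset.range M, a j n * (starRingEnd ℂ) (a k n) with hT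
  have h1 := sum_norm_sq (Finset.range K) M a
  have hTs : ∀ j k, T k j = (starRingEnd ℂ) (T j k) := by
    intro j k
    rw [hT]
    simp only [map_sum, map_mul, Complex.conj_conj]
    exact Finset.sum_congr rfl fun n _ => by ring
  have hlt : ∀ j ∈ Finset.range K, ∀ k ∈ Finset.range K, k < j → ‖T j k‖ ≤ 1 / (4 * K) * M := by
    intro j hj k hk hkj
    rw [Finset.mem_range] at hj hk
    have h2 : T j k = e (-(((j - k : ℕ) : ℝ) * y)) * S b M (((j - k : ℕ) : ℝ) * z) := by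
      rw [hT]
      unfold S
      simp only
      rw [Finset.mul_sum]
      refine Finset.sum_congr rfl fun n _ => ?_
      rw [ha]
      simp only
      rw [← e_sub, ← e_add]
      have h3 : (j : ℝ) * (t n - y) - k * (t n - y) = -(((j - k : ℕ) : ℝ) * y) +
          (b : ℝ) ^ n * (((j - k : ℕ) : ℝ) * z) + ((-(((j - k : ℕ) : ℤ) * ⌊(b : ℝ) ^ n * z⌋) : ℤ) : ℝ) := by
        rw [ht]
        simp only [Int.fract]
        push_cast [Nat.cast_sub hkj.le]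
        ring
      rw [h3, e_add _ (((-(((j - k : ℕ) : ℤ) * ⌊(b : ℝ) ^ n * z⌋) : ℤ) : ℝ)), e_int, mul_one]
    rw [h2, norm_mul, norm_e, one_mul]
    exact (hcon (j - k) (Finset.mem_Icc.2 ⟨by omega, by omega⟩)).le
  have hoff : ∀ j ∈ Finset.range K, ∀ k ∈ Finset.range K, j ≠ k → ‖T j k‖ ≤ 1 / (4 * K) * M := by
    intro j hj k hk hjk
    rcases lt_or_gt_of_ne hjk with h | h
    · rw [hTs k j, RCLike.norm_conj]
      exact hlt k hk j hj h
    · exact hlt j hj k hk h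
  have h2 := offdiag (Finset.range K) T (1 / (4 * K) * M) (by positivity) hoff
  have h3 : ∑ j ∈ Finset.range K, T j j = ((K * M : ℝ) : ℂ) := by
    have : ∀ j ∈ Finset.range K, T j j = M := by
      intro j _
      rw [hT]
      simp only [ha, e_mul_conj]
      simp
    rw [Finset.sum_congr rfl this]
    simp
  rw [h3] at h2
  change ((_ : ℝ) : ℂ) = ∑ r ∈ Finset.range K, ∑ r' ∈ Finset.range K, T r r' at h1
  rw [← h1, ← Complex.ofReal_sub, Complex.norm_real, Real.norm_eq_abs, Finset.card_range] at h2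
  have h4 := (abs_le.1 h2).1
  have h5 : ∀ n ∈ Finset.range M, ‖∑ r ∈ Finset.range K, a r n‖ ^ 2 ≤ K / 2 := by
    intro n _
    have h6 : ∑ r ∈ Finset.range K, a r n = ∑ r ∈ Finset.range K, e (t n - y) ^ r := by
      refine Finset.sum_congr rfl fun r _ => ?_
      rw [ha]
      simp only [e_nat_mul]
    have h7 : 4 * δ ≤ ‖e (t n - y) - 1‖ := by
      refine norm_e_sub_one hδ (hmiss n) ?_
      rw [abs_le]
      have h8 := Int.fract_nonneg ((b : ℝ) ^ n * z)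
      have h9 := Int.fract_lt_one ((b : ℝ) ^ n * z)
      constructor
      · simp only [ht]; linarith
      · simp only [ht]; linarith
    have h8 : ‖∑ r ∈ Finset.range K, a r n‖ * (4 * δ) ≤ 2 := by
      calc ‖∑ r ∈ Finset.range K, a r n‖ * (4 * δ)
          ≤ ‖∑ r ∈ Finset.range K, a r n‖ * ‖e (t n - y) - 1‖ := by gcongr
        _ = ‖e (t n - y) ^ K - 1‖ := by rw [h6, ← norm_mul, geom_sum_mul]
        _ ≤ ‖e (t n - y) ^ K‖ + ‖(1 : ℂ)‖ := norm_sub_le _ _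
        _ = 2 := by rw [norm_pow, norm_e]; norm_num
    have h9 : ‖∑ r ∈ Finset.range K, a r n‖ ≤ 1 / (2 * δ) := by
      rw [le_div_iff₀ (by positivity)]
      linarith
    calc ‖∑ r ∈ Finset.range K, a r n‖ ^ 2 ≤ (1 / (2 * δ)) ^ 2 := by gcongr
      _ = 1 / (2 * δ ^ 2) / 2 := by field_simp
      _ ≤ K / 2 := by gcongr
  have h6 := Finset.sum_le_card_nsmul _ _ _ h5
  rw [nsmul_eq_mul, Finset.card_range] at h6
  have h7 : (K : ℝ) ^ 2 * (1 / (4 * K) * M) = K * M / 4 := by field_simp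
  rw [h7] at h4
  have h8 : 0 < (K : ℝ) * M := by positivity
  nlinarith

/-- if the orbit misses an arc, then the exponential sums are large -/
theorem bad_of_miss {δ : ℝ} (hδ : 0 < δ) : ∃ (H : ℕ) (ε : ℝ), 0 < ε ∧ ∀ (b : ℕ) (z y : ℝ),
    δ ≤ y → y ≤ 1 - δ → (∀ n : ℕ, δ ≤ |Int.fract ((b : ℝ) ^ n * z) - y|) → Bad b H ε z := by
  by_cases h : δ ≤ 1 / 2
  · obtain ⟨K, hK1, _, hK⟩ := bad_of_miss' hδ h
    have hK0 : (0 : ℝ) < K := lt_trans (by positivity) hK1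
    exact ⟨K, 1 / (4 * K), by positivity, hK⟩
  · exact ⟨0, 1, one_pos, fun b z y h1 h2 _ => absurd (by linarith : δ ≤ 1 / 2) h⟩

end Pool.Agent.X101.SD
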