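import Mathlib
import Pool.Agent.X101.SD.Exp

set_option autoImplicit false

open Set Filter Topology

namespace Pool.Agent.X101.SD

/-- the closure of the orbit of `x` modulo one under multiplication by `b` -/
def Orb (b : ℕ) (x : ℝ) : Set ℝ := closure (range fun n : ℕ => Int.fract ((b : ℝ) ^ n * x))

lemma Bad.mono {b H : ℕ} {ε ε' : ℝ} {x : ℝ} (h : Bad b H ε x) (hε : ε' ≤ ε) : Bad b H ε' x := by
  obtain ⟨M₀, h⟩ := h
  refine ⟨M₀, fun M hM => ?_⟩
  obtain ⟨k, hk, hle⟩ := h M hM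
  refine ⟨k, hk, le_trans ?_ hle⟩
  gcongr

lemma Bad.monoH {b H H' : ℕ} {ε : ℝ} {x : ℝ} (h : Bad b H ε x) (hH : H ≤ H') : Bad b H' ε x := by
  obtain ⟨M₀, h⟩ := h
  refine ⟨M₀, fun M hM => ?_⟩
  obtain ⟨k, hk, hle⟩ := h M hM
  rw [Finset.mem_Icc] at hk
  exact ⟨k, Finset.mem_Icc.2 ⟨hk.1, hk.2.trans hH⟩, hle⟩

lemma orb_subset (b : ℕ) (x : ℝ) : Orb b x ⊆ Icc 0 1 := by
  unfold Orb
  refine closure_minimal ?_ isClosed_Icc
  rintro _ ⟨n, rfl⟩
  exact ⟨Int.fract_nonneg _, (Int.fract_lt_one _).le⟩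

theorem orb_eq {b : ℕ} {x : ℝ} (h : ∀ H : ℕ, ∀ ε : ℝ, 0 < ε → ¬ Bad b H ε x) :
    Orb b x = Icc 0 1 := by
  refine Subset.antisymm (orb_subset b x) ?_
  have h1 : Ioo (0 : ℝ) 1 ⊆ Orb b x := by
    intro y hy
    by_contra hcon
    unfold Orb at hcon
    rw [Metric.mem_closure_iff] at hcon
    push Not at hcon
    obtain ⟨δ', hδ', hmiss⟩ := hcon
    have hδ : 0 < min δ' (min y (1 - y)) := lt_min hδ' (lt_min hy.1 (by linarith [hy.2]))
    obtain ⟨H, ε, hε, hbad⟩ := bad_of_miss hδ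
    refine h H ε hε (hbad b x y ?_ ?_ ?_)
    · exact (min_le_right _ _).trans (min_le_left _ _)
    · have := (min_le_right δ' (min y (1 - y))).trans (min_le_right _ _)
      linarith
    · intro n
      have h2 := hmiss _ ⟨n, rfl⟩
      rw [Real.dist_eq, abs_sub_comm] at h2
      exact (min_le_left _ _).trans h2
  have h2 : Icc (0 : ℝ) 1 = closure (Ioo 0 1) := (closure_Ioo (by norm_num)).symm
  rw [h2]
  exact closure_minimal h1 isClosed_closure

lemma dimH_Icc : dimH (Icc (0 : ℝ) 1) = 1 := by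
  have h3 : (interior (Icc (0 : ℝ) 1)).Nonempty := by
    rw [interior_Icc]; exact ⟨1 / 2, by norm_num, by norm_num⟩
  rw [Real.dimH_of_nonempty_interior h3]
  simp

end Pool.Agent.X101.SD
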