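import Mathlib
import Pool.Agent.X101.SD.Exp

set_option autoImplicit false

namespace Pool.Agent.X101.SD

lemma lte {p b : ℕ} (hp : p.Prime) (hb : 2 ≤ b) (hpb : ¬ p ∣ b) :
    ∃ T c : ℕ, 0 < T ∧ ∀ n : ℕ, n ≠ 0 →
      padicValNat p (b ^ (T * n) - 1) = c + padicValNat p n := by
  have : Fact p.Prime := ⟨hp⟩
  rcases hp.eq_two_or_odd' with h2 | hodd
  · subst h2
    refine ⟨2, padicValNat 2 (b + 1) + padicValNat 2 (b - 1), by norm_num, fun n hn => ?_⟩
    have h := padicValNat.pow_two_sub_pow (x := b) (y := 1) (by omega) (by omega) hpb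
      (n := 2 * n) (by omega) (by simp)
    rw [one_pow, padicValNat.mul (by norm_num) hn] at h
    have h3 : padicValNat 2 2 = 1 := padicValNat.self (by norm_num)
    omega
  · have hp2 := hp.two_le
    have hpm : 0 < p - 1 := by omega
    have h1 : 1 < b ^ (p - 1) := Nat.one_lt_pow hpm.ne' (by omega)
    have hcop : b.Coprime p := ((Nat.Prime.coprime_iff_not_dvd hp).2 hpb).symm
    have h2 : p ∣ b ^ (p - 1) - 1 := by
      have h3 := Nat.ModEq.pow_totient hcop
      rw [Nat.totient_prime hp] at h3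
      exact (Nat.modEq_iff_dvd' h1.le).1 h3.symm
    refine ⟨p - 1, padicValNat p (b ^ (p - 1) - 1), hpm, fun n hn => ?_⟩
    have h := padicValNat.pow_sub_pow (p := p) hodd (x := b ^ (p - 1)) (y := 1) h1 h2
      (fun h => hpb (hp.dvd_of_dvd_pow h)) hn
    rw [one_pow, ← pow_mul] at h
    exact h

lemma period {p b a : ℕ} (hp : p.Prime) (hb : 2 ≤ b) (hpb : ¬ p ∣ b) :
    ∃ L₁ : ℕ, 2 ≤ L₁ ∧ ∀ L ≥ L₁, ∀ D : ℕ, 0 < D → ¬ p ∣ D → (∀ q : ℕ, q.Prime → q ∣ D → q ∣ a) → 0 < a →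
      ∃ T : ℕ, 0 < T ∧ padicValNat p (b ^ T - 1) = L - 1 ∧ D ∣ b ^ D * (b ^ T - 1) := by
  have : Fact p.Prime := ⟨hp⟩
  obtain ⟨T₁, c, hT₁, hlte⟩ := lte hp hb hpb
  set P : ℕ := ∏ q ∈ a.primeFactors, (q - 1) with hP
  have hP0 : P ≠ 0 := by
    rw [hP, Finset.prod_ne_zero_iff]
    intro q hq
    have := (Nat.prime_of_mem_primeFactors hq).two_le
    omega
  refine ⟨c + padicValNat p P + 2, by omega, fun L hL D hD hpD hDa ha => ?_⟩
  set j := L - 1 - c - padicValNat p P with hj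
  refine ⟨T₁ * (D * P * p ^ j), ?_, ?_, ?_⟩
  · have := hp.pos
    have : 0 < P := Nat.pos_of_ne_zero hP0
    positivity
  · have hpj : p ^ j ≠ 0 := pow_ne_zero _ hp.ne_zero
    rw [hlte _ (by positivity), padicValNat.mul (by positivity) hpj,
      padicValNat.mul hD.ne' hP0, padicValNat.prime_pow, padicValNat.eq_zero_of_not_dvd hpD]
    omega
  · rw [Nat.dvd_iff_prime_pow_dvd_dvd]
    intro q k hq hqk
    rcases Nat.eq_zero_or_pos k with hk | hk
    · subst hk; simp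
    have hqD : q ∣ D := (dvd_pow_self q hk.ne').trans hqk
    by_cases hqb : q ∣ b
    · refine Dvd.dvd.mul_right ?_ _
      have hkD : k ≤ D := by
        have h1 : k < q ^ k := Nat.lt_pow_self hq.one_lt
        have h2 := Nat.le_of_dvd hD hqk
        omega
      exact (pow_dvd_pow q hkD).trans (pow_dvd_pow_of_dvd hqb D)
    · refine Dvd.dvd.mul_left ?_ _
      have hcop : b.Coprime (q ^ k) :=
        (((Nat.Prime.coprime_iff_not_dvd hq).2 hqb).symm).pow_right k
      have h3 := Nat.ModEq.pow_totient hcop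
      rw [Nat.totient_prime_pow hq hk] at h3
      have h4 : q ^ (k - 1) * (q - 1) ∣ T₁ * (D * P * p ^ j) := by
        refine Dvd.dvd.mul_left (Dvd.dvd.mul_right (mul_dvd_mul ?_ ?_) _) _
        · exact (pow_dvd_pow q (by omega)).trans hqk
        · exact Finset.dvd_prod_of_mem _ (Nat.mem_primeFactors.2 ⟨hq, hDa q hq hqD, ha.ne'⟩)
      obtain ⟨w, hw⟩ := h4
      rw [hw, pow_mul]
      have h5 : (b ^ (q ^ (k - 1) * (q - 1))) ^ w ≡ 1 ^ w [MOD q ^ k] := h3.pow w
      rw [one_pow] at h5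
      exact (Nat.modEq_iff_dvd' (Nat.one_le_pow _ _ (Nat.pow_pos (by omega)))).1 h5.symm

lemma bounded_of_blocks (f : ℕ → ℂ) (hf : ∀ n, ‖f n‖ ≤ 1) (Q n₀ : ℕ) (hQ : 0 < Q)
    (h : ∀ m ≥ n₀, ∑ i ∈ Finset.range Q, f (m + i) = 0) (M : ℕ) :
    ‖∑ n ∈ Finset.range M, f n‖ ≤ n₀ + Q := by
  induction M using Nat.strong_induction_on with
  | _ M ih =>
    rcases Nat.lt_or_ge M (n₀ + Q) with hM | hM
    · refine (norm_sum_le _ _).trans ((Finset.sum_le_card_nsmul _ _ 1 fun n _ => hf n).trans ?_)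
      rw [nsmul_eq_mul, Finset.card_range, mul_one]
      have : (M : ℝ) ≤ ((n₀ + Q : ℕ) : ℝ) := by exact_mod_cast hM.le
      simpa using this
    · have h1 : M = (M - Q) + Q := by omega
      rw [h1, Finset.sum_range_add, h (M - Q) (by omega), add_zero]
      exact ih (M - Q) (by omega)

lemma sum_blocks (g : ℕ → ℂ) (T k : ℕ) :
    ∑ i ∈ Finset.range (k * T), g i = ∑ s ∈ Finset.range k, ∑ i ∈ Finset.range T, g (s * T + i) := by
  induction k with
  | zero => simp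
  | succ k ih => rw [Nat.succ_mul, Finset.sum_range_add, ih, Finset.sum_range_succ]

/-- **Key lemma** -/
theorem orth {p b a : ℕ} (hp : p.Prime) (hb : 2 ≤ b) (hpb : ¬ p ∣ b) (ha : 0 < a) :
    ∃ L₁ : ℕ, ∀ L ≥ L₁, ∀ D : ℕ, 0 < D → ¬ p ∣ D → (∀ q : ℕ, q.Prime → q ∣ D → q ∣ a) →
      ∀ u : ℤ, ¬ (p : ℤ) ∣ u → ∃ B : ℝ, ∀ M : ℕ, ‖S b M (u / ((p : ℝ) ^ L * D))‖ ≤ B := by
  obtain ⟨L₁, hL2, hper⟩ := period (a := a) hp hb hpb
  refine ⟨L₁, fun L hL D hD hpD hDa u hu => ?_⟩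
  obtain ⟨T, hT, hval, hdvd⟩ := hper L hL D hD hpD hDa ha
  have : Fact p.Prime := ⟨hp⟩
  set y : ℝ := u / ((p : ℝ) ^ L * D) with hy
  have hp0 : (p : ℝ) ≠ 0 := by exact_mod_cast hp.ne_zero
  have hD0 : (D : ℝ) ≠ 0 := by exact_mod_cast hD.ne'
  have hbT : 1 < b ^ T := Nat.one_lt_pow hT.ne' (by omega)
  -- p divides b^T - 1
  have hpT : p ∣ b ^ T - 1 := by
    by_contra h
    have := padicValNat.eq_zero_of_not_dvd h
    omega
  -- the quotient
  have hK : ∀ n ≥ D, ∃ K : ℕ, b ^ n * (b ^ T - 1) = D * p ^ (L - 1) * K ∧ ¬ p ∣ K := by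
    intro n hn
    have h1 : D ∣ b ^ n * (b ^ T - 1) :=
      hdvd.trans (mul_dvd_mul_right (pow_dvd_pow b hn) _)
    have h2 : p ^ (L - 1) ∣ b ^ n * (b ^ T - 1) := by
      rw [← hval]
      exact Dvd.dvd.mul_left pow_padicValNat_dvd _
    have hcop : D.Coprime (p ^ (L - 1)) :=
      ((Nat.Prime.coprime_iff_not_dvd hp).2 hpD).symm.pow_right _
    obtain ⟨K, hK⟩ := hcop.mul_dvd_of_dvd_of_dvd h1 h2
    refine ⟨K, hK, fun hpK => ?_⟩
    have h3 : p ^ L ∣ b ^ n * (b ^ T - 1) := by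
      rw [hK]
      obtain ⟨w, hw⟩ := hpK
      refine ⟨D * w, ?_⟩
      have h4 : p ^ L = p ^ (L - 1) * p := by
        rw [← pow_succ]; congr 1; omega
      rw [hw, h4]; ring
    have hcop2 : (p ^ L).Coprime (b ^ n) :=
      (((Nat.Prime.coprime_iff_not_dvd hp).2 hpb).pow_left L).pow_right n
    have h4 := hcop2.dvd_of_dvd_mul_left h3
    have h5 := (padicValNat_dvd_iff_le (p := p) (a := b ^ T - 1) (n := L) (by omega)).1 h4
    omega
  -- the block sums vanish
  have hblock : ∀ n ≥ D, ∑ s ∈ Finset.range p, e ((b : ℝ) ^ (n + s * T) * y) = 0 := by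
    intro n hn
    obtain ⟨K, hK, hpK⟩ := hK n hn
    set ζ : ℂ := e ((K : ℝ) * u / p) with hζ
    have hζ1 : ζ ≠ 1 := by
      intro h
      obtain ⟨m, hm⟩ := e_eq_one h
      rw [div_eq_iff hp0] at hm
      have h1 : (K : ℤ) * u = m * p := by exact_mod_cast hm
      have h2 : (p : ℤ) ∣ K * u := ⟨m, by rw [h1]; ring⟩
      rcases (Nat.prime_iff_prime_int.1 hp).dvd_or_dvd h2 with h3 | h3
      · exact hpK (by exact_mod_cast h3)
      · exact hu h3
    have hζp : ζ ^ p = 1 := by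
      rw [hζ, ← e_nat_mul]
      have : (p : ℝ) * (K * u / p) = ((K * u : ℤ) : ℝ) := by
        field_simp; push_cast; ring
      rw [this, e_int]
    have hstep : ∀ s : ℕ, e ((b : ℝ) ^ (n + s * T) * y) = e ((b : ℝ) ^ n * y) * ζ ^ s := by
      intro s
      induction s with
      | zero => simp
      | succ s ih =>
        have h1 : ∃ w : ℕ, b ^ (s * T) = 1 + p * w := by
          have h2 : b ^ T ≡ 1 [MOD p] := ((Nat.modEq_iff_dvd' hbT.le).2 hpT).symm
          have h3 : (b ^ T) ^ s ≡ 1 ^ s [MOD p] := h2.pow s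
          rw [one_pow, ← pow_mul, mul_comm T s] at h3
          have h4 : 1 ≤ b ^ (s * T) := Nat.one_le_pow _ _ (by omega)
          obtain ⟨w, hw⟩ := (Nat.modEq_iff_dvd' h4).1 h3.symm
          exact ⟨w, by omega⟩
        obtain ⟨w, hw⟩ := h1
        have h5 : (b : ℝ) ^ n * ((b : ℝ) ^ T - 1) = D * (p : ℝ) ^ (L - 1) * K := by
          have := congrArg (Nat.cast (R := ℝ)) hK
          rw [Nat.cast_mul, Nat.cast_sub hbT.le] at this
          push_cast at this
          exact this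
        have h6 : (b : ℝ) ^ (s * T) = 1 + p * w := by exact_mod_cast hw
        have h7 : (p : ℝ) ^ L = (p : ℝ) ^ (L - 1) * p := by
          rw [← pow_succ]; congr 1; omega
        have h8 : (b : ℝ) ^ (n + (s + 1) * T) * y =
            (b : ℝ) ^ (n + s * T) * y + (K * u / p) + ((w * K * u : ℤ) : ℝ) := by
          have h9 : (b : ℝ) ^ (n + (s + 1) * T) * y = (b : ℝ) ^ (n + s * T) * y +
              (b : ℝ) ^ (s * T) * ((b : ℝ) ^ n * ((b : ℝ) ^ T - 1)) * y := by
            have : n + (s + 1) * T = n + s * T + T := by ring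
            rw [this, pow_add, pow_add]
            ring
          rw [h9, h5, h6, hy, h7]
          push_cast
          field_simp
          ring
        rw [h8, e_add _ (((w * K * u : ℤ) : ℝ)), e_int, mul_one, e_add, ih, pow_succ]
        ring
    rw [Finset.sum_congr rfl fun s _ => hstep s, ← Finset.mul_sum]
    have h1 : (∑ s ∈ Finset.range p, ζ ^ s) * (ζ - 1) = 0 := by
      rw [geom_sum_mul, hζp, sub_self]
    rcases mul_eq_zero.1 h1 with h2 | h2
    · rw [h2, mul_zero]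
    · exact absurd (sub_eq_zero.1 h2) hζ1
  refine ⟨((D : ℕ) : ℝ) + ((p * T : ℕ) : ℝ), fun M => ?_⟩
  unfold S
  refine bounded_of_blocks (fun n => e ((b : ℝ) ^ n * y)) (fun n => (norm_e _).le) (p * T) D
    (Nat.mul_pos hp.pos hT) (fun m hm => ?_) M
  rw [sum_blocks, Finset.sum_comm]
  refine Finset.sum_eq_zero fun i _ => ?_
  have := hblock (m + i) (by omega)
  rw [← this]
  refine Finset.sum_congr rfl fun s _ => ?_
  have : m + (s * T + i) = m + i + s * T := by ring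
  rw [this]

end Pool.Agent.X101.SD
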