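import Mathlib
import Pool.Agent.X101.SD.Period
import Pool.Agent.X101.SD.Dense

set_option autoImplicit false

namespace Pool.Agent.X101.SD

open Classical in
/-- the large sieve type inequality with multiplicities -/
lemma sieve2 {ι : Type*} (b M : ℕ) (I : Finset ι) (z : ι → ℝ) (h : ℝ) (B : ℝ) (hB : 0 ≤ B) (m : ℝ)
    (hm0 : 0 ≤ m)
    (hS : ∀ i ∈ I, ((I.filter fun j => ¬ ‖S b M (h * (z i - z j))‖ ≤ B).card : ℝ) ≤ m) :
    (∑ i ∈ I, ‖S b M (h * z i)‖ ^ 2) ≤ M * (m * M + I.card * B) := by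
  set c : ι → ℂ := fun i => S b M (h * z i) with hc
  set A : ℝ := ∑ i ∈ I, ‖c i‖ ^ 2 with hA
  have hA0 : 0 ≤ A := Finset.sum_nonneg fun i _ => by positivity
  set a : ι → ℕ → ℂ := fun i n => (starRingEnd ℂ) (c i) * e ((b : ℝ) ^ n * (h * z i)) with ha
  have h1 : (A : ℂ) = ∑ n ∈ Finset.range M, ∑ i ∈ I, a i n := by
    rw [Finset.sum_comm, hA]
    push_cast
    refine Finset.sum_congr rfl fun i _ => ?_
    rw [← Complex.conj_mul', ha]
    simp only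
    rw [← Finset.mul_sum]
    rfl
  have h2 : A ≤ ∑ n ∈ Finset.range M, ‖∑ i ∈ I, a i n‖ := by
    calc A = ‖(A : ℂ)‖ := by rw [Complex.norm_real, Real.norm_of_nonneg hA0]
      _ ≤ _ := by rw [h1]; exact norm_sum_le _ _
  have h3 : A ^ 2 ≤ M * ∑ n ∈ Finset.range M, ‖∑ i ∈ I, a i n‖ ^ 2 := by
    calc A ^ 2 ≤ (∑ n ∈ Finset.range M, ‖∑ i ∈ I, a i n‖) ^ 2 := by gcongr
      _ ≤ ((Finset.range M).card : ℝ) * ∑ n ∈ Finset.range M, ‖∑ i ∈ I, a i n‖ ^ 2 :=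
        sq_sum_le_card_mul_sum_sq
      _ = _ := by rw [Finset.card_range]
  have h4 := sum_norm_sq I M a
  set G : ι → ι → ℝ := fun i j => ‖S b M (h * (z i - z j))‖ with hG
  have hGs : ∀ i j, G i j = G j i := by
    intro i j
    simp only [hG]
    have : h * (z j - z i) = -(h * (z i - z j)) := by ring
    rw [this, S_neg, RCLike.norm_conj]
  have h5 : ∀ i j, ‖∑ n ∈ Finset.range M, a i n * (starRingEnd ℂ) (a j n)‖ =
      ‖c i‖ * ‖c j‖ * G i j := by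
    intro i j
    have h6 : ∑ n ∈ Finset.range M, a i n * (starRingEnd ℂ) (a j n) =
        (starRingEnd ℂ) (c i) * c j * S b M (h * (z i - z j)) := by
      unfold S
      rw [Finset.mul_sum]
      refine Finset.sum_congr rfl fun n _ => ?_
      have : (b : ℝ) ^ n * (h * (z i - z j)) = (b : ℝ) ^ n * (h * z i) - (b : ℝ) ^ n * (h * z j) := by
        ring
      rw [this, e_sub, ha]
      simp only [map_mul, Complex.conj_conj]
      ring
    rw [h6, norm_mul, norm_mul, RCLike.norm_conj]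
  have h6 : ∑ n ∈ Finset.range M, ‖∑ i ∈ I, a i n‖ ^ 2 ≤
      ∑ i ∈ I, ∑ j ∈ I, ‖c i‖ * ‖c j‖ * G i j := by
    calc ∑ n ∈ Finset.range M, ‖∑ i ∈ I, a i n‖ ^ 2
        = ‖((∑ n ∈ Finset.range M, ‖∑ i ∈ I, a i n‖ ^ 2 : ℝ) : ℂ)‖ := by
          rw [Complex.norm_real, Real.norm_of_nonneg (Finset.sum_nonneg fun _ _ => by positivity)]
      _ = ‖∑ i ∈ I, ∑ j ∈ I, ∑ n ∈ Finset.range M, a i n * (starRingEnd ℂ) (a j n)‖ := by rw [h4]
      _ ≤ ∑ i ∈ I, ‖∑ j ∈ I, ∑ n ∈ Finset.range M, a i n * (starRingEnd ℂ) (a j n)‖ :=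
          norm_sum_le _ _
      _ ≤ ∑ i ∈ I, ∑ j ∈ I, ‖∑ n ∈ Finset.range M, a i n * (starRingEnd ℂ) (a j n)‖ :=
          Finset.sum_le_sum fun i _ => norm_sum_le _ _
      _ = _ := Finset.sum_congr rfl fun i _ => Finset.sum_congr rfl fun j _ => h5 i j
  have h7 : ∑ i ∈ I, ∑ j ∈ I, ‖c i‖ * ‖c j‖ * G i j ≤ ∑ i ∈ I, ‖c i‖ ^ 2 * ∑ j ∈ I, G i j := by
    have h8 : ∑ i ∈ I, ∑ j ∈ I, ‖c i‖ * ‖c j‖ * G i j ≤
        ∑ i ∈ I, ∑ j ∈ I, (‖c i‖ ^ 2 * G i j + ‖c j‖ ^ 2 * G i j) / 2 := by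
      refine Finset.sum_le_sum fun i _ => Finset.sum_le_sum fun j _ => ?_
      have h9 : 0 ≤ G i j := norm_nonneg _
      have h10 := mul_nonneg (sq_nonneg (‖c i‖ - ‖c j‖)) h9
      nlinarith
    refine h8.trans (le_of_eq ?_)
    have h9 : ∑ i ∈ I, ∑ j ∈ I, ‖c j‖ ^ 2 * G i j = ∑ i ∈ I, ∑ j ∈ I, ‖c i‖ ^ 2 * G i j := by
      rw [Finset.sum_comm]
      exact Finset.sum_congr rfl fun i _ => Finset.sum_congr rfl fun j _ => by rw [hGs j i]
    simp only [Finset.mul_sum]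
    simp only [← Finset.sum_div, Finset.sum_add_distrib]
    rw [h9]
    ring
  have h8 : ∀ i ∈ I, ∑ j ∈ I, G i j ≤ m * M + I.card * B := by
    intro i hi
    rw [← Finset.sum_filter_add_sum_filter_not I (fun j => ¬ G i j ≤ B)]
    have h9 : ∑ j ∈ I.filter (fun j => ¬ G i j ≤ B), G i j ≤ m * M := by
      refine (Finset.sum_le_card_nsmul _ _ (M : ℝ) fun j _ => norm_S_le _ _ _).trans ?_
      rw [nsmul_eq_mul]
      have := hS i hi
      gcongr
    have h10 : ∑ j ∈ I.filter (fun j => ¬ ¬ G i j ≤ B), G i j ≤ I.card * B := by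
      refine (Finset.sum_le_card_nsmul _ _ B fun j hj => ?_).trans ?_
      · exact not_not.1 (Finset.mem_filter.1 hj).2
      · rw [nsmul_eq_mul]
        have : ((I.filter (fun j => ¬ ¬ G i j ≤ B)).card : ℝ) ≤ I.card := by
          exact_mod_cast Finset.card_filter_le _ _
        gcongr
    linarith
  have h9 : A ^ 2 ≤ M * (A * (m * M + I.card * B)) := by
    refine h3.trans ?_
    gcongr
    refine h6.trans (h7.trans ?_)
    rw [hA, Finset.sum_mul]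
    refine Finset.sum_le_sum fun i hi => ?_
    have := h8 i hi
    gcongr
  rcases hA0.eq_or_lt with h0 | h0
  · rw [← h0]; positivity
  · refine le_of_mul_le_mul_left ?_ h0
    calc A * A = A ^ 2 := by ring
      _ ≤ _ := h9
      _ = _ := by ring

/-- bounded sums for the difference -/
def Good (b : ℕ) (h : ℕ) (t : ℝ) : Prop := ∃ B : ℝ, ∀ M : ℕ, ‖S b M (h * t)‖ ≤ B

open Classical in
/-- **Count lemma with multiplicities** -/
theorem count' {ι : Type*} (b H : ℕ) (ε : ℝ) (hε : 0 ≤ ε) (I : Finset ι) (z : ι → ℝ)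
    (m : ℕ → ℕ) (hbad : ∀ i ∈ I, Bad b H ε (z i))
    (hS : ∀ i ∈ I, ∀ h ∈ Finset.Icc 1 H, (I.filter fun j => ¬ Good b h (z i - z j)).card ≤ m h) :
    (I.card : ℝ) * ε ^ 2 ≤ ((∑ h ∈ Finset.Icc 1 H, m h : ℕ) : ℝ) := by
  have hB : ∃ B : ℝ, 0 ≤ B ∧ ∀ i ∈ I, ∀ j ∈ I, ∀ h ∈ Finset.Icc 1 H, Good b h (z i - z j) →
      ∀ M : ℕ, ‖S b M (h * (z i - z j))‖ ≤ B := by
    have h1 : ∀ i j : ι, ∀ h : ℕ, ∃ B : ℝ, 0 ≤ B ∧ (Good b h (z i - z j) →
        ∀ M : ℕ, ‖S b M (h * (z i - z j))‖ ≤ B) := by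
      intro i j h
      by_cases hh : Good b h (z i - z j)
      · obtain ⟨B, hB⟩ := hh
        exact ⟨max B 0, le_max_right _ _, fun _ M => (hB M).trans (le_max_left _ _)⟩
      · exact ⟨0, le_rfl, fun a1 => absurd a1 hh⟩
    choose B hB0 hB using h1
    refine ⟨∑ i ∈ I, ∑ j ∈ I, ∑ h ∈ Finset.Icc 1 H, B i j h,
      Finset.sum_nonneg fun i _ => Finset.sum_nonneg fun j _ => Finset.sum_nonneg fun h _ =>
        hB0 i j h, ?_⟩
    intro i hi j hj h hh hg M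
    refine (hB i j h hg M).trans ?_
    calc B i j h ≤ ∑ h ∈ Finset.Icc 1 H, B i j h :=
          Finset.single_le_sum (f := fun h => B i j h) (fun h _ => hB0 i j h) hh
      _ ≤ ∑ j ∈ I, ∑ h ∈ Finset.Icc 1 H, B i j h :=
          Finset.single_le_sum (f := fun j => ∑ h ∈ Finset.Icc 1 H, B i j h)
            (fun j _ => Finset.sum_nonneg fun h _ => hB0 i j h) hj
      _ ≤ _ := Finset.single_le_sum
            (f := fun i => ∑ j ∈ I, ∑ h ∈ Finset.Icc 1 H, B i j h)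
            (fun i _ => Finset.sum_nonneg fun j _ => Finset.sum_nonneg fun h _ => hB0 i j h) hi
  obtain ⟨B, hB0, hB⟩ := hB
  have hM : ∃ M₀ : ℕ, ∀ i ∈ I, ∀ M ≥ M₀, ∃ h ∈ Finset.Icc 1 H, ε * M ≤ ‖S b M (h * z i)‖ := by
    have h1 : ∀ i : ι, ∃ M₀ : ℕ, i ∈ I → ∀ M ≥ M₀, ∃ h ∈ Finset.Icc 1 H,
        ε * M ≤ ‖S b M (h * z i)‖ := by
      intro i
      by_cases hi : i ∈ I
      · obtain ⟨M₀, h⟩ := hbad i hi
        exact ⟨M₀, fun _ => h⟩
      · exact ⟨0, fun h => absurd h hi⟩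
    choose M₀ hM₀ using h1
    refine ⟨I.sup M₀, fun i hi M hM => hM₀ i hi M ((Finset.le_sup (f := M₀) hi).trans hM)⟩
  obtain ⟨M₀, hM⟩ := hM
  set K : ℝ := (I.card : ℝ) with hK
  have hK0 : 0 ≤ K := by positivity
  have main : ∀ M : ℕ, M₀ ≤ M → 1 ≤ M →
      K * ε ^ 2 ≤ ((∑ h ∈ Finset.Icc 1 H, m h : ℕ) : ℝ) + H * (K * B) / M := by
    intro M hM1 hM2
    have hM0 : (0 : ℝ) < M := by exact_mod_cast hM2
    have h1 : K * (ε ^ 2 * M ^ 2) ≤ ∑ h ∈ Finset.Icc 1 H, ∑ i ∈ I, ‖S b M (h * z i)‖ ^ 2 := by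
      rw [Finset.sum_comm]
      have h2 : ∀ i ∈ I, ε ^ 2 * M ^ 2 ≤ ∑ h ∈ Finset.Icc 1 H, ‖S b M (h * z i)‖ ^ 2 := by
        intro i hi
        obtain ⟨h, hh, hle⟩ := hM i hi M hM1
        calc ε ^ 2 * M ^ 2 = (ε * M) ^ 2 := by ring
          _ ≤ ‖S b M (h * z i)‖ ^ 2 := by gcongr
          _ ≤ _ := Finset.single_le_sum (f := fun h : ℕ => ‖S b M (h * z i)‖ ^ 2)
              (fun h _ => by positivity) hh
      have h3 := Finset.card_nsmul_le_sum I _ _ h2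
      rw [nsmul_eq_mul] at h3
      exact h3
    have h2 : ∀ h ∈ Finset.Icc 1 H, ∑ i ∈ I, ‖S b M (h * z i)‖ ^ 2 ≤ M * (m h * M + K * B) := by
      intro h hh
      refine sieve2 b M I z h B hB0 (m h) (by positivity) fun i hi => ?_
      have h3 := hS i hi h hh
      refine le_trans ?_ (by exact_mod_cast h3 : (((I.filter fun j => ¬ Good b h (z i - z j)).card : ℕ) : ℝ) ≤ m h)
      have h4 : (I.filter fun j => ¬ ‖S b M (h * (z i - z j))‖ ≤ B) ⊆
          I.filter fun j => ¬ Good b h (z i - z j) := by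
        intro j hj
        rw [Finset.mem_filter] at hj ⊢
        exact ⟨hj.1, fun hg => hj.2 (hB i hi j hj.1 h hh hg M)⟩
      exact_mod_cast Finset.card_le_card h4
    have h3 := h1.trans (Finset.sum_le_sum h2)
    have h4 : ∑ h ∈ Finset.Icc 1 H, (M : ℝ) * (m h * M + K * B) =
        (((∑ h ∈ Finset.Icc 1 H, m h : ℕ) : ℝ) + H * (K * B) / M) * M ^ 2 := by
      rw [← Finset.mul_sum, Finset.sum_add_distrib, Finset.sum_const, Nat.card_Icc,
        ← Finset.sum_mul]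
      push_cast
      simp only [nsmul_eq_mul]
      field_simp
    rw [h4] at h3
    refine le_of_mul_le_mul_right ?_ (by positivity : (0 : ℝ) < M ^ 2)
    calc K * ε ^ 2 * M ^ 2 = K * (ε ^ 2 * M ^ 2) := by ring
      _ ≤ _ := h3
  have hlim : Filter.Tendsto (fun M : ℕ => ((∑ h ∈ Finset.Icc 1 H, m h : ℕ) : ℝ) +
      H * (K * B) / M) Filter.atTop (nhds (((∑ h ∈ Finset.Icc 1 H, m h : ℕ) : ℝ) + 0)) :=
    Filter.Tendsto.const_add _ (tendsto_const_div_atTop_nhds_zero_nat _)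
  rw [add_zero] at hlim
  refine ge_of_tendsto hlim ?_
  filter_upwards [Filter.eventually_ge_atTop M₀, Filter.eventually_ge_atTop 1] with M h1 h2
  exact main M h1 h2

/-- fractions with a denominator composed of the primes of `a` -/
lemma orth_rat2 {a b : ℕ} (ha : 2 ≤ a) (hb : 2 ≤ b) (hab : a.Coprime b) :
    ∃ P : ℕ, 0 < P ∧ ∀ (N : ℕ) (m : ℤ) (h : ℕ), 1 ≤ h →
      (¬ ∃ k : ℤ, ((h * P : ℕ) : ℝ) * (m / (a : ℝ) ^ N) = k) → Good b h (m / (a : ℝ) ^ N) := by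
  have hL : ∀ p : ℕ, ∃ L₁ : ℕ, 1 ≤ L₁ ∧ (p.Prime → p ∣ a → ∀ L ≥ L₁, ∀ D : ℕ, 0 < D → ¬ p ∣ D →
      (∀ q : ℕ, q.Prime → q ∣ D → q ∣ a) →
      ∀ u : ℤ, ¬ (p : ℤ) ∣ u → ∃ B : ℝ, ∀ M : ℕ, ‖S b M (u / ((p : ℝ) ^ L * D))‖ ≤ B) := by
    intro p
    by_cases hp : p.Prime ∧ p ∣ a
    · have hpb : ¬ p ∣ b := fun h => hp.1.one_lt.ne' (Nat.dvd_one.1 (hab ▸ Nat.dvd_gcd hp.2 h))
      obtain ⟨L₁, h⟩ := orth (a := a) hp.1 hb hpb (by omega)
      exact ⟨L₁ + 1, by omega, fun _ _ L hL => h L (by omega)⟩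
    · exact ⟨1, le_rfl, fun h1 h2 => absurd ⟨h1, h2⟩ hp⟩
  choose L₁ hL1 hL using hL
  set P : ℕ := ∏ p ∈ a.primeFactors, p ^ L₁ p with hP
  have hP0 : 0 < P := Finset.prod_pos fun p hp =>
    Nat.pow_pos (Nat.prime_of_mem_primeFactors hp).pos
  refine ⟨P, by positivity, fun N m h h1 hnot => ?_⟩
  have haR : (a : ℝ) ≠ 0 := by positivity
  set ρ : ℚ := ((h * m : ℤ) : ℚ) / (((a : ℤ) ^ N : ℤ) : ℚ) with hρ
  have hρR : (ρ : ℝ) = h * (m / (a : ℝ) ^ N) := by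
    rw [hρ]; push_cast; ring
  have hden : (ρ.den : ℤ) ∣ (a : ℤ) ^ N := by
    rw [hρ, ← Rat.divInt_eq_div]
    exact Rat.den_dvd _ _
  have hden' : ρ.den ∣ a ^ N := by exact_mod_cast hden
  have hex : ∃ p : ℕ, p.Prime ∧ p ∣ a ∧ p ^ L₁ p ∣ ρ.den := by
    by_contra hcon
    push Not at hcon
    have h3 : ρ.den ∣ P := by
      rw [Nat.dvd_iff_prime_pow_dvd_dvd]
      intro q k hq hqk
      rcases Nat.eq_zero_or_pos k with hk | hk
      · subst hk; simp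
      have hqa : q ∣ a := hq.dvd_of_dvd_pow (((dvd_pow_self q hk.ne').trans hqk).trans hden')
      have h4 : k ≤ L₁ q := by
        by_contra h5
        push Not at h5
        exact hcon q hq hqa ((pow_dvd_pow q h5.le).trans hqk)
      exact (pow_dvd_pow q h4).trans (Finset.dvd_prod_of_mem _
        (Nat.mem_primeFactors.2 ⟨hq, hqa, by omega⟩))
    obtain ⟨w, hw⟩ := h3
    apply hnot
    refine ⟨w * ρ.num, ?_⟩
    have h5 : (ρ : ℝ) = ρ.num / ρ.den := by exact_mod_cast (Rat.num_div_den ρ).symm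
    have h6 : (ρ.den : ℝ) ≠ 0 := by exact_mod_cast ρ.den_ne_zero
    have h7 : (ρ.den : ℝ) * (h * (m / (a : ℝ) ^ N)) = ρ.num := by
      rw [← hρR, h5]; field_simp
    rw [hw]
    push_cast
    linear_combination (w : ℝ) * h7
  obtain ⟨p, hp, hpa, hpd⟩ := hex
  obtain ⟨L, D, hD, hLD⟩ := Nat.exists_eq_pow_mul_and_not_dvd ρ.den_ne_zero p hp.ne_one
  have hD0 : 0 < D := Nat.pos_of_ne_zero (by rintro rfl; simp at hD)
  have hLL : L₁ p ≤ L := by
    have h3 : (p ^ L₁ p).Coprime D :=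
      ((Nat.Prime.coprime_iff_not_dvd hp).2 hD).pow_left _
    rw [hLD] at hpd
    have h4 := h3.dvd_of_dvd_mul_right hpd
    exact (Nat.pow_dvd_pow_iff_le_right hp.one_lt).1 h4
  have hpden : p ∣ ρ.den := (dvd_pow_self p (by have := hL1 p; omega)).trans hpd
  have hnum : ¬ (p : ℤ) ∣ ρ.num := by
    intro h3
    have h4 : p ∣ ρ.num.natAbs := Int.natCast_dvd.1 h3
    have h5 := Nat.dvd_gcd h4 hpden
    rw [ρ.reduced] at h5
    exact hp.one_lt.ne' (Nat.dvd_one.1 h5)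
  obtain ⟨B, hB⟩ := hL p hp hpa L hLL D hD0 hD
    (fun q hq hqd => hq.dvd_of_dvd_pow ((hqd.trans ⟨p ^ L, by rw [hLD]; ring⟩).trans hden'))
    ρ.num hnum
  refine ⟨B, fun M => ?_⟩
  rw [← hρR]
  have h5 : (ρ : ℝ) = ρ.num / ρ.den := by exact_mod_cast (Rat.num_div_den ρ).symm
  rw [h5, hLD]
  push_cast
  exact hB M

/-- a bound for the number of bad elements of a coset of `ℤ[1/a]` -/
theorem coset2 {a b : ℕ} (ha : 2 ≤ a) (hb : 2 ≤ b) (hab : a.Coprime b) :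
    ∃ P : ℕ, 0 < P ∧ ∀ (H : ℕ) (ε : ℝ), 0 ≤ ε → ∀ x : ℝ, ∀ R : Finset ℝ,
      (∀ r ∈ R, 0 ≤ r ∧ r < 1 ∧ (∃ (N : ℕ) (m : ℤ), r = m / (a : ℝ) ^ N) ∧ Bad b H ε (x + r)) →
      (R.card : ℝ) * ε ^ 2 ≤ P * (H : ℝ) ^ 2 := by
  classical
  obtain ⟨P, hP0, hP⟩ := orth_rat2 ha hb hab
  have haR : (a : ℝ) ≠ 0 := by positivity
  refine ⟨P, hP0, fun H ε hε x R hR => ?_⟩
  have h1 := count' b H ε hε R (fun r => x + r) (fun h => h * P) (fun r hr => (hR r hr).2.2.2)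
    (by
      intro r hr h hh
      rw [Finset.mem_Icc] at hh
      have hQ0 : 0 < h * P := Nat.mul_pos (by omega) hP0
      have hQR : (0 : ℝ) < ((h * P : ℕ) : ℝ) := by exact_mod_cast hQ0
      set I := R.filter fun j => ¬ Good b h (x + r - (x + j)) with hI
      have hmem : ∀ j ∈ I, ∃ k : ℤ, ((h * P : ℕ) : ℝ) * (r - j) = k := by
        intro j hj
        rw [hI, Finset.mem_filter] at hj
        by_contra hcon
        obtain ⟨N, m, hm⟩ := (hR r hr).2.2.1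
        obtain ⟨N', m', hm'⟩ := (hR j hj.1).2.2.1
        have h3 : r - j = ((m * a ^ N' - m' * a ^ N : ℤ) : ℝ) / (a : ℝ) ^ (N + N') := by
          rw [hm, hm', pow_add]
          push_cast
          field_simp
        rw [h3] at hcon
        have h4 := hP (N + N') _ h hh.1 hcon
        rw [← h3] at h4
        apply hj.2
        have h5 : x + r - (x + j) = r - j := by ring
        rw [h5]
        exact h4
      have h2 : (I.image fun j => ⌊((h * P : ℕ) : ℝ) * j⌋₊) ⊆ Finset.range (h * P) := by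
        intro k hk
        rw [Finset.mem_image] at hk
        obtain ⟨j, hj, rfl⟩ := hk
        obtain ⟨hj0, hj1, _⟩ := hR j (Finset.mem_filter.1 hj).1
        rw [Finset.mem_range, Nat.floor_lt (by positivity)]
        nlinarith
      have h3 : Set.InjOn (fun j : ℝ => ⌊((h * P : ℕ) : ℝ) * j⌋₊) I := by
        intro j hj j' hj' heq
        rw [Finset.mem_coe] at hj hj'
        obtain ⟨hj0, hj1, _⟩ := hR j (Finset.mem_filter.1 hj).1
        obtain ⟨hj0', hj1', _⟩ := hR j' (Finset.mem_filter.1 hj').1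
        obtain ⟨k, hk⟩ := hmem j hj
        obtain ⟨k', hk'⟩ := hmem j' hj'
        have h4 : Int.fract (((h * P : ℕ) : ℝ) * j) = Int.fract (((h * P : ℕ) : ℝ) * j') := by
          rw [Int.fract_eq_fract]
          exact ⟨k' - k, by push_cast at hk hk' ⊢; rw [← hk, ← hk']; ring⟩
        simp only at heq
        have h5 : ⌊((h * P : ℕ) : ℝ) * j⌋ = ⌊((h * P : ℕ) : ℝ) * j'⌋ := by
          rw [← Int.natCast_floor_eq_floor (by positivity : 0 ≤ ((h * P : ℕ) : ℝ) * j),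
            ← Int.natCast_floor_eq_floor (by positivity : 0 ≤ ((h * P : ℕ) : ℝ) * j'), heq]
        have h6 : ((h * P : ℕ) : ℝ) * j = ((h * P : ℕ) : ℝ) * j' := by
          rw [← Int.floor_add_fract (((h * P : ℕ) : ℝ) * j),
            ← Int.floor_add_fract (((h * P : ℕ) : ℝ) * j'), h4, h5]
        exact mul_left_cancel₀ hQR.ne' h6
      rw [← Finset.card_image_of_injOn h3]
      exact (Finset.card_le_card h2).trans (by simp))
  refine h1.trans ?_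
  have h2 : ∑ h ∈ Finset.Icc 1 H, h * P ≤ P * H ^ 2 := by
    refine (Finset.sum_le_card_nsmul _ _ (H * P) fun h hh => ?_).trans ?_
    · rw [Finset.mem_Icc] at hh
      exact Nat.mul_le_mul_right _ hh.2
    · rw [Nat.card_Icc, smul_eq_mul]
      simp only [Nat.add_sub_cancel]
      exact le_of_eq (by ring)
  exact_mod_cast h2

end Pool.Agent.X101.SD
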