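import Mathlib
import Pool.Agent.X101.SD.Count2

set_option autoImplicit false

open Filter

namespace Pool.Agent.X101.SD

/-- Fejér sums along the orbit -/
lemma fejer_orbit {b M K : ℕ} {z s ε : ℝ} (hε : 0 ≤ ε)
    (h : ∀ h ∈ Finset.Icc 1 K, ‖S b M (h * z)‖ ≤ ε * M) :
    (K : ℝ) * M * (1 - K * ε) ≤ ∑ n ∈ Finset.range M,
      ‖∑ r ∈ Finset.range K, e ((r : ℝ) * ((b : ℝ) ^ n * z - s))‖ ^ 2 := by
  set a : ℕ → ℕ → ℂ := fun j n => e ((j : ℝ) * ((b : ℝ) ^ n * z - s)) with ha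
  set T : ℕ → ℕ → ℂ := fun j k => ∑ n ∈ Finset.range M, a j n * (starRingEnd ℂ) (a k n) with hT
  have h1 := sum_norm_sq (Finset.range K) M a
  have hTs : ∀ j k, T k j = (starRingEnd ℂ) (T j k) := by
    intro j k
    rw [hT]
    simp only [map_sum, map_mul, Complex.conj_conj]
    exact Finset.sum_congr rfl fun n _ => by ring
  have hlt : ∀ j ∈ Finset.range K, ∀ k ∈ Finset.range K, k < j → ‖T j k‖ ≤ ε * M := by
    intro j hj k hk hkj
    rw [Finset.mem_range] at hj hk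
    have h2 : T j k = e (-(((j - k : ℕ) : ℝ) * s)) * S b M (((j - k : ℕ) : ℝ) * z) := by
      rw [hT]
      unfold S
      simp only
      rw [Finset.mul_sum]
      refine Finset.sum_congr rfl fun n _ => ?_
      rw [ha]
      simp only
      rw [← e_sub, ← e_add]
      congr 1
      push_cast [Nat.cast_sub hkj.le]
      ring
    rw [h2, norm_mul, norm_e, one_mul]
    exact h (j - k) (Finset.mem_Icc.2 ⟨by omega, by omega⟩)
  have hoff : ∀ j ∈ Finset.range K, ∀ k ∈ Finset.range K, j ≠ k → ‖T j k‖ ≤ ε * M := by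
    intro j hj k hk hjk
    rcases lt_or_gt_of_ne hjk with h | h
    · rw [hTs k j, RCLike.norm_conj]
      exact hlt k hk j hj h
    · exact hlt j hj k hk h
  have h2 := offdiag (Finset.range K) T (ε * M) (by positivity) hoff
  have h3 : ∑ j ∈ Finset.range K, T j j = ((K * M : ℝ) : ℂ) := by
    have : ∀ j ∈ Finset.range K, T j j = M := by
      intro j _
      rw [hT]
      simp only [ha, e_mul_conj]
      simp
    rw [Finset.sum_congr rfl this]
    simp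
  rw [h3] at h2
  change ((_ : ℝ) : ℂ) = ∑ r ∈ Finset.range K, ∑ r' ∈ Finset.range K, T r r' at h1
  rw [← h1, ← Complex.ofReal_sub, Complex.norm_real, Real.norm_eq_abs, Finset.card_range] at h2
  have h4 := (abs_le.1 h2).1
  have h5 : (K : ℝ) * M * (1 - K * ε) = K * M - (K : ℝ) ^ 2 * (ε * M) := by ring
  rw [h5]
  linarith

lemma fejer_small (K : ℕ) {δ y : ℝ} (hδ : 0 < δ) (h1 : δ ≤ |y|) (h2 : |y| ≤ 1 - δ) :
    ‖∑ r ∈ Finset.range K, e ((r : ℝ) * y)‖ ^ 2 ≤ 1 / (4 * δ ^ 2) := by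
  have h6 : ∑ r ∈ Finset.range K, e ((r : ℝ) * y) = ∑ r ∈ Finset.range K, e y ^ r := by
    refine Finset.sum_congr rfl fun r _ => ?_
    rw [e_nat_mul]
  have h7 : 4 * δ ≤ ‖e y - 1‖ := norm_e_sub_one hδ h1 h2
  have h8 : ‖∑ r ∈ Finset.range K, e ((r : ℝ) * y)‖ * (4 * δ) ≤ 2 := by
    calc ‖∑ r ∈ Finset.range K, e ((r : ℝ) * y)‖ * (4 * δ)
        ≤ ‖∑ r ∈ Finset.range K, e ((r : ℝ) * y)‖ * ‖e y - 1‖ := by gcongr
      _ = ‖e y ^ K - 1‖ := by rw [h6, ← norm_mul, geom_sum_mul]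
      _ ≤ ‖e y ^ K‖ + ‖(1 : ℂ)‖ := norm_sub_le _ _
      _ = 2 := by rw [norm_pow, norm_e]; norm_num
  have h9 : ‖∑ r ∈ Finset.range K, e ((r : ℝ) * y)‖ ≤ 1 / (2 * δ) := by
    rw [le_div_iff₀ (by positivity)]
    linarith
  calc ‖∑ r ∈ Finset.range K, e ((r : ℝ) * y)‖ ^ 2 ≤ (1 / (2 * δ)) ^ 2 := by gcongr
    _ = 1 / (4 * δ ^ 2) := by field_simp; norm_num

lemma fejer_grid {K : ℕ} (hK : 0 < K) (t : ℝ) : ∑ j ∈ Finset.range K,
    ‖∑ r ∈ Finset.range K, e ((r : ℝ) * (t - (j : ℝ) / K))‖ ^ 2 = (K : ℝ) * K := by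
  have hKR : (K : ℝ) ≠ 0 := by positivity
  set a : ℕ → ℕ → ℂ := fun r j => e ((r : ℝ) * (t - (j : ℝ) / K)) with ha
  have h1 := sum_norm_sq (Finset.range K) K a
  have h2 : ∀ r ∈ Finset.range K, ∀ r' ∈ Finset.range K,
      ∑ j ∈ Finset.range K, a r j * (starRingEnd ℂ) (a r' j) = if r = r' then (K : ℂ) else 0 := by
    intro r hr r' hr'
    rw [Finset.mem_range] at hr hr'
    by_cases h : r = r'
    · rw [if_pos h, h]
      simp only [ha, e_mul_conj]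
      simp
    · rw [if_neg h]
      set ζ : ℂ := e (((r' : ℝ) - r) / K) with hζ
      have hζ1 : ζ ≠ 1 := by
        intro h3
        obtain ⟨n, hn⟩ := e_eq_one h3
        rw [div_eq_iff hKR] at hn
        have h4 : (r' : ℤ) - r = n * K := by exact_mod_cast hn
        have h5 : (r' : ℤ) - r = 0 := by
          refine Int.eq_zero_of_abs_lt_dvd ⟨n, by rw [h4]; ring⟩ ?_ (m := (K : ℤ))
          rw [abs_lt]; constructor <;> omega
        omega
      have hζK : ζ ^ K = 1 := by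
        rw [hζ, ← e_nat_mul]
        have : (K : ℝ) * (((r' : ℝ) - r) / K) = (((r' : ℤ) - r : ℤ) : ℝ) := by
          field_simp; push_cast; ring
        rw [this, e_int]
      have h3 : ∀ j : ℕ, a r j * (starRingEnd ℂ) (a r' j) = e (((r : ℝ) - r') * t) * ζ ^ j := by
        intro j
        rw [ha]
        simp only
        rw [← e_sub, hζ, ← e_nat_mul, ← e_add]
        congr 1
        field_simp
        ring
      rw [Finset.sum_congr rfl fun j _ => h3 j, ← Finset.mul_sum]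
      have h4 : (∑ j ∈ Finset.range K, ζ ^ j) * (ζ - 1) = 0 := by
        rw [geom_sum_mul, hζK, sub_self]
      rcases mul_eq_zero.1 h4 with h5 | h5
      · rw [h5, mul_zero]
      · exact absurd (sub_eq_zero.1 h5) hζ1
  have h3 : ∑ r ∈ Finset.range K, ∑ r' ∈ Finset.range K,
      ∑ j ∈ Finset.range K, a r j * (starRingEnd ℂ) (a r' j) = ((K * K : ℝ) : ℂ) := by
    rw [Finset.sum_congr rfl fun r hr => Finset.sum_congr rfl fun r' hr' => h2 r hr r' hr']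
    have h4 : ∀ r ∈ Finset.range K, ∑ r' ∈ Finset.range K, (if r = r' then (K : ℂ) else 0) = K := by
      intro r hr
      rw [Finset.sum_ite_eq, if_pos hr]
    rw [Finset.sum_congr rfl h4]
    simp
  rw [h3] at h1
  exact Complex.ofReal_injective h1

open Classical in
/-- **small exponential sums give the expected number of visits to an interval** -/
lemma count_lower {b M K q W : ℕ} {z ε θ : ℝ} (hq : 0 < q) (hW : W < q) (hθ : 0 < θ) (hθ1 : θ ≤ 1)
    (hK : 128 * (q : ℝ) ^ 2 / θ ^ 3 ≤ K) (hε : 0 ≤ ε) (hKε : 8 * K * ε ≤ θ)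
    (h : ∀ h ∈ Finset.Icc 1 K, ‖S b M (h * z)‖ ≤ ε * M) :
    (1 - θ) * M / q ≤ (((Finset.range M).filter fun n : ℕ =>
      (W : ℝ) / q ≤ Int.fract ((b : ℝ) ^ n * z) ∧
        Int.fract ((b : ℝ) ^ n * z) < ((W : ℝ) + 1) / q).card : ℝ) := by
  have hqR : (0 : ℝ) < q := by exact_mod_cast hq
  have hq1 : (1 : ℝ) ≤ q := by exact_mod_cast hq
  have hKpos : (0 : ℝ) < K := lt_of_lt_of_le (by positivity) hK
  have hK0 : 0 < K := by exact_mod_cast hKpos
  have hKθ : 128 * (q : ℝ) ^ 2 ≤ K * θ ^ 3 := by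
    rwa [div_le_iff₀ (by positivity)] at hK
  set δ : ℝ := θ / (8 * q) with hδ
  have hδ0 : 0 < δ := by positivity
  have hδq : δ * (8 * q) = θ := by
    rw [hδ]; field_simp
  have hWq : ((W : ℝ) + 1) / q ≤ 1 := by
    rw [div_le_one hqR]; exact_mod_cast hW
  have hW0 : 0 ≤ (W : ℝ) / q := by positivity
  set J : Finset ℕ := Finset.Icc ⌈(K : ℝ) * ((W : ℝ) / q + δ)⌉₊ ⌊(K : ℝ) * (((W : ℝ) + 1) / q - δ)⌋₊
    with hJ
  have hδ1 : δ ≤ 1 / q := by
    rw [hδ, div_le_div_iff₀ (by positivity) hqR]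
    nlinarith
  have hB0 : 0 ≤ (K : ℝ) * (((W : ℝ) + 1) / q - δ) := by
    have : 0 ≤ ((W : ℝ) + 1) / q - δ := by
      rw [add_div]; linarith
    positivity
  have hJmem : ∀ j ∈ J, (W : ℝ) / q + δ ≤ (j : ℝ) / K ∧ (j : ℝ) / K ≤ ((W : ℝ) + 1) / q - δ := by
    intro j hj
    rw [hJ, Finset.mem_Icc, Nat.ceil_le, Nat.le_floor_iff hB0] at hj
    rw [le_div_iff₀ hKpos, div_le_iff₀ hKpos]
    constructor <;> linarith [hj.1, hj.2]
  have hJK : J ⊆ Finset.range K := by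
    intro j hj
    have h1 := (hJmem j hj).2
    rw [Finset.mem_range]
    have h2 : (j : ℝ) / K < 1 := by linarith
    rw [div_lt_one hKpos] at h2
    exact_mod_cast h2
  have hJcard : (K : ℝ) / q * (1 - 3 * θ / 8) ≤ J.card := by
    have h1 : ((⌊(K : ℝ) * (((W : ℝ) + 1) / q - δ)⌋₊ : ℝ) + 1 - ⌈(K : ℝ) * ((W : ℝ) / q + δ)⌉₊ : ℝ)
        ≤ J.card := by
      rw [hJ, Nat.card_Icc]
      have h2 : ⌊(K : ℝ) * (((W : ℝ) + 1) / q - δ)⌋₊ + 1 ≤
          (⌊(K : ℝ) * (((W : ℝ) + 1) / q - δ)⌋₊ + 1 - ⌈(K : ℝ) * ((W : ℝ) / q + δ)⌉₊) +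
            ⌈(K : ℝ) * ((W : ℝ) / q + δ)⌉₊ := le_tsub_add
      have h3 : ((⌊(K : ℝ) * (((W : ℝ) + 1) / q - δ)⌋₊ : ℝ) + 1) ≤
          ((⌊(K : ℝ) * (((W : ℝ) + 1) / q - δ)⌋₊ + 1 - ⌈(K : ℝ) * ((W : ℝ) / q + δ)⌉₊ : ℕ) : ℝ) +
            ⌈(K : ℝ) * ((W : ℝ) / q + δ)⌉₊ := by exact_mod_cast h2
      linarith
    have h2 := Nat.lt_floor_add_one ((K : ℝ) * (((W : ℝ) + 1) / q - δ))
    have h3 := Nat.ceil_lt_add_one (by positivity : 0 ≤ (K : ℝ) * ((W : ℝ) / q + δ))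
    have h4 : (K : ℝ) * (((W : ℝ) + 1) / q - δ) - (K : ℝ) * ((W : ℝ) / q + δ) =
        K / q - 2 * (K * δ) := by ring
    have h5 : (K : ℝ) * δ = K / q * (θ / 8) := by rw [hδ]; field_simp
    have h6 : 1 ≤ (K : ℝ) / q * (θ / 8) := by
      rw [div_mul_div_comm, le_div_iff₀ (by positivity)]
      have h7 : θ ^ 3 ≤ θ := by
        have : θ ^ 2 ≤ 1 := by nlinarith
        nlinarith
      have h8 : (K : ℝ) * θ ^ 3 ≤ K * θ := by gcongr
      nlinarith
    have h7 : (K : ℝ) / q * (1 - 3 * θ / 8) = K / q - 2 * (K / q * (θ / 8)) - K / q * (θ / 8) := by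
      ring
    rw [h7]
    linarith
  set F : ℕ → ℕ → ℝ := fun n j =>
    ‖∑ r ∈ Finset.range K, e ((r : ℝ) * ((b : ℝ) ^ n * z - (j : ℝ) / K))‖ ^ 2 with hF
  have hlow : (J.card : ℝ) * ((K : ℝ) * M * (1 - K * ε)) ≤
      ∑ n ∈ Finset.range M, ∑ j ∈ J, F n j := by
    rw [Finset.sum_comm, ← nsmul_eq_mul]
    refine Finset.card_nsmul_le_sum _ _ _ fun j _ => ?_
    exact fejer_orbit hε h
  set G := (Finset.range M).filter fun n : ℕ => (W : ℝ) / q ≤ Int.fract ((b : ℝ) ^ n * z) ∧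
        Int.fract ((b : ℝ) ^ n * z) < ((W : ℝ) + 1) / q with hG
  have hup1 : ∀ n : ℕ, ∑ j ∈ J, F n j ≤ (K : ℝ) * K := by
    intro n
    rw [← fejer_grid hK0 ((b : ℝ) ^ n * z)]
    exact Finset.sum_le_sum_of_subset_of_nonneg hJK fun j _ _ => by positivity
  have hup2 : ∀ n : ℕ, ¬ ((W : ℝ) / q ≤ Int.fract ((b : ℝ) ^ n * z) ∧
        Int.fract ((b : ℝ) ^ n * z) < ((W : ℝ) + 1) / q) →
      ∑ j ∈ J, F n j ≤ J.card * (1 / (4 * δ ^ 2)) := by
    intro n hn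
    rw [← nsmul_eq_mul]
    refine Finset.sum_le_card_nsmul _ _ _ fun j hj => ?_
    set t := Int.fract ((b : ℝ) ^ n * z) with ht
    have h1 : F n j = ‖∑ r ∈ Finset.range K, e ((r : ℝ) * (t - (j : ℝ) / K))‖ ^ 2 := by
      rw [hF]
      simp only
      congr 2
      refine Finset.sum_congr rfl fun r _ => ?_
      have h2 : (r : ℝ) * ((b : ℝ) ^ n * z - (j : ℝ) / K) =
          (r : ℝ) * (t - (j : ℝ) / K) + ((r * ⌊(b : ℝ) ^ n * z⌋ : ℤ) : ℝ) := by
        rw [ht, Int.fract]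
        push_cast
        ring
      rw [h2, e_add, e_int, mul_one]
    rw [h1]
    obtain ⟨h2, h3⟩ := hJmem j hj
    have h4 : 0 ≤ t := Int.fract_nonneg _
    have h5 : t < 1 := Int.fract_lt_one _
    rw [not_and_or, not_le, not_lt] at hn
    rcases hn with hn | hn
    · refine fejer_small K hδ0 ?_ ?_
      · rw [abs_of_neg (by linarith)]; linarith
      · rw [abs_of_neg (by linarith)]; linarith
    · refine fejer_small K hδ0 ?_ ?_
      · rw [abs_of_pos (by linarith)]; linarith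
      · rw [abs_of_pos (by linarith)]; linarith
  have hup : ∑ n ∈ Finset.range M, ∑ j ∈ J, F n j ≤
      G.card * ((K : ℝ) * K) + M * (J.card * (1 / (4 * δ ^ 2))) := by
    rw [← Finset.sum_filter_add_sum_filter_not (Finset.range M) (fun n : ℕ =>
      (W : ℝ) / q ≤ Int.fract ((b : ℝ) ^ n * z) ∧ Int.fract ((b : ℝ) ^ n * z) < ((W : ℝ) + 1) / q)]
    refine add_le_add ?_ ?_
    · rw [← nsmul_eq_mul]
      exact Finset.sum_le_card_nsmul _ _ _ fun n _ => hup1 n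
    · refine (Finset.sum_le_card_nsmul _ _ _ fun n hn => hup2 n (Finset.mem_filter.1 hn).2).trans ?_
      rw [nsmul_eq_mul]
      have h1 : ((((Finset.range M).filter fun n : ℕ => ¬ ((W : ℝ) / q ≤ Int.fract ((b : ℝ) ^ n * z) ∧
        Int.fract ((b : ℝ) ^ n * z) < ((W : ℝ) + 1) / q)).card : ℕ) : ℝ) ≤ M := by
        have := Finset.card_filter_le (Finset.range M) fun n : ℕ =>
          ¬ ((W : ℝ) / q ≤ Int.fract ((b : ℝ) ^ n * z) ∧
            Int.fract ((b : ℝ) ^ n * z) < ((W : ℝ) + 1) / q)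
        rw [Finset.card_range] at this
        exact_mod_cast this
      gcongr
  have h1 := hlow.trans hup
  have h2 : 1 / (4 * δ ^ 2) ≤ (K : ℝ) * θ / 8 := by
    rw [div_le_div_iff₀ (by positivity) (by norm_num)]
    have h3 : (K : ℝ) * θ * (4 * δ ^ 2) * (64 * q ^ 2) = K * θ ^ 3 * 4 := by
      rw [← hδq]; ring
    have h4 : (1 : ℝ) * 8 * (64 * q ^ 2) ≤ (K : ℝ) * θ * (4 * δ ^ 2) * (64 * q ^ 2) := by
      rw [h3]; linarith
    exact le_of_mul_le_mul_right h4 (by positivity)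
  have h3 : (J.card : ℝ) * ((K : ℝ) * M * (1 - θ / 4)) ≤ G.card * ((K : ℝ) * K) := by
    have h4 : (J.card : ℝ) * ((K : ℝ) * M * (1 - K * ε)) ≥
        (J.card : ℝ) * ((K : ℝ) * M * (1 - θ / 8)) := by
      gcongr
      linarith
    have h5 : (M : ℝ) * (J.card * (1 / (4 * δ ^ 2))) ≤ M * (J.card * (K * θ / 8)) := by gcongr
    have h6 : (J.card : ℝ) * ((K : ℝ) * M * (1 - θ / 4)) =
        (J.card : ℝ) * ((K : ℝ) * M * (1 - θ / 8)) - M * (J.card * (K * θ / 8)) := by ring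
    rw [h6]
    linarith
  have h4 : (J.card : ℝ) * (M * (1 - θ / 4)) ≤ G.card * K := by
    refine le_of_mul_le_mul_right ?_ hKpos
    calc (J.card : ℝ) * (M * (1 - θ / 4)) * K = (J.card : ℝ) * ((K : ℝ) * M * (1 - θ / 4)) := by ring
      _ ≤ _ := h3
      _ = _ := by ring
  have h5 : (K : ℝ) / q * (1 - 3 * θ / 8) * (M * (1 - θ / 4)) ≤ G.card * K := by
    refine le_trans ?_ h4
    have : 0 ≤ 1 - θ / 4 := by linarith
    gcongr
  have h6 : (M : ℝ) / q * ((1 - 3 * θ / 8) * (1 - θ / 4)) ≤ G.card := by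
    refine le_of_mul_le_mul_right ?_ hKpos
    calc (M : ℝ) / q * ((1 - 3 * θ / 8) * (1 - θ / 4)) * K =
          (K : ℝ) / q * (1 - 3 * θ / 8) * (M * (1 - θ / 4)) := by ring
      _ ≤ _ := h5
  refine le_trans ?_ h6
  rw [mul_comm (1 - θ) (M : ℝ), mul_div_right_comm]
  gcongr
  nlinarith

/-- the number of `i < n` such that the `k` digits of `y` in base `b` after the `i`-th place
form the number `W` -/
noncomputable def blockCount (b k : ℕ) (y : ℝ) (W n : ℕ) : ℕ :=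
  ((Finset.range n).filter fun i => ⌊(b : ℝ) ^ (i + k) * y⌋ % (b : ℤ) ^ k = W).card

lemma block_iff {b : ℕ} (hb : 0 < b) (k i W : ℕ) (y : ℝ) :
    ⌊(b : ℝ) ^ (i + k) * y⌋ % (b : ℤ) ^ k = W ↔
      (W : ℝ) / ((b ^ k : ℕ) : ℝ) ≤ Int.fract ((b : ℝ) ^ i * y) ∧
        Int.fract ((b : ℝ) ^ i * y) < ((W : ℝ) + 1) / ((b ^ k : ℕ) : ℝ) := by
  have hq : 0 < b ^ k := by positivity
  have hqR : (0 : ℝ) < ((b ^ k : ℕ) : ℝ) := by exact_mod_cast hq
  have h1 : (b : ℝ) ^ (i + k) * y = ((b ^ k : ℕ) : ℝ) * Int.fract ((b : ℝ) ^ i * y) +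
      (((b : ℤ) ^ k * ⌊(b : ℝ) ^ i * y⌋ : ℤ) : ℝ) := by
    rw [Int.fract, pow_add]
    push_cast
    ring
  have h2 : ⌊(b : ℝ) ^ (i + k) * y⌋ % (b : ℤ) ^ k =
      ⌊((b ^ k : ℕ) : ℝ) * Int.fract ((b : ℝ) ^ i * y)⌋ := by
    rw [h1, Int.floor_add_intCast, Int.add_mul_emod_self_left]
    refine Int.emod_eq_of_lt ?_ ?_
    · exact Int.floor_nonneg.2 (mul_nonneg hqR.le (Int.fract_nonneg _))
    · rw [Int.floor_lt]
      have := Int.fract_lt_one ((b : ℝ) ^ i * y)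
      push_cast
      calc ((b : ℝ) ^ k) * Int.fract ((b : ℝ) ^ i * y) < (b : ℝ) ^ k * 1 := by
            have : (0 : ℝ) < (b : ℝ) ^ k := by positivity
            gcongr
        _ = _ := mul_one _
  rw [h2, Int.floor_eq_iff, div_le_iff₀ hqR, lt_div_iff₀ hqR]
  constructor
  · rintro ⟨h3, h4⟩
    push_cast at h3 h4 ⊢
    constructor <;> linarith
  · rintro ⟨h3, h4⟩
    push_cast at h3 h4 ⊢
    constructor <;> linarith

lemma blockCount_sum {b : ℕ} (hb : 0 < b) (k n : ℕ) (y : ℝ) :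
    ∑ W ∈ Finset.range (b ^ k), blockCount b k y W n = n := by
  have hq : (0 : ℤ) < (b : ℤ) ^ k := by positivity
  have h1 := Finset.card_eq_sum_card_fiberwise (s := Finset.range n) (t := Finset.range (b ^ k))
    (f := fun i => (⌊(b : ℝ) ^ (i + k) * y⌋ % (b : ℤ) ^ k).toNat) (by
      intro i _
      simp only [Finset.coe_range, Set.mem_Iio]
      have h2 := Int.emod_lt_of_pos ⌊(b : ℝ) ^ (i + k) * y⌋ hq
      have h3 := Int.emod_nonneg ⌊(b : ℝ) ^ (i + k) * y⌋ hq.ne'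
      have h4 : (((b ^ k : ℕ) : ℤ)) = (b : ℤ) ^ k := by push_cast; rfl
      omega)
  rw [Finset.card_range] at h1
  conv_rhs => rw [h1]
  refine Finset.sum_congr rfl fun W _ => ?_
  unfold blockCount
  congr 1
  ext i
  simp only [Finset.mem_filter, Finset.mem_range, and_congr_right_iff]
  intro _
  have h3 := Int.emod_nonneg ⌊(b : ℝ) ^ (i + k) * y⌋ hq.ne'
  constructor
  · intro h; omega
  · intro h; omega

/-- the blocks of length `k` are, up to the factor `1 ± η`, equally frequent among the first `n`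
places, for infinitely many `n` -/
def NearlyUniform (b k : ℕ) (η : ℝ) (y : ℝ) : Prop :=
  ∀ N₀ : ℕ, ∃ n ≥ N₀, ∀ W < b ^ k,
    (1 - η) * n / (b : ℝ) ^ k ≤ blockCount b k y W n ∧
      (blockCount b k y W n : ℝ) ≤ (1 + η) * n / (b : ℝ) ^ k

lemma nearlyUniform_of_not_bad {b k K : ℕ} (hb : 0 < b) {η ε y : ℝ} (hη : 0 < η) (hη1 : η ≤ 1)
    (hK : 128 * ((b : ℝ) ^ k) ^ 2 / (η / (b : ℝ) ^ k) ^ 3 ≤ K) (hε : 0 ≤ ε)
    (hKε : 8 * K * ε ≤ η / (b : ℝ) ^ k) (h : ¬ Bad b K ε y) : NearlyUniform b k η y := by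
  classical
  unfold Bad at h
  push Not at h
  intro N₀
  obtain ⟨n, hn, hS⟩ := h N₀
  refine ⟨n, hn, ?_⟩
  set q : ℝ := (b : ℝ) ^ k with hq
  have hbR : (1 : ℝ) ≤ b := by exact_mod_cast hb
  have hq1 : 1 ≤ q := one_le_pow₀ hbR
  have hq0 : 0 < q := by linarith
  set θ : ℝ := η / q with hθ
  have hθ0 : 0 < θ := by positivity
  have hθη : θ * q = η := by rw [hθ]; field_simp
  have hθ1 : θ ≤ 1 := by nlinarith
  have hqN : 0 < b ^ k := by positivity
  have hqc : ((b ^ k : ℕ) : ℝ) = q := by rw [hq]; push_cast; rfl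
  have low : ∀ W < b ^ k, (1 - θ) * n / q ≤ blockCount b k y W n := by
    intro W hW
    have h1 := count_lower (b := b) (M := n) (K := K) (q := b ^ k) (W := W) (z := y) (ε := ε)
      (θ := θ) hqN hW hθ0 hθ1 (by rw [hqc]; exact hK) hε hKε (fun h hh => (hS h hh).le)
    rw [hqc] at h1
    refine h1.trans (le_of_eq ?_)
    unfold blockCount
    congr 2
    ext i
    simp only [Finset.mem_filter]
    rw [block_iff hb, hqc]
  have hn0 : (0 : ℝ) ≤ n := by positivity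
  intro W hW
  constructor
  · refine le_trans ?_ (low W hW)
    have : θ ≤ η := by nlinarith
    gcongr
  · have h1 : (blockCount b k y W n : ℝ) = n - ∑ W' ∈ (Finset.range (b ^ k)).erase W,
        (blockCount b k y W' n : ℝ) := by
      have h2 := blockCount_sum hb k n y
      rw [← Finset.add_sum_erase _ _ (Finset.mem_range.2 hW)] at h2
      have h3 : (blockCount b k y W n : ℝ) + ∑ W' ∈ (Finset.range (b ^ k)).erase W,
        (blockCount b k y W' n : ℝ) = n := by exact_mod_cast h2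
      linarith
    have h2 : (q - 1) * ((1 - θ) * n / q) ≤ ∑ W' ∈ (Finset.range (b ^ k)).erase W,
        (blockCount b k y W' n : ℝ) := by
      have h3 := Finset.card_nsmul_le_sum ((Finset.range (b ^ k)).erase W)
        (fun W' => (blockCount b k y W' n : ℝ)) ((1 - θ) * n / q) fun W' hW' =>
          low W' (Finset.mem_range.1 (Finset.mem_of_mem_erase hW'))
      rw [nsmul_eq_mul, Finset.card_erase_of_mem (Finset.mem_range.2 hW), Finset.card_range,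
        Nat.cast_sub hqN, hqc, Nat.cast_one] at h3
      exact h3
    rw [h1]
    have h3 : (1 + η) * n / q = n - (q - 1) * ((1 - θ) * n / q) + (η * n / q - (q - 1) * (θ * n / q)) := by
      field_simp
      ring
    have h4 : 0 ≤ η * n / q - (q - 1) * (θ * n / q) := by
      have h5 : η * n / q - (q - 1) * (θ * n / q) = θ * n / q := by
        rw [← hθη]
        field_simp
        ring
      rw [h5]
      positivity
    rw [h3]
    linarith

lemma finite_of_card {E : Set ℝ} {C : ℝ} (h : ∀ R : Finset ℝ, (R : Set ℝ) ⊆ E → (R.card : ℝ) ≤ C) :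
    E.Finite ∧ (E.ncard : ℝ) ≤ C := by
  have hfin : E.Finite := by
    by_contra hinf
    obtain ⟨T, hT1, hT2⟩ := (show E.Infinite from hinf).exists_subset_card_eq (⌈C⌉₊ + 1)
    have h1 := h T hT1
    rw [hT2] at h1
    push_cast at h1
    have := Nat.le_ceil C
    linarith
  refine ⟨hfin, ?_⟩
  have h1 := h hfin.toFinset (by simp)
  rwa [← Set.ncard_eq_toFinset_card E hfin] at h1

/-- **all but boundedly many points of a coset of `ℤ[1/a]`** -/
theorem coset_words {a b : ℕ} (ha : 2 ≤ a) (hb : 2 ≤ b) (hab : a.Coprime b) :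
    ∃ C : ℝ, ∀ (k : ℕ) (η : ℝ), 0 < η → η ≤ 1 → ∀ x : ℝ,
      {r : ℝ | 0 ≤ r ∧ r < 1 ∧ (∃ (N : ℕ) (m : ℤ), r = m / (a : ℝ) ^ N) ∧
        ¬ NearlyUniform b k η (x + r)}.Finite ∧
      ({r : ℝ | 0 ≤ r ∧ r < 1 ∧ (∃ (N : ℕ) (m : ℤ), r = m / (a : ℝ) ^ N) ∧
        ¬ NearlyUniform b k η (x + r)}.ncard : ℝ) ≤ C * (b : ℝ) ^ (22 * k) / η ^ 14 := by
  obtain ⟨P, hP0, hP⟩ := coset2 ha hb hab
  refine ⟨64 * 129 ^ 4 * P, fun k η hη hη1 x => finite_of_card fun R hR => ?_⟩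
  set q : ℝ := (b : ℝ) ^ k with hq
  have hbR : (1 : ℝ) ≤ b := by exact_mod_cast (by omega : 1 ≤ b)
  have hq1 : 1 ≤ q := one_le_pow₀ hbR
  have hq0 : 0 < q := by linarith
  set θ : ℝ := η / q with hθ
  have hθ0 : 0 < θ := by positivity
  have hθη : θ * q = η := by rw [hθ]; field_simp
  have hθ1 : θ ≤ 1 := by nlinarith
  set K : ℕ := ⌈128 * q ^ 2 / θ ^ 3⌉₊ with hK
  have hK1 : 128 * q ^ 2 / θ ^ 3 ≤ K := Nat.le_ceil _
  have hKpos : (0 : ℝ) < K := lt_of_lt_of_le (by positivity) hK1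
  have hK2 : (K : ℝ) ≤ 129 * q ^ 2 / θ ^ 3 := by
    have h1 : (K : ℝ) < 128 * q ^ 2 / θ ^ 3 + 1 := Nat.ceil_lt_add_one (by positivity)
    have h2 : 1 ≤ q ^ 2 / θ ^ 3 := by
      rw [one_le_div (by positivity)]
      calc θ ^ 3 ≤ 1 := pow_le_one₀ hθ0.le hθ1
        _ ≤ q ^ 2 := one_le_pow₀ hq1
    have h3 : 129 * q ^ 2 / θ ^ 3 = 128 * q ^ 2 / θ ^ 3 + q ^ 2 / θ ^ 3 := by ring
    linarith
  have h1 := hP K (θ / (8 * K)) (by positivity) x R (by
    intro r hr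
    obtain ⟨h2, h3, h4, h5⟩ := hR hr
    refine ⟨h2, h3, h4, ?_⟩
    by_contra h6
    have h7 : 8 * K * (θ / (8 * K)) = θ := by field_simp
    exact h5 (nearlyUniform_of_not_bad (by omega) hη hη1 hK1 (by positivity) h7.le h6))
  have h2 : (R.card : ℝ) ≤ 64 * P * K ^ 4 / θ ^ 2 := by
    rw [le_div_iff₀ (by positivity)]
    have h3 : (R.card : ℝ) * (θ / (8 * K)) ^ 2 * (64 * K ^ 2) = R.card * θ ^ 2 := by
      field_simp
      norm_num
    rw [← h3]
    calc (R.card : ℝ) * (θ / (8 * K)) ^ 2 * (64 * K ^ 2) ≤ P * (K : ℝ) ^ 2 * (64 * K ^ 2) := by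
          gcongr
      _ = _ := by ring
  refine h2.trans ?_
  calc 64 * P * (K : ℝ) ^ 4 / θ ^ 2 ≤ 64 * P * (129 * q ^ 2 / θ ^ 3) ^ 4 / θ ^ 2 := by gcongr
    _ = 64 * 129 ^ 4 * P * q ^ 22 / (θ * q) ^ 14 := by
        field_simp
    _ = _ := by rw [hθη, hq, ← pow_mul, mul_comm k 22]

/-- the `n`-th decimal digit -/
noncomputable def decimalDigit (y : ℝ) (n : ℕ) : ℤ := ⌊y * 10 ^ n⌋ % 10

lemma digits_of_uniform {y : ℝ} (h : NearlyUniform 10 1 (1 / 2) y) (d : ℕ) (hd : d < 10) :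
    {n : ℕ | decimalDigit y n = d}.Infinite := by
  intro hfin
  have hcard : ∀ n : ℕ, blockCount 10 1 y d n ≤ hfin.toFinset.card := by
    intro n
    unfold blockCount
    refine Finset.card_le_card_of_injOn (fun i => i + 1) ?_ (fun i _ j _ h => by simpa using h)
    intro i hi
    have h1 := (Finset.mem_filter.1 hi).2
    simp only [Set.Finite.coe_toFinset, Set.mem_ofPred_eq, decimalDigit]
    rw [mul_comm y]
    simpa using h1
  obtain ⟨n, hn, h1⟩ := h (20 * hfin.toFinset.card + 1)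
  have h2 := (h1 d (by simpa using hd)).1
  have h3 : (blockCount 10 1 y d n : ℝ) ≤ hfin.toFinset.card := by exact_mod_cast hcard n
  have h4 : ((20 * hfin.toFinset.card + 1 : ℕ) : ℝ) ≤ n := by exact_mod_cast hn
  push_cast at h4 h2
  linarith

theorem ternary_translates (a : ℕ) (ha : 2 ≤ a) (hab : a.Coprime 10) :
    ∃ C : ℕ, ∀ (x : ℝ) (N : ℕ), {m : ℕ | m < a ^ N ∧ ∃ d : ℕ, d < 10 ∧
      {n : ℕ | decimalDigit (x + m / (a : ℝ) ^ N) n = d}.Finite}.ncard ≤ C := by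
  obtain ⟨C, hC⟩ := coset_words ha (by norm_num : 2 ≤ 10) hab
  refine ⟨⌊C * (10 : ℝ) ^ 22 * 2 ^ 14⌋₊, fun x N => ?_⟩
  obtain ⟨h1, h2⟩ := hC 1 (1 / 2) (by norm_num) (by norm_num) x
  have haR : (0 : ℝ) < (a : ℝ) ^ N := by positivity
  have h3 : {m : ℕ | m < a ^ N ∧ ∃ d : ℕ, d < 10 ∧
      {n : ℕ | decimalDigit (x + m / (a : ℝ) ^ N) n = d}.Finite}.ncard ≤
      {r : ℝ | 0 ≤ r ∧ r < 1 ∧ (∃ (N : ℕ) (m : ℤ), r = m / (a : ℝ) ^ N) ∧
        ¬ NearlyUniform 10 1 (1 / 2) (x + r)}.ncard := by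
    refine Set.ncard_le_ncard_of_injOn (fun m : ℕ => (m : ℝ) / (a : ℝ) ^ N) ?_ ?_ h1
    · rintro m ⟨hm, d, hd, hfin⟩
      refine ⟨by positivity, ?_, ⟨N, m, by simp⟩, fun h => digits_of_uniform h d hd hfin⟩
      rw [div_lt_one haR]
      exact_mod_cast hm
    · intro m _ m' _ h
      simp only at h
      rw [div_left_inj' haR.ne'] at h
      exact_mod_cast h
  refine h3.trans ?_
  refine Nat.le_floor (h2.trans (le_of_eq ?_))
  push_cast
  ring

end Pool.Agent.X101.SD
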