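import Mathlib
import Pool.Agent.X101.SD.Period

set_option autoImplicit false

namespace Pool.Agent.X101.SD

theorem orth_frac {p b a : ℕ} (hp : p.Prime) (hb : 2 ≤ b) (hpb : ¬ p ∣ b) (ha : 0 < a)
    (hpa : p ∣ a) (H g : ℕ) :
    ∃ N₀ : ℕ, ∀ N ≥ N₀, ∀ m : ℤ, ¬ (p : ℤ) ^ g ∣ m → ∀ h : ℕ, 1 ≤ h → h ≤ H →
      ∃ B : ℝ, ∀ M : ℕ, ‖S b M (h * (m / (a : ℝ) ^ N))‖ ≤ B := by
  obtain ⟨L₁, hL₁⟩ := orth (a := a) hp hb hpb ha
  refine ⟨L₁ + g + H, fun N hN m hm h h1 h2 => ?_⟩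
  have hp0 : (p : ℝ) ≠ 0 := by exact_mod_cast hp.ne_zero
  obtain ⟨α, a', ha', haa⟩ := Nat.exists_eq_pow_mul_and_not_dvd ha.ne' p hp.ne_one
  have hα : 1 ≤ α := by
    rcases Nat.eq_zero_or_pos α with h0 | h0
    · subst h0
      rw [pow_zero, one_mul] at haa
      exact absurd (haa ▸ hpa) ha'
    · exact h0
  have ha'0 : a' ≠ 0 := by rintro rfl; simp at ha'
  obtain ⟨w₂, h', hh', hhh⟩ := Nat.exists_eq_pow_mul_and_not_dvd (n := h) (by omega) p hp.ne_one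
  have hw₂ : w₂ ≤ H := by
    have h3 : w₂ < p ^ w₂ := Nat.lt_pow_self hp.one_lt
    have h4 : p ^ w₂ ∣ h := ⟨h', hhh⟩
    have h5 := Nat.le_of_dvd (by omega) h4
    omega
  have hm0 : m ≠ 0 := by rintro rfl; simp at hm
  have hfin : FiniteMultiplicity (p : ℤ) m :=
    Int.finiteMultiplicity_iff.2 ⟨by simpa using hp.ne_one, hm0⟩
  obtain ⟨u, hu1, hu2⟩ := hfin.exists_eq_pow_mul_and_not_dvd
  set w₁ := multiplicity (p : ℤ) m with hw₁
  have hw₁g : w₁ < g := by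
    by_contra hcon
    push Not at hcon
    exact hm (by rw [hu1]; exact Dvd.dvd.mul_right (pow_dvd_pow _ hcon) _)
  have hL : L₁ ≤ α * N - w₁ - w₂ := by
    have : N ≤ α * N := Nat.le_mul_of_pos_left N hα
    omega
  obtain ⟨B, hB⟩ := hL₁ (α * N - w₁ - w₂) hL (a' ^ N) (Nat.pow_pos (Nat.pos_of_ne_zero ha'0))
    (fun h => ha' (hp.dvd_of_dvd_pow h))
    (fun q hq hqd => by
      rw [haa]
      exact Dvd.dvd.mul_left (hq.dvd_of_dvd_pow hqd) _) (h' * u)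
    (fun hd => by
      rcases (Nat.prime_iff_prime_int.1 hp).dvd_or_dvd hd with h3 | h3
      · exact hh' (by exact_mod_cast h3)
      · exact hu2 h3)
  refine ⟨B, fun M => ?_⟩
  convert hB M using 3
  have hsplit : (p : ℝ) ^ (α * N) = (p : ℝ) ^ (α * N - w₁ - w₂) * (p : ℝ) ^ w₁ * (p : ℝ) ^ w₂ := by
    rw [← pow_add, ← pow_add]; congr 1
    have : N ≤ α * N := Nat.le_mul_of_pos_left N hα
    omega
  have h3 : (a : ℝ) ^ N = (p : ℝ) ^ (α * N) * (a' : ℝ) ^ N := by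
    rw [haa]; push_cast; rw [mul_pow, pow_mul]
  have h4 : (h : ℝ) = (p : ℝ) ^ w₂ * h' := by exact_mod_cast congrArg (Nat.cast (R := ℝ)) hhh
  have h5 : (m : ℝ) = (p : ℝ) ^ w₁ * u := by
    have := congrArg (Int.cast (R := ℝ)) hu1
    push_cast at this
    exact this
  have ha'R : (a' : ℝ) ≠ 0 := by exact_mod_cast ha'0
  rw [h3, h4, h5, hsplit]
  push_cast
  field_simp

/-- fractions with a denominator composed of the primes of `a` which do not come from `Q` -/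
lemma orth_rat {a b : ℕ} (ha : 2 ≤ a) (hb : 2 ≤ b) (hab : a.Coprime b) (H : ℕ) :
    ∃ Q : ℕ, 0 < Q ∧ ∀ (N : ℕ) (m : ℤ), (¬ ∃ k : ℤ, (Q : ℝ) * (m / (a : ℝ) ^ N) = k) →
      ∀ h : ℕ, 1 ≤ h → h ≤ H → ∃ B : ℝ, ∀ M : ℕ, ‖S b M (h * (m / (a : ℝ) ^ N))‖ ≤ B := by
  have hL : ∀ p : ℕ, ∃ L₁ : ℕ, 1 ≤ L₁ ∧ (p.Prime → p ∣ a → ∀ L ≥ L₁, ∀ D : ℕ, 0 < D → ¬ p ∣ D →
      (∀ q : ℕ, q.Prime → q ∣ D → q ∣ a) →
      ∀ u : ℤ, ¬ (p : ℤ) ∣ u → ∃ B : ℝ, ∀ M : ℕ, ‖S b M (u / ((p : ℝ) ^ L * D))‖ ≤ B) := by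
    intro p
    by_cases hp : p.Prime ∧ p ∣ a
    · have hpb : ¬ p ∣ b := fun h => hp.1.one_lt.ne' (Nat.dvd_one.1 (hab ▸ Nat.dvd_gcd hp.2 h))
      obtain ⟨L₁, h⟩ := orth (a := a) hp.1 hb hpb (by omega)
      exact ⟨L₁ + 1, by omega, fun _ _ L hL => h L (by omega)⟩
    · exact ⟨1, le_rfl, fun h1 h2 => absurd ⟨h1, h2⟩ hp⟩
  choose L₁ hL1 hL using hL
  set P : ℕ := ∏ p ∈ a.primeFactors, p ^ L₁ p with hP
  have hP0 : 0 < P := Finset.prod_pos fun p hp =>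
    Nat.pow_pos (Nat.prime_of_mem_primeFactors hp).pos
  refine ⟨H.factorial * P, by positivity, fun N m hnot h h1 h2 => ?_⟩
  have haR : (a : ℝ) ≠ 0 := by positivity
  set ρ : ℚ := ((h * m : ℤ) : ℚ) / (((a : ℤ) ^ N : ℤ) : ℚ) with hρ
  have hρR : (ρ : ℝ) = h * (m / (a : ℝ) ^ N) := by
    rw [hρ]; push_cast; ring
  have hden : (ρ.den : ℤ) ∣ (a : ℤ) ^ N := by
    rw [hρ, ← Rat.divInt_eq_div]
    exact Rat.den_dvd _ _
  have hden' : ρ.den ∣ a ^ N := by exact_mod_cast hden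
  have hex : ∃ p : ℕ, p.Prime ∧ p ∣ a ∧ p ^ L₁ p ∣ ρ.den := by
    by_contra hcon
    push Not at hcon
    have h3 : ρ.den ∣ P := by
      rw [Nat.dvd_iff_prime_pow_dvd_dvd]
      intro q k hq hqk
      rcases Nat.eq_zero_or_pos k with hk | hk
      · subst hk; simp
      have hqa : q ∣ a := hq.dvd_of_dvd_pow (((dvd_pow_self q hk.ne').trans hqk).trans hden')
      have h4 : k ≤ L₁ q := by
        by_contra h5
        push Not at h5
        exact hcon q hq hqa ((pow_dvd_pow q h5.le).trans hqk)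
      exact (pow_dvd_pow q h4).trans (Finset.dvd_prod_of_mem _
        (Nat.mem_primeFactors.2 ⟨hq, hqa, by omega⟩))
    obtain ⟨w, hw⟩ := h3
    obtain ⟨v, hv⟩ := Nat.dvd_factorial (by omega : 0 < h) h2
    apply hnot
    refine ⟨v * w * ρ.num, ?_⟩
    have h5 : (ρ : ℝ) = ρ.num / ρ.den := by exact_mod_cast (Rat.num_div_den ρ).symm
    have h6 : (ρ.den : ℝ) ≠ 0 := by exact_mod_cast ρ.den_ne_zero
    have h7 : (ρ.den : ℝ) * (h * (m / (a : ℝ) ^ N)) = ρ.num := by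
      rw [← hρR, h5]; field_simp
    rw [hw, hv]
    push_cast
    linear_combination (v * w : ℝ) * h7
  obtain ⟨p, hp, hpa, hpd⟩ := hex
  obtain ⟨L, D, hD, hLD⟩ := Nat.exists_eq_pow_mul_and_not_dvd ρ.den_ne_zero p hp.ne_one
  have hD0 : 0 < D := Nat.pos_of_ne_zero (by rintro rfl; simp at hD)
  have hLL : L₁ p ≤ L := by
    have h3 : (p ^ L₁ p).Coprime D :=
      ((Nat.Prime.coprime_iff_not_dvd hp).2 hD).pow_left _
    rw [hLD] at hpd
    have h4 := h3.dvd_of_dvd_mul_right hpd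
    exact (Nat.pow_dvd_pow_iff_le_right hp.one_lt).1 h4
  have hpden : p ∣ ρ.den := (dvd_pow_self p (by have := hL1 p; omega)).trans hpd
  have hnum : ¬ (p : ℤ) ∣ ρ.num := by
    intro h3
    have h4 : p ∣ ρ.num.natAbs := Int.natCast_dvd.1 h3
    have h5 := Nat.dvd_gcd h4 hpden
    rw [ρ.reduced] at h5
    exact hp.one_lt.ne' (Nat.dvd_one.1 h5)
  obtain ⟨B, hB⟩ := hL p hp hpa L hLL D hD0 hD
    (fun q hq hqd => hq.dvd_of_dvd_pow ((hqd.trans ⟨p ^ L, by rw [hLD]; ring⟩).trans hden'))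
    ρ.num hnum
  refine ⟨B, fun M => ?_⟩
  rw [← hρR]
  have h5 : (ρ : ℝ) = ρ.num / ρ.den := by exact_mod_cast (Rat.num_div_den ρ).symm
  rw [h5, hLD]
  push_cast
  exact hB M

/-- **all but finitely many elements of a coset of `ℤ[1/a]` are not bad** -/
theorem coset {a b : ℕ} (ha : 2 ≤ a) (hb : 2 ≤ b) (hab : a.Coprime b) (H : ℕ) {ε : ℝ} (hε : 0 < ε) :
    ∃ C : ℕ, ∀ x : ℝ, ∀ R : Finset ℝ,
      (∀ r ∈ R, 0 ≤ r ∧ r < 1 ∧ (∃ (N : ℕ) (m : ℤ), r = m / (a : ℝ) ^ N) ∧ Bad b H ε (x + r)) →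
      R.card ≤ C := by
  classical
  obtain ⟨Q, hQ0, hQ⟩ := orth_rat ha hb hab H
  have haR : (a : ℝ) ≠ 0 := by positivity
  refine ⟨Q * ⌊(H : ℝ) / ε ^ 2⌋₊, fun x R hR => ?_⟩
  set f : ℝ → ℝ := fun r => Int.fract ((Q : ℝ) * r) with hf
  have hQR : (0 : ℝ) < Q := by exact_mod_cast hQ0
  have h1 : R.card ≤ Q * (R.image f).card := by
    refine Finset.card_le_mul_card_image R Q fun y hy => ?_
    have h2 : ((R.filter fun r => f r = y).image fun r => ⌊(Q : ℝ) * r⌋₊) ⊆ Finset.range Q := by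
      intro k hk
      rw [Finset.mem_image] at hk
      obtain ⟨r, hr, rfl⟩ := hk
      rw [Finset.mem_filter] at hr
      obtain ⟨hr0, hr1, _⟩ := hR r hr.1
      rw [Finset.mem_range, Nat.floor_lt (by positivity)]
      nlinarith
    have h3 : Set.InjOn (fun r : ℝ => ⌊(Q : ℝ) * r⌋₊) (R.filter fun r => f r = y) := by
      intro r hr r' hr' heq
      rw [Finset.mem_coe, Finset.mem_filter] at hr hr'
      obtain ⟨hr0, hr1, _⟩ := hR r hr.1
      obtain ⟨hr0', hr1', _⟩ := hR r' hr'.1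
      have h4 : Int.fract ((Q : ℝ) * r) = Int.fract ((Q : ℝ) * r') := by
        have := hr.2.trans hr'.2.symm
        exact this
      simp only at heq
      have h5 : ⌊(Q : ℝ) * r⌋ = ⌊(Q : ℝ) * r'⌋ := by
        rw [← Int.natCast_floor_eq_floor (by positivity : 0 ≤ (Q : ℝ) * r),
          ← Int.natCast_floor_eq_floor (by positivity : 0 ≤ (Q : ℝ) * r'), heq]
      have h6 : (Q : ℝ) * r = Q * r' := by
        rw [← Int.floor_add_fract ((Q : ℝ) * r), ← Int.floor_add_fract ((Q : ℝ) * r'), h4, h5]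
      exact mul_left_cancel₀ hQR.ne' h6
    rw [← Finset.card_image_of_injOn h3]
    exact (Finset.card_le_card h2).trans (by simp)
  refine h1.trans (Nat.mul_le_mul_left _ ?_)
  -- representatives
  have hrep : ∀ y : ℝ, ∃ r : ℝ, y ∈ R.image f → r ∈ R ∧ f r = y := by
    intro y
    by_cases hy : y ∈ R.image f
    · obtain ⟨r, hr, hry⟩ := Finset.mem_image.1 hy
      exact ⟨r, fun _ => ⟨hr, hry⟩⟩
    · exact ⟨0, fun h => absurd h hy⟩
  choose s hs using hrep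
  have h2 := count b H ε hε.le (R.image f) (fun y => x + s y) (fun y hy => (hR _ (hs y hy).1).2.2.2)
    (by
      intro y hy y' hy' hne h hh1 hh2
      obtain ⟨N, m, hm⟩ := (hR _ (hs y hy).1).2.2.1
      obtain ⟨N', m', hm'⟩ := (hR _ (hs y' hy').1).2.2.1
      have h3 : x + s y - (x + s y') = ((m * a ^ N' - m' * a ^ N : ℤ) : ℝ) / (a : ℝ) ^ (N + N') := by
        rw [hm, hm', pow_add]
        push_cast
        field_simp
        ring
      rw [h3]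
      refine hQ (N + N') _ ?_ h hh1 hh2
      rintro ⟨k, hk⟩
      rw [← h3] at hk
      apply hne
      rw [← (hs y hy).2, ← (hs y' hy').2]
      simp only [hf]
      rw [Int.fract_eq_fract]
      exact ⟨k, by rw [← hk]; ring⟩)
  rw [Nat.le_floor_iff (by positivity), le_div_iff₀ (by positivity)]
  exact h2

end Pool.Agent.X101.SD
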