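import Mathlib
import Pool.Agent.X101.SD.Coset
import Pool.Agent.X101.SD.Dense

set_option autoImplicit false

open MeasureTheory

namespace Pool.Agent.X101.SD

/-- change the coordinates in `F` to `η` -/
def upd {a : ℕ} (F : Finset ℕ) (η : F → Fin a) (ω : ℕ → Fin a) : ℕ → Fin a :=
  fun i => if h : i ∈ F then η ⟨i, h⟩ else ω i

lemma measurable_upd {a : ℕ} (F : Finset ℕ) (η : F → Fin a) : Measurable (upd F η) := by
  refine measurable_pi_lambda _ fun i => ?_
  by_cases h : i ∈ F
  · simp only [upd, h, dif_pos]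
    exact measurable_const
  · simp only [upd, h, dif_neg, not_false_eq_true]
    exact measurable_pi_apply i

lemma resample {a : ℕ} (ν : ℕ → Measure (Fin a)) [∀ k, IsProbabilityMeasure (ν k)] (F : Finset ℕ) :
    (∑ η : F → Fin a, (∏ i : F, ν i {η i}) • (Measure.infinitePi ν).map (upd F η)) =
      Measure.infinitePi ν := by
  classical
  refine Measure.eq_infinitePi ν fun s t ht => ?_
  have hm : MeasurableSet (Set.pi (s : Set ℕ) t) := MeasurableSet.pi s.countable_toSet fun i _ => ht i
  rw [Measure.finsetSum_apply]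
  have h1 : ∀ η : F → Fin a,
      ((∏ i : F, ν i {η i}) • (Measure.infinitePi ν).map (upd F η)) (Set.pi (s : Set ℕ) t) =
      (∏ i : F, (ν i {η i} * (if (i : ℕ) ∈ s → η i ∈ t i then 1 else 0))) *
        ∏ i ∈ s \ F, ν i (t i) := by
    intro η
    rw [Measure.smul_apply, Measure.map_apply (measurable_upd F η) hm, smul_eq_mul,
      Finset.prod_mul_distrib, mul_assoc]
    congr 1
    by_cases hη : ∀ i : F, (i : ℕ) ∈ s → η i ∈ t i
    · have h2 : upd F η ⁻¹' (Set.pi (s : Set ℕ) t) = Set.pi ((s \ F : Finset ℕ) : Set ℕ) t := by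
        ext ω
        simp only [Set.mem_preimage, Set.mem_pi, Finset.mem_coe, Finset.mem_sdiff]
        constructor
        · intro h i hi
          have := h i hi.1
          simpa [upd, hi.2] using this
        · intro h i hi
          by_cases hF : i ∈ F
          · simp only [upd, hF, dif_pos]
            exact hη ⟨i, hF⟩ hi
          · simp only [upd, hF, dif_neg, not_false_eq_true]
            exact h i ⟨hi, hF⟩
      rw [h2, Measure.infinitePi_pi ν (fun i _ => ht i)]
      have h3 : ∏ i : F, (if (i : ℕ) ∈ s → η i ∈ t i then (1 : ENNReal) else 0) = 1 :=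
        Finset.prod_eq_one fun i _ => if_pos (hη i)
      rw [h3, one_mul]
    · push Not at hη
      obtain ⟨i, his, hit⟩ := hη
      have h2 : upd F η ⁻¹' (Set.pi (s : Set ℕ) t) = ∅ := by
        ext ω
        simp only [Set.mem_preimage, Set.mem_pi, Finset.mem_coe, Set.mem_empty_iff_false, iff_false]
        intro h
        have := h i his
        simp only [upd, i.2, dif_pos] at this
        exact hit this
      rw [h2, measure_empty]
      have h3 : ∏ i : F, (if (i : ℕ) ∈ s → η i ∈ t i then (1 : ENNReal) else 0) = 0 :=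
        Finset.prod_eq_zero (Finset.mem_univ i) (if_neg fun h => hit (h his))
      rw [h3, zero_mul]
  rw [Finset.sum_congr rfl fun η _ => h1 η, ← Finset.sum_mul]
  have h4 : ∑ η : F → Fin a, ∏ i : F, (ν i {η i} * (if (i : ℕ) ∈ s → η i ∈ t i then 1 else 0)) =
      ∏ i : F, ∑ d : Fin a, (ν i {d} * (if (i : ℕ) ∈ s → d ∈ t i then 1 else 0)) := by
    rw [Finset.prod_univ_sum, Fintype.piFinset_univ]
  rw [h4]
  have h5 : ∀ i : F, ∑ d : Fin a, (ν i {d} * (if (i : ℕ) ∈ s → d ∈ t i then 1 else 0)) =
      if (i : ℕ) ∈ s then ν i (t i) else 1 := by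
    intro i
    by_cases his : (i : ℕ) ∈ s
    · simp only [his, true_imp_iff, if_true]
      have h6 : ∀ d : Fin a, ν i {d} * (if d ∈ t i then (1 : ENNReal) else 0) =
          if d ∈ t i then ν i {d} else 0 := by
        intro d; split_ifs <;> simp
      rw [Finset.sum_congr rfl fun d _ => h6 d, ← Finset.sum_filter, sum_measure_singleton]
      congr 1
      ext d
      simp
    · simp only [his, false_imp_iff, if_true, if_false, mul_one]
      rw [sum_measure_singleton]
      simp
  rw [Finset.prod_congr rfl fun i _ => h5 i]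
  have h7 : ∏ i : F, (if (i : ℕ) ∈ s then ν i (t i) else 1) = ∏ i ∈ s ∩ F, ν i (t i) := by
    rw [Finset.prod_coe_sort F (fun i => if i ∈ s then ν i (t i) else 1), ← Finset.prod_filter]
    refine Finset.prod_congr ?_ fun _ _ => rfl
    ext i
    simp [and_comm]
  rw [h7]
  exact Finset.prod_inter_mul_prod_sdiff s F _

/-- the number represented by a sequence of digits -/
noncomputable def val (a : ℕ) (ω : ℕ → Fin a) : ℝ := ∑' k, ((ω k : ℕ) : ℝ) / (a : ℝ) ^ (k + 1)

lemma measure_le {a : ℕ} (ν : ℕ → Measure (Fin a)) [∀ k, IsProbabilityMeasure (ν k)]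
    (F : Finset ℕ) (A : Set (ℕ → Fin a)) (hA : MeasurableSet A) (C : ℕ) (W : ENNReal)
    (hW : ∀ η : F → Fin a, ∏ i : F, ν i {η i} ≤ W)
    (hC : ∀ ω, ∀ I : Finset (F → Fin a), (∀ η ∈ I, upd F η ω ∈ A) → I.card ≤ C) :
    Measure.infinitePi ν A ≤ C * W := by
  classical
  have h1 : Measure.infinitePi ν A =
      ∑ η : F → Fin a, (∏ i : F, ν i {η i}) * Measure.infinitePi ν (upd F η ⁻¹' A) := by
    conv_lhs => rw [← resample ν F]
    rw [Measure.finsetSum_apply]
    refine Finset.sum_congr rfl fun η _ => ?_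
    rw [Measure.smul_apply, Measure.map_apply (measurable_upd F η) hA, smul_eq_mul]
  have h2 : ∑ η : F → Fin a, Measure.infinitePi ν (upd F η ⁻¹' A) ≤ C := by
    have h3 : ∀ η : F → Fin a, Measure.infinitePi ν (upd F η ⁻¹' A) =
        ∫⁻ ω, (upd F η ⁻¹' A).indicator 1 ω ∂(Measure.infinitePi ν) := by
      intro η
      rw [lintegral_indicator_one (measurable_upd F η hA)]
    rw [Finset.sum_congr rfl fun η _ => h3 η, ← lintegral_finsetSum]
    · calc ∫⁻ ω, ∑ η : F → Fin a, (upd F η ⁻¹' A).indicator 1 ω ∂(Measure.infinitePi ν)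
          ≤ ∫⁻ ω, (C : ENNReal) ∂(Measure.infinitePi ν) := by
            refine lintegral_mono fun ω => ?_
            have h4 : ∑ η : F → Fin a, (upd F η ⁻¹' A).indicator (1 : (ℕ → Fin a) → ENNReal) ω =
                ((Finset.univ.filter fun η : F → Fin a => upd F η ω ∈ A).card : ENNReal) := by
              rw [Finset.card_filter]
              push_cast
              refine Finset.sum_congr rfl fun η _ => ?_
              simp only [Set.indicator, Set.mem_preimage, Pi.one_apply]
            simp only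
            rw [h4]
            exact_mod_cast hC ω _ fun η hη => (Finset.mem_filter.1 hη).2
        _ = C := by simp
    · intro η _
      exact measurable_one.indicator (measurable_upd F η hA)
  rw [h1]
  calc ∑ η : F → Fin a, (∏ i : F, ν i {η i}) * Measure.infinitePi ν (upd F η ⁻¹' A)
      ≤ ∑ η : F → Fin a, W * Measure.infinitePi ν (upd F η ⁻¹' A) := by
        refine Finset.sum_le_sum fun η _ => ?_
        gcongr
        exact hW η
    _ = W * ∑ η : F → Fin a, Measure.infinitePi ν (upd F η ⁻¹' A) := by rw [Finset.mul_sum]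
    _ ≤ W * C := by gcongr
    _ = C * W := mul_comm _ _

lemma summable_val {a : ℕ} (ha : 2 ≤ a) (ω : ℕ → Fin a) :
    Summable fun k => ((ω k : ℕ) : ℝ) / (a : ℝ) ^ (k + 1) := by
  have ha0 : (0 : ℝ) < a := by positivity
  have h1 : Summable fun k : ℕ => (1 / (a : ℝ)) ^ k :=
    summable_geometric_of_lt_one (by positivity) (by
      rw [div_lt_one ha0]; exact_mod_cast (by omega : 1 < a))
  refine Summable.of_nonneg_of_le (fun k => by positivity) (fun k => ?_) h1
  rw [div_pow, one_pow, div_le_div_iff₀ (by positivity) (by positivity), pow_succ, one_mul, mul_comm]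
  have : ((ω k : ℕ) : ℝ) ≤ a := by exact_mod_cast (ω k).2.le
  gcongr

lemma measurable_val {a : ℕ} (ha : 2 ≤ a) : Measurable (val a) := by
  have h1 : ∀ n : ℕ, Measurable fun ω : ℕ → Fin a =>
      ∑ k ∈ Finset.range n, ((ω k : ℕ) : ℝ) / (a : ℝ) ^ (k + 1) := by
    intro n
    refine Finset.measurable_sum _ fun k _ => ?_
    have : Measurable fun d : Fin a => ((d : ℕ) : ℝ) / (a : ℝ) ^ (k + 1) := measurable_of_finite _
    exact this.comp (measurable_pi_apply k)
  refine measurable_of_tendsto_metrizable h1 ?_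
  rw [tendsto_pi_nhds]
  intro ω
  exact (summable_val ha ω).hasSum.tendsto_sum_nat

lemma measurableSet_bad (b H : ℕ) (ε : ℝ) : MeasurableSet {x : ℝ | Bad b H ε x} := by
  have h1 : {x : ℝ | Bad b H ε x} = ⋃ M₀ : ℕ, ⋂ M : ℕ, ⋂ _ : M₀ ≤ M,
      ⋃ h ∈ Finset.Icc 1 H, {x : ℝ | ε * M ≤ ‖S b M (h * x)‖} := by
    ext x
    simp [Bad]
  rw [h1]
  refine MeasurableSet.iUnion fun M₀ => MeasurableSet.iInter fun M => MeasurableSet.iInter fun _ =>
    Finset.measurableSet_biUnion _ fun h _ => ?_
  refine measurableSet_le measurable_const ?_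
  refine Continuous.measurable ?_
  unfold S e
  fun_prop

end Pool.Agent.X101.SD
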