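import Mathlib
import Pool.Agent.X101.SD.Prob

set_option autoImplicit false

open MeasureTheory

namespace Pool.Agent.X101.SD

lemma val_sub {a : ℕ} (ha : 2 ≤ a) (F : Finset ℕ) (η η' : F → Fin a) (ω : ℕ → Fin a) :
    val a (upd F η ω) - val a (upd F η' ω) =
      ∑ i : F, (((η i : ℕ) : ℝ) - ((η' i : ℕ) : ℝ)) / (a : ℝ) ^ ((i : ℕ) + 1) := by
  unfold val
  rw [← (summable_val ha _).tsum_sub (summable_val ha _)]
  rw [tsum_eq_sum (s := F)]
  · rw [← Finset.sum_coe_sort F]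
    refine Finset.sum_congr rfl fun i _ => ?_
    simp only [upd, i.2, dif_pos]
    ring
  · intro i hi
    simp [upd, hi]

lemma val_sub_eq {a : ℕ} (ha : 2 ≤ a) {p : ℕ} (hp : p.Prime) (hpa : p ∣ a) (F : Finset ℕ) {K : ℕ}
    (hK : ∀ i ∈ F, K ≤ i) (hgap : ∀ i ∈ F, ∀ j ∈ F, i < j → i + a ≤ j)
    (η η' : F → Fin a) (hne : η ≠ η') (ω : ℕ → Fin a) :
    ∃ N ≥ K, ∃ m : ℤ, ¬ (p : ℤ) ^ a ∣ m ∧
      val a (upd F η ω) - val a (upd F η' ω) = m / (a : ℝ) ^ N := by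
  classical
  have ha0 : (a : ℝ) ≠ 0 := by positivity
  set D : Finset F := Finset.univ.filter fun i => η i ≠ η' i with hD
  have hDne : D.Nonempty := by
    obtain ⟨i, hi⟩ := Function.ne_iff.1 hne
    exact ⟨i, Finset.mem_filter.2 ⟨Finset.mem_univ _, hi⟩⟩
  obtain ⟨j, hjD, hjmax⟩ := Finset.exists_max_image D (fun i => (i : ℕ)) hDne
  have hjne : η j ≠ η' j := (Finset.mem_filter.1 hjD).2
  set m : ℤ := ∑ i ∈ D, (((η i : ℕ) : ℤ) - ((η' i : ℕ) : ℤ)) * (a : ℤ) ^ ((j : ℕ) - i) with hm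
  refine ⟨(j : ℕ) + 1, by have := hK j j.2; omega, m, ?_, ?_⟩
  · have h1 : m = (((η j : ℕ) : ℤ) - ((η' j : ℕ) : ℤ)) +
        ∑ i ∈ D.erase j, (((η i : ℕ) : ℤ) - ((η' i : ℕ) : ℤ)) * (a : ℤ) ^ ((j : ℕ) - i) := by
      rw [hm, ← Finset.add_sum_erase D _ hjD]
      simp
    have h2 : (p : ℤ) ^ a ∣ ∑ i ∈ D.erase j,
        (((η i : ℕ) : ℤ) - ((η' i : ℕ) : ℤ)) * (a : ℤ) ^ ((j : ℕ) - i) := by
      refine Finset.dvd_sum fun i hi => ?_
      refine Dvd.dvd.mul_left ?_ _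
      have h3 : (i : ℕ) < j := by
        have h4 := hjmax i (Finset.mem_of_mem_erase hi)
        have h5 : (i : ℕ) ≠ j := fun h => Finset.ne_of_mem_erase hi (Subtype.ext h)
        omega
      have h4 := hgap i i.2 j j.2 h3
      have h5 : (p : ℤ) ∣ a := by exact_mod_cast hpa
      exact (pow_dvd_pow_of_dvd h5 a).trans (pow_dvd_pow _ (by omega))
    intro h3
    rw [h1] at h3
    have h4 : (p : ℤ) ^ a ∣ ((η j : ℕ) : ℤ) - ((η' j : ℕ) : ℤ) := (dvd_add_left h2).1 h3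
    have h5 : a < p ^ a :=
      lt_of_lt_of_le (Nat.lt_two_pow_self) (Nat.pow_le_pow_left hp.two_le a)
    have h6 : (a : ℤ) < (p : ℤ) ^ a := by exact_mod_cast h5
    have h7 : ((η j : ℕ) : ℤ) - ((η' j : ℕ) : ℤ) = 0 := by
      refine Int.eq_zero_of_abs_lt_dvd h4 ?_
      have h8 := (η j).2
      have h9 := (η' j).2
      rw [abs_lt]
      constructor <;> omega
    apply hjne
    apply Fin.ext
    omega
  · rw [val_sub ha]
    have h1 : ∑ i : F, (((η i : ℕ) : ℝ) - ((η' i : ℕ) : ℝ)) / (a : ℝ) ^ ((i : ℕ) + 1) =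
        ∑ i ∈ D, (((η i : ℕ) : ℝ) - ((η' i : ℕ) : ℝ)) / (a : ℝ) ^ ((i : ℕ) + 1) := by
      rw [hD, Finset.sum_filter]
      refine Finset.sum_congr rfl fun i _ => ?_
      by_cases h : η i = η' i
      · simp [h]
      · simp [h]
    rw [h1, hm]
    push_cast
    rw [Finset.sum_div]
    refine Finset.sum_congr rfl fun i hi => ?_
    have h3 : (i : ℕ) ≤ j := hjmax i hi
    have h4 : (a : ℝ) ^ ((j : ℕ) + 1) = (a : ℝ) ^ ((i : ℕ) + 1) * (a : ℝ) ^ ((j : ℕ) - i) := by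
      rw [← pow_add]; congr 1; omega
    rw [h4]
    field_simp

lemma exists_F (t : ℕ → ℝ) (ht0 : ∀ i, 0 < t i) (ht1 : ∀ i, t i ≤ 1)
    (hsmall : ∀ c : ℝ, 0 < c → ∃ s : Finset ℕ, ∏ i ∈ s, t i < c) {g : ℕ} (hg : 0 < g) (K : ℕ)
    {c : ℝ} (hc : 0 < c) : ∃ F : Finset ℕ, (∀ i ∈ F, K ≤ i) ∧
      (∀ i ∈ F, ∀ j ∈ F, i < j → i + g ≤ j) ∧ ∏ i ∈ F, t i < c := by
  by_contra hcon
  push Not at hcon
  have hcK : 0 < ∏ i ∈ Finset.range K, t i := Finset.prod_pos fun i _ => ht0 i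
  obtain ⟨s, hs⟩ := hsmall ((∏ i ∈ Finset.range K, t i) * c ^ g) (by positivity)
  have h1 : ∏ i ∈ s.filter (fun i => K ≤ i), t i ≥ c ^ g := by
    have h2 : ∀ i ∈ s.filter (fun i => K ≤ i), i % g ∈ Finset.range g := fun i _ =>
      Finset.mem_range.2 (Nat.mod_lt _ hg)
    rw [← Finset.prod_fiberwise_of_maps_to h2]
    have h3 : ∏ _r ∈ Finset.range g, c ≤ ∏ r ∈ Finset.range g,
        ∏ i ∈ (s.filter (fun i => K ≤ i)).filter (fun i => i % g = r), t i := by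
      refine Finset.prod_le_prod (fun _ _ => hc.le) fun r _ => ?_
      refine hcon _ (fun i hi => ?_) fun i hi j hj hij => ?_
      · simp only [Finset.mem_filter] at hi
        exact hi.1.2
      · simp only [Finset.mem_filter] at hi hj
        have h4 : g ∣ j - i := (Nat.modEq_iff_dvd' hij.le).1 (hi.2.trans hj.2.symm)
        have := Nat.le_of_dvd (by omega) h4
        omega
    rw [Finset.prod_const, Finset.card_range] at h3
    exact h3
  have h2 : ∏ i ∈ s.filter (fun i => ¬ K ≤ i), t i ≥ ∏ i ∈ Finset.range K, t i := by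
    refine Finset.prod_le_prod_of_subset_of_le_one ?_ (fun i _ => (ht0 i).le) fun i _ _ => ht1 i
    intro i hi
    simp only [Finset.mem_filter] at hi
    exact Finset.mem_range.2 (by omega)
  rw [← Finset.prod_filter_mul_prod_filter_not s (fun i => K ≤ i)] at hs
  have h3 : (∏ i ∈ Finset.range K, t i) * c ^ g ≤
      (∏ i ∈ s.filter (fun i => K ≤ i), t i) * ∏ i ∈ s.filter (fun i => ¬ K ≤ i), t i := by
    rw [mul_comm]
    exact mul_le_mul h1 h2 hcK.le (Finset.prod_nonneg fun i _ => (ht0 i).le)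
  linarith

/-- **the main probabilistic statement for one base and one level** -/
theorem ae_not_bad {a b p : ℕ} (ha : 2 ≤ a) (hb : 2 ≤ b) (hp : p.Prime) (hpa : p ∣ a)
    (hpb : ¬ p ∣ b) (H : ℕ) {ε : ℝ} (hε : 0 < ε) (x₀ : ℝ)
    (ν : ℕ → Measure (Fin a)) [∀ k, IsProbabilityMeasure (ν k)]
    (hat : ∀ ω, Measure.infinitePi ν {ω} = 0) :
    ∀ᵐ ω ∂(Measure.infinitePi ν), ¬ Bad b H ε (x₀ + val a ω) := by
  classical
  have : NeZero a := ⟨by omega⟩
  -- the most probable digits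
  have hmax : ∀ i : ℕ, ∃ d : Fin a, ∀ d' : Fin a, ν i {d'} ≤ ν i {d} := fun i =>
    Finite.exists_max fun d => ν i {d}
  choose d hd using hmax
  set t : ℕ → ℝ := fun i => (ν i {d i}).toReal with ht
  have htpos : ∀ i, ν i {d i} ≠ 0 := by
    intro i h0
    have h1 : ν i Set.univ = 0 := by
      rw [← Finset.coe_univ, ← sum_measure_singleton]
      refine Finset.sum_eq_zero fun d' _ => ?_
      exact le_antisymm (h0 ▸ hd i d') zero_le
    rw [measure_univ] at h1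
    exact one_ne_zero h1
  have ht0 : ∀ i, 0 < t i := fun i => ENNReal.toReal_pos (htpos i) (measure_ne_top _ _)
  have ht1 : ∀ i, t i ≤ 1 := fun i => by
    have := ENNReal.toReal_mono ENNReal.one_ne_top (prob_le_one (μ := ν i) (s := {d i}))
    simpa using this
  have hprod : ∀ F : Finset ℕ, (∏ i ∈ F, ν i {d i}).toReal = ∏ i ∈ F, t i := fun F =>
    ENNReal.toReal_prod _ _
  have hsmall : ∀ c : ℝ, 0 < c → ∃ s : Finset ℕ, ∏ i ∈ s, t i < c := by
    intro c hc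
    have h1 := hat d
    rw [Measure.infinitePi_singleton, ENNReal.tprod_eq_iInf_prod (by simp [prob_le_one])] at h1
    have h2 : (⨅ s : Finset ℕ, ∏ i ∈ s, ν i {d i}) < ENNReal.ofReal c := by
      rw [h1]; simpa using hc
    obtain ⟨s, hs⟩ := iInf_lt_iff.1 h2
    refine ⟨s, ?_⟩
    rw [← hprod]
    exact (ENNReal.lt_ofReal_iff_toReal_lt (ne_top_of_lt hs)).1 hs
  obtain ⟨N₀, hN₀⟩ := orth_frac (a := a) hp hb hpb (by omega) hpa H a
  set A : Set (ℕ → Fin a) := {ω | Bad b H ε (x₀ + val a ω)} with hA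
  have hAm : MeasurableSet A :=
    (measurable_const.add (measurable_val ha)) (measurableSet_bad b H ε)
  set C : ℕ := ⌊(H : ℝ) / ε ^ 2⌋₊ with hC
  have key : ∀ c : ℝ, 0 < c → Measure.infinitePi ν A ≤ C * ENNReal.ofReal c := by
    intro c hc
    obtain ⟨F, hF1, hF2, hF3⟩ := exists_F t ht0 ht1 hsmall (by omega : 0 < a) N₀ hc
    refine measure_le ν F A hAm C _ (fun η => ?_) fun ω I hI => ?_
    · have h1 : ∏ i : F, ν i {η i} ≤ ∏ i : F, ν i {d i} :=
        Finset.prod_le_prod' fun i _ => hd i (η i)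
      refine h1.trans ?_
      rw [Finset.prod_coe_sort F (fun i => ν i {d i})]
      have h2 : ∏ i ∈ F, ν i {d i} ≠ ⊤ := ENNReal.prod_ne_top fun i _ => measure_ne_top _ _
      rw [← ENNReal.ofReal_toReal h2, hprod]
      exact ENNReal.ofReal_le_ofReal hF3.le
    · have h1 := count b H ε hε.le I (fun η => x₀ + val a (upd F η ω)) (fun η hη => hI η hη)
        (by
          intro η _ η' _ hne h hh1 hh2
          obtain ⟨N, hN, m, hm, hval⟩ := val_sub_eq ha hp hpa F hF1 hF2 η η' hne ω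
          have h2 : x₀ + val a (upd F η ω) - (x₀ + val a (upd F η' ω)) = m / (a : ℝ) ^ N := by
            rw [← hval]; ring
          rw [h2]
          exact hN₀ N hN m hm h hh1 hh2)
      rw [hC, Nat.le_floor_iff (by positivity), le_div_iff₀ (by positivity)]
      exact h1
  have hzero : Measure.infinitePi ν A = 0 := by
    refine le_antisymm (ENNReal.le_of_forall_pos_le_add fun δ hδ _ => ?_) zero_le
    rw [zero_add]
    have hδ' : (0 : ℝ) < δ := hδ
    refine (key (δ / (C + 1)) (by positivity)).trans ?_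
    have h1 : (C : ENNReal) = ENNReal.ofReal C := by simp
    rw [h1, ← ENNReal.ofReal_mul (by positivity)]
    have h2 : (δ : ENNReal) = ENNReal.ofReal (δ : ℝ) := by simp
    rw [h2]
    refine ENNReal.ofReal_le_ofReal ?_
    have h3 : (0 : ℝ) < C + 1 := by positivity
    rw [mul_div_assoc', div_le_iff₀ h3]
    nlinarith
  rw [ae_iff]
  simpa using hzero

theorem ae_main {a : ℕ} (ha : 2 ≤ a) (x₀ : ℝ)
    (ν : ℕ → Measure (Fin a)) [∀ k, IsProbabilityMeasure (ν k)]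
    (hat : ∀ ω, Measure.infinitePi ν {ω} = 0) :
    ∀ᵐ ω ∂(Measure.infinitePi ν), ∀ b : ℕ, 2 ≤ b → (∃ p : ℕ, p.Prime ∧ p ∣ a ∧ ¬ p ∣ b) →
      ∀ (H : ℕ) (ε : ℝ), 0 < ε → ¬ Bad b H ε (x₀ + val a ω) := by
  have h1 : ∀ᵐ ω ∂(Measure.infinitePi ν), ∀ b : ℕ, ∀ H k : ℕ, 2 ≤ b →
      (∃ p : ℕ, p.Prime ∧ p ∣ a ∧ ¬ p ∣ b) → ¬ Bad b H (1 / ((k : ℝ) + 1)) (x₀ + val a ω) := by
    rw [ae_all_iff]; intro b
    rw [ae_all_iff]; intro H
    rw [ae_all_iff]; intro k
    by_cases hb : 2 ≤ b ∧ (∃ p : ℕ, p.Prime ∧ p ∣ a ∧ ¬ p ∣ b)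
    · obtain ⟨hb, p, hp, hpa, hpb⟩ := hb
      filter_upwards [ae_not_bad ha hb hp hpa hpb H (ε := 1 / ((k : ℝ) + 1)) (by positivity) x₀ ν hat]
        with ω hω _ _
      exact hω
    · exact Filter.Eventually.of_forall fun ω h1 h2 => absurd ⟨h1, h2⟩ hb
  filter_upwards [h1] with ω hω b hb hp H ε hε hbad
  obtain ⟨k, hk⟩ := exists_nat_one_div_lt hε
  exact hω b H k hb hp (hbad.mono hk.le)

end Pool.Agent.X101.SD
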