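import Mathlib
import Pool.Agent.X101.SD.Main

set_option autoImplicit false

open MeasureTheory

namespace Pool.Agent.X101.SD

lemma orth_q {p b a : ℕ} (hp : p.Prime) (hb : 2 ≤ b) (hpb : ¬ p ∣ b) (ha : 0 < a) (H : ℕ) :
    ∃ N₀ : ℕ, ∀ q : ℚ, (∀ l : ℕ, l.Prime → l ∣ q.den → l ∣ a) → p ^ N₀ ∣ q.den →
      ∀ h : ℕ, 1 ≤ h → h ≤ H → ∃ B : ℝ, ∀ M : ℕ, ‖S b M (h * (q : ℝ))‖ ≤ B := by
  obtain ⟨L₁, hL₁⟩ := orth (a := a) hp hb hpb ha
  refine ⟨L₁ + H + 1, fun q hq hpq h h1 h2 => ?_⟩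
  have hp0 : (p : ℝ) ≠ 0 := by exact_mod_cast hp.ne_zero
  obtain ⟨L, D, hD, hLD⟩ := Nat.exists_eq_pow_mul_and_not_dvd q.den_ne_zero p hp.ne_one
  have hD0 : 0 < D := Nat.pos_of_ne_zero (by rintro rfl; simp at hD)
  have hLL : L₁ + H + 1 ≤ L := by
    have h3 : (p ^ (L₁ + H + 1)).Coprime D :=
      ((Nat.Prime.coprime_iff_not_dvd hp).2 hD).pow_left _
    rw [hLD] at hpq
    have h4 := h3.dvd_of_dvd_mul_right hpq
    exact (Nat.pow_dvd_pow_iff_le_right hp.one_lt).1 h4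
  have hpden : p ∣ q.den := (dvd_pow_self p (by omega)).trans hpq
  have hnum : ¬ (p : ℤ) ∣ q.num := by
    intro h3
    have h4 : p ∣ q.num.natAbs := Int.natCast_dvd.1 h3
    have h5 := Nat.dvd_gcd h4 hpden
    rw [q.reduced] at h5
    exact hp.one_lt.ne' (Nat.dvd_one.1 h5)
  obtain ⟨w, h', hh', hhh⟩ := Nat.exists_eq_pow_mul_and_not_dvd (n := h) (by omega) p hp.ne_one
  have hw : w ≤ H := by
    have h3 : w < p ^ w := Nat.lt_pow_self hp.one_lt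
    have h4 : p ^ w ∣ h := ⟨h', hhh⟩
    have h5 := Nat.le_of_dvd (by omega) h4
    omega
  obtain ⟨B, hB⟩ := hL₁ (L - w) (by omega) D hD0 hD
    (fun l hl hld => hq l hl (hld.trans ⟨p ^ L, by rw [hLD]; ring⟩)) (h' * q.num)
    (fun hd => by
      rcases (Nat.prime_iff_prime_int.1 hp).dvd_or_dvd hd with h3 | h3
      · exact hh' (by exact_mod_cast h3)
      · exact hnum h3)
  refine ⟨B, fun M => ?_⟩
  convert hB M using 3
  have h4 : (h : ℝ) = (p : ℝ) ^ w * h' := by exact_mod_cast congrArg (Nat.cast (R := ℝ)) hhh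
  have h5 : (q : ℝ) = q.num / q.den := by exact_mod_cast (Rat.num_div_den q).symm
  have h6 : (p : ℝ) ^ L = (p : ℝ) ^ (L - w) * (p : ℝ) ^ w := by
    rw [← pow_add]; congr 1; omega
  have hDR : (D : ℝ) ≠ 0 := by exact_mod_cast hD0.ne'
  rw [h5, hLD, h4]
  push_cast
  rw [h6]
  field_simp

/-- a criterion for measures -/
theorem criterion {a p : ℕ} (ha : 0 < a) (hp : p.Prime) (μ : Measure ℝ)
    (hμ : ∀ A : Set ℝ, MeasurableSet A → μ A ≠ 0 → ∀ N : ℕ, ∃ R : Finset ℝ, (R : Set ℝ) ⊆ A ∧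
      N ≤ R.card ∧ ∀ r ∈ R, ∀ r' ∈ R, r ≠ r' → ∃ q : ℚ, r - r' = q ∧ p ^ N ∣ q.den ∧
        ∀ l : ℕ, l.Prime → l ∣ q.den → l ∣ a) :
    ∀ᵐ x ∂μ, ∀ b : ℕ, 2 ≤ b → ¬ p ∣ b → ∀ (H : ℕ) (ε : ℝ), 0 < ε → ¬ Bad b H ε x := by
  have h1 : ∀ᵐ x ∂μ, ∀ b : ℕ, ∀ H k : ℕ, 2 ≤ b → ¬ p ∣ b → ¬ Bad b H (1 / ((k : ℝ) + 1)) x := by
    rw [ae_all_iff]; intro b
    rw [ae_all_iff]; intro H
    rw [ae_all_iff]; intro k
    by_cases hb : 2 ≤ b ∧ ¬ p ∣ b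
    · obtain ⟨hb, hpb⟩ := hb
      set ε : ℝ := 1 / ((k : ℝ) + 1) with hε
      have hε0 : 0 < ε := by positivity
      have h2 : μ {x | Bad b H ε x} = 0 := by
        by_contra hne
        obtain ⟨N₀, hN₀⟩ := orth_q (a := a) hp hb hpb ha H
        obtain ⟨R, hRA, hRc, hR⟩ := hμ _ (measurableSet_bad b H ε) hne
          (max N₀ (⌊(H : ℝ) / ε ^ 2⌋₊ + 1))
        have h3 := count b H ε hε0.le R (fun r => r) (fun r hr => hRA hr) (by
          intro r hr r' hr' hrr h hh1 hh2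
          obtain ⟨q, hq1, hq2, hq3⟩ := hR r hr r' hr' hrr
          rw [hq1]
          exact hN₀ q hq3 ((pow_dvd_pow p (le_max_left _ _)).trans hq2) h hh1 hh2)
        rw [← le_div_iff₀ (by positivity)] at h3
        have h4 : R.card ≤ ⌊(H : ℝ) / ε ^ 2⌋₊ := Nat.le_floor h3
        have h5 := (le_max_right N₀ (⌊(H : ℝ) / ε ^ 2⌋₊ + 1)).trans hRc
        omega
      filter_upwards [measure_eq_zero_iff_ae_notMem.1 h2] with x hx _ _
      exact hx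
    · exact Filter.Eventually.of_forall fun x h1 h2 => absurd ⟨h1, h2⟩ hb
  filter_upwards [h1] with x hx b hb hp H ε hε hbad
  obtain ⟨k, hk⟩ := exists_nat_one_div_lt hε
  exact hx b H k hb hp (hbad.mono hk.le)

end Pool.Agent.X101.SD
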