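import Mathlib
import Pool.Agent.X101.SD.Dense

set_option autoImplicit false

open Set Filter Topology

open scoped Pointwise

namespace Pool.Agent.X101.SD

/-- the gaps between the nonzero terms tend to infinity -/
def Sparse (d : ℕ → ℤ) : Prop :=
  ∀ g : ℕ, ∃ K : ℕ, ∀ i j : ℕ, K ≤ i → i < j → d i ≠ 0 → d j ≠ 0 → i + g ≤ j

/-- possible limits of the perturbation -/
def PP (a D : ℕ) : Set ℝ :=
  ⋃ k ∈ Finset.Icc (-(D : ℤ)) D, insert 0 (range fun i : ℕ => (k : ℝ) / (a : ℝ) ^ i)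

lemma compact_PP {a : ℕ} (ha : 2 ≤ a) (D : ℕ) : IsCompact (PP a D) := by
  unfold PP
  refine Finset.isCompact_biUnion _ fun k _ => ?_
  refine Filter.Tendsto.isCompact_insert_range ?_
  have h1 : Tendsto (fun i : ℕ => (k : ℝ) * (1 / (a : ℝ)) ^ i) atTop (𝓝 (k * 0)) := by
    refine Tendsto.const_mul _ (tendsto_pow_atTop_nhds_zero_of_lt_one (by positivity) ?_)
    rw [div_lt_one (by positivity)]
    exact_mod_cast (by omega : 1 < a)
  rw [mul_zero] at h1
  refine h1.congr fun i => ?_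
  rw [div_pow, one_pow]; ring

lemma countable_PP (a D : ℕ) : (PP a D).Countable := by
  unfold PP
  exact (Finset.countable_toSet _).biUnion fun k _ => (countable_range _).insert _

lemma mem_PP {a D : ℕ} {k : ℤ} (hk : |k| ≤ D) (i : ℕ) : (k : ℝ) / (a : ℝ) ^ i ∈ PP a D := by
  unfold PP
  rw [abs_le] at hk
  refine mem_biUnion (Finset.mem_coe.2 (Finset.mem_Icc.2 ⟨hk.1, hk.2⟩)) (mem_insert_of_mem _ ⟨i, rfl⟩)

lemma summable_d {a : ℕ} (ha : 2 ≤ a) (d : ℕ → ℤ) (D : ℕ) (hD : ∀ i, |d i| ≤ D) (m : ℕ) :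
    Summable fun i => (d (i + m) : ℝ) / (a : ℝ) ^ (i + 1) := by
  have ha0 : (0 : ℝ) < a := by positivity
  have h1 : Summable fun k : ℕ => (D : ℝ) * (1 / (a : ℝ)) ^ k :=
    (summable_geometric_of_lt_one (by positivity) (by
      rw [div_lt_one ha0]; exact_mod_cast (by omega : 1 < a))).mul_left _
  refine Summable.of_norm_bounded h1 fun k => ?_
  have h2 : |(d (k + m) : ℝ)| ≤ D := by exact_mod_cast hD (k + m)
  rw [Real.norm_eq_abs, abs_div, abs_of_pos (by positivity : (0 : ℝ) < (a : ℝ) ^ (k + 1)), div_pow,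
    one_pow, mul_one_div]
  refine div_le_div₀ (by positivity) h2 (by positivity) ?_
  exact pow_le_pow_right₀ (by exact_mod_cast (by omega : 1 ≤ a)) (by omega)

lemma approx {a : ℕ} (ha : 2 ≤ a) (d : ℕ → ℤ) (D : ℕ) (hD : ∀ i, |d i| ≤ D) (hs : Sparse d)
    {η : ℝ} (hη : 0 < η) :
    ∃ N : ℕ, ∀ m ≥ N, ∃ w ∈ PP a D, ∃ l : ℤ,
      |(a : ℝ) ^ m * (∑' i, (d i : ℝ) / (a : ℝ) ^ (i + 1)) - w - l| ≤ η := by
  have ha0 : (0 : ℝ) < a := by positivity
  have ha1 : (1 : ℝ) < a := by exact_mod_cast (by omega : 1 < a)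
  obtain ⟨g, hg⟩ : ∃ g : ℕ, (D : ℝ) / (a : ℝ) ^ g ≤ η := by
    obtain ⟨g, hg⟩ := exists_pow_lt_of_lt_one (x := η / (D + 1)) (by positivity)
      (by rw [div_lt_one ha0]; exact ha1 : 1 / (a : ℝ) < 1)
    refine ⟨g, ?_⟩
    rw [div_pow, one_pow, div_lt_div_iff₀ (by positivity) (by positivity)] at hg
    rw [div_le_iff₀ (by positivity)]
    linarith
  obtain ⟨N, hN⟩ := hs g
  refine ⟨N, fun m hm => ?_⟩
  have hsum := summable_d ha d D hD 0
  simp only [add_zero] at hsum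
  have hsum' := summable_d ha d D hD m
  -- integer part
  have h1 : (a : ℝ) ^ m * (∑' i, (d i : ℝ) / (a : ℝ) ^ (i + 1)) =
      ((∑ i ∈ Finset.range m, d i * (a : ℤ) ^ (m - i - 1) : ℤ) : ℝ) +
        ∑' i, (d (i + m) : ℝ) / (a : ℝ) ^ (i + 1) := by
    rw [← hsum.sum_add_tsum_nat_add m, mul_add]
    congr 1
    · rw [Finset.mul_sum]
      push_cast
      refine Finset.sum_congr rfl fun i hi => ?_
      rw [Finset.mem_range] at hi
      have : (a : ℝ) ^ m = (a : ℝ) ^ (m - i - 1) * (a : ℝ) ^ (i + 1) := by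
        rw [← pow_add]; congr 1; omega
      rw [this]
      field_simp
    · rw [← tsum_mul_left]
      refine tsum_congr fun i => ?_
      have : (a : ℝ) ^ (i + m + 1) = (a : ℝ) ^ m * (a : ℝ) ^ (i + 1) := by
        rw [← pow_add]; congr 1; omega
      rw [this]
      field_simp
  by_cases hex : ∃ i, d (i + m) ≠ 0
  swap
  · push Not at hex
    refine ⟨((0 : ℤ) : ℝ) / (a : ℝ) ^ 0, mem_PP (by simp) 0,
      ∑ i ∈ Finset.range m, d i * (a : ℤ) ^ (m - i - 1), ?_⟩
    rw [h1]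
    simp only [hex]
    simp
    exact hη.le
  · classical
    set i₀ := Nat.find hex with hi₀
    have hi₀1 : d (i₀ + m) ≠ 0 := Nat.find_spec hex
    have hi₀2 : ∀ i < i₀, d (i + m) = 0 := fun i hi => not_not.1 (Nat.find_min hex hi)
    refine ⟨(d (i₀ + m) : ℝ) / (a : ℝ) ^ (i₀ + 1), mem_PP (hD _) _,
      ∑ i ∈ Finset.range m, d i * (a : ℤ) ^ (m - i - 1), ?_⟩
    rw [h1]
    set u : ℕ → ℝ := fun i => if i = i₀ then 0 else (d (i + m) : ℝ) / (a : ℝ) ^ (i + 1) with hu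
    have hsu : Summable u := by
      refine Summable.of_norm_bounded hsum'.norm fun i => ?_
      simp only [hu]
      split_ifs with h
      · rw [norm_zero]; exact norm_nonneg _
      · exact le_rfl
    have h2 : ∑' i, (d (i + m) : ℝ) / (a : ℝ) ^ (i + 1) =
        (d (i₀ + m) : ℝ) / (a : ℝ) ^ (i₀ + 1) + ∑' i, u i := by
      rw [hsum'.tsum_eq_add_tsum_ite i₀]
    have hu0 : ∀ i < i₀ + g, u i = 0 := by
      intro i hi
      simp only [hu]
      split_ifs with h
      · rfl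
      · rcases lt_or_gt_of_ne h with h3 | h3
        · rw [hi₀2 i h3]; simp
        · by_cases h4 : d (i + m) = 0
          · rw [h4]; simp
          · have := hN (i₀ + m) (i + m) (by omega) (by omega) hi₀1 h4
            omega
    have h3 : ∑' i, u i = ∑' i, u (i + g) := by
      rw [← hsu.sum_add_tsum_nat_add g, Finset.sum_eq_zero, zero_add]
      intro i hi
      rw [Finset.mem_range] at hi
      exact hu0 i (by omega)
    have h4 : ∀ i, ‖u (i + g)‖ ≤ (D : ℝ) / (a : ℝ) ^ (g + 1) * (1 / (a : ℝ)) ^ i := by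
      intro i
      simp only [hu]
      split_ifs with h
      · rw [norm_zero]; positivity
      · have h2 : |(d (i + g + m) : ℝ)| ≤ D := by exact_mod_cast hD (i + g + m)
        rw [Real.norm_eq_abs, abs_div, abs_of_pos (by positivity : (0 : ℝ) < (a : ℝ) ^ (i + g + 1)),
          div_pow, one_pow, div_mul_div_comm, mul_one, ← pow_add]
        have : g + 1 + i = i + g + 1 := by ring
        rw [this]
        gcongr
    have h5 := tsum_of_norm_bounded
      ((hasSum_geometric_of_lt_one (r := 1 / (a : ℝ)) (by positivity)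
        (by rw [div_lt_one ha0]; exact ha1)).mul_left ((D : ℝ) / (a : ℝ) ^ (g + 1))) h4
    rw [← h3] at h5
    have h6 : (D : ℝ) / (a : ℝ) ^ (g + 1) * (1 - 1 / (a : ℝ))⁻¹ ≤ (D : ℝ) / (a : ℝ) ^ g := by
      have h7 : (1 - 1 / (a : ℝ))⁻¹ ≤ a := by
        have h8 : (0 : ℝ) < a - 1 := by linarith
        have h9 : (1 - 1 / (a : ℝ))⁻¹ = a / (a - 1) := by
          rw [one_sub_div ha0.ne', inv_div]
        rw [h9, div_le_iff₀ h8]
        have h10 : (2 : ℝ) ≤ a := by exact_mod_cast ha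
        nlinarith
      calc (D : ℝ) / (a : ℝ) ^ (g + 1) * (1 - 1 / (a : ℝ))⁻¹
          ≤ (D : ℝ) / (a : ℝ) ^ (g + 1) * a := by gcongr
        _ = (D : ℝ) / (a : ℝ) ^ g := by
          rw [pow_succ]; field_simp
    rw [h2]
    have h7 : ((∑ i ∈ Finset.range m, d i * (a : ℤ) ^ (m - i - 1) : ℤ) : ℝ) +
        ((d (i₀ + m) : ℝ) / (a : ℝ) ^ (i₀ + 1) + ∑' i, u i) - (d (i₀ + m) : ℝ) / (a : ℝ) ^ (i₀ + 1) -
        ((∑ i ∈ Finset.range m, d i * (a : ℤ) ^ (m - i - 1) : ℤ) : ℝ) = ∑' i, u i := by ring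
    rw [h7, ← Real.norm_eq_abs]
    exact h5.trans (h6.trans hg)

theorem dimH_sparse_le {a : ℕ} (ha : 2 ≤ a) (x : ℝ) (d : ℕ → ℤ) (D : ℕ) (hD : ∀ i, |d i| ≤ D)
    (hs : Sparse d) :
    dimH (Orb a (x + ∑' i, (d i : ℝ) / (a : ℝ) ^ (i + 1))) ≤ dimH (Orb a x) := by
  set c : ℝ := ∑' i, (d i : ℝ) / (a : ℝ) ^ (i + 1) with hc
  set v : ℕ → ℝ := fun n => Int.fract ((a : ℝ) ^ n * (x + c)) with hv
  set J : Set ℝ := (fun k : ℤ => (k : ℝ)) '' Set.Icc (-((D : ℤ) + 3)) ((D : ℤ) + 3) with hJ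
  have hJfin : J.Finite := (Set.finite_Icc _ _).image _
  have hΛc : IsCompact (Orb a x) :=
    isCompact_Icc.of_isClosed_subset isClosed_closure (orb_subset a x)
  set Kt : Set ℝ := Orb a x + (PP a D + J) with hKt
  have hKc : IsCompact Kt := hΛc.add ((compact_PP ha D).add hJfin.isCompact)
  have hnear : ∀ η : ℝ, 0 < η → η ≤ 1 → ∃ N : ℕ, ∀ m ≥ N, ∃ k ∈ Kt, |v m - k| ≤ η := by
    intro η hη hη1
    obtain ⟨N, hN⟩ := approx ha d D hD hs hη
    refine ⟨N, fun m hm => ?_⟩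
    obtain ⟨w, hw, l, hl⟩ := hN m hm
    rw [← hc] at hl
    set l' : ℤ := l + ⌊(a : ℝ) ^ m * x⌋ - ⌊(a : ℝ) ^ m * (x + c)⌋ with hl'
    have h1 : v m - (Int.fract ((a : ℝ) ^ m * x) + (w + l')) = (a : ℝ) ^ m * c - w - l := by
      simp only [hv, Int.fract, hl']
      push_cast
      ring
    refine ⟨Int.fract ((a : ℝ) ^ m * x) + (w + l'), ?_, by rw [h1]; exact hl⟩
    refine add_mem_add (subset_closure ⟨m, rfl⟩) (add_mem_add hw ⟨l', ?_, rfl⟩)
    have h2 : |w| ≤ D := by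
      unfold PP at hw
      simp only [mem_iUnion, exists_prop] at hw
      obtain ⟨k, hk, hw⟩ := hw
      rw [Finset.mem_Icc] at hk
      rcases hw with hw | ⟨i, hw⟩
      · rw [hw]; simp
      · have hw' : w = (k : ℝ) / (a : ℝ) ^ i := hw.symm
        rw [hw', abs_div, abs_of_pos (by positivity : (0 : ℝ) < (a : ℝ) ^ i)]
        refine (div_le_self (abs_nonneg _) (one_le_pow₀ (by exact_mod_cast (by omega : 1 ≤ a)))).trans ?_
        have : |k| ≤ D := abs_le.2 hk
        exact_mod_cast this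
    have h3 : (l' : ℝ) = v m - Int.fract ((a : ℝ) ^ m * x) - w - ((a : ℝ) ^ m * c - w - l) := by
      linarith
    have h4 := Int.fract_nonneg ((a : ℝ) ^ m * x)
    have h5 := Int.fract_lt_one ((a : ℝ) ^ m * x)
    have h6 := Int.fract_nonneg ((a : ℝ) ^ m * (x + c))
    have h7 := Int.fract_lt_one ((a : ℝ) ^ m * (x + c))
    have h8 : (0 : ℝ) ≤ v m := h6
    have h9 : v m < 1 := h7
    rw [abs_le] at h2 hl
    constructor
    · have : (-((D : ℝ) + 3)) ≤ l' := by rw [h3]; linarith [h2.2, hl.2]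
      exact_mod_cast this
    · have : (l' : ℝ) ≤ (D : ℝ) + 3 := by rw [h3]; linarith [h2.1, hl.1]
      exact_mod_cast this
  have hsub : Orb a (x + c) ⊆ range v ∪ Kt := by
    intro z hz
    by_cases hzr : z ∈ range v
    · exact Or.inl hzr
    refine Or.inr ?_
    rw [← hKc.isClosed.closure_eq, Metric.mem_closure_iff]
    intro ε hε
    obtain ⟨N, hN⟩ := hnear (min (ε / 2) 1) (lt_min (by positivity) one_pos) (min_le_right _ _)
    have h1 : z ∈ closure (v '' {m | N ≤ m}) := by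
      have h2 : range v = v '' {m | m < N} ∪ v '' {m | N ≤ m} := by
        rw [← image_union, ← image_univ]
        congr 1
        ext m
        simp only [mem_univ, mem_union, true_iff]
        exact lt_or_ge m N
      have h3 : z ∈ closure (range v) := hz
      rw [h2, closure_union] at h3
      rcases h3 with h3 | h3
      · rw [((Set.finite_lt_nat N).image v).isClosed.closure_eq] at h3
        exact absurd (image_subset_range _ _ h3) hzr
      · exact h3
    rw [Metric.mem_closure_iff] at h1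
    obtain ⟨_, ⟨m, hm, rfl⟩, hd⟩ := h1 (ε / 2) (by positivity)
    obtain ⟨k, hk, hkm⟩ := hN m hm
    refine ⟨k, hk, ?_⟩
    calc dist z k ≤ dist z (v m) + dist (v m) k := dist_triangle _ _ _
      _ < ε / 2 + ε / 2 := by
        refine add_lt_add_of_lt_of_le hd ?_
        rw [Real.dist_eq]
        exact hkm.trans (min_le_left _ _)
      _ = ε := by ring
  have hdimK : dimH Kt ≤ dimH (Orb a x) := by
    have h1 : Kt = ⋃ q ∈ PP a D + J, (fun t => t + q) '' Orb a x := by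
      rw [hKt]
      ext z
      simp only [Set.mem_add, mem_iUnion, mem_image, exists_prop]
      constructor
      · rintro ⟨t, ht, q, ⟨p1, hp1, j, hj, rfl⟩, rfl⟩
        exact ⟨p1 + j, ⟨p1, hp1, j, hj, rfl⟩, t, ht, rfl⟩
      · rintro ⟨q, hq, t, ht, rfl⟩
        exact ⟨t, ht, q, hq, rfl⟩
    have h2 : (PP a D + J).Countable := by
      rw [← Set.image2_add]
      exact (countable_PP a D).image2 hJfin.countable _
    rw [h1, dimH_bUnion h2]
    refine iSup₂_le fun q _ => ?_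
    have h3 : Isometry (fun t : ℝ => t + q) := isometry_add_right q
    rw [h3.dimH_image]
  refine (dimH_mono hsub).trans ?_
  rw [dimH_union, (countable_range v).dimH_zero]
  exact max_le zero_le hdimK

theorem dimH_sparse {a : ℕ} (ha : 2 ≤ a) (x : ℝ) (d : ℕ → ℤ) (D : ℕ) (hD : ∀ i, |d i| ≤ D)
    (hs : Sparse d) :
    dimH (Orb a (x + ∑' i, (d i : ℝ) / (a : ℝ) ^ (i + 1))) = dimH (Orb a x) := by
  refine le_antisymm (dimH_sparse_le ha x d D hD hs) ?_
  have h1 := dimH_sparse_le ha (x + ∑' i, (d i : ℝ) / (a : ℝ) ^ (i + 1)) (fun i => -d i) D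
    (fun i => by rw [abs_neg]; exact hD i)
    (fun g => by
      obtain ⟨K, hK⟩ := hs g
      exact ⟨K, fun i j h1 h2 h3 h4 => hK i j h1 h2 (by simpa using h3) (by simpa using h4)⟩)
  have h2 : x + ∑' i, (d i : ℝ) / (a : ℝ) ^ (i + 1) +
      ∑' i, (((-d i : ℤ)) : ℝ) / (a : ℝ) ^ (i + 1) = x := by
    have : ∑' i, (((-d i : ℤ)) : ℝ) / (a : ℝ) ^ (i + 1) = -∑' i, (d i : ℝ) / (a : ℝ) ^ (i + 1) := by
      rw [← tsum_neg]
      refine tsum_congr fun i => ?_
      push_cast; ring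
    rw [this]; ring
  rw [h2] at h1
  exact h1

end Pool.Agent.X101.SD
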