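import Mathlib
import Pool.Agent.X101.SD.Crit
import Pool.Agent.X101.SD.Sparse
import Pool.Agent.X101.SD.Count2

set_option autoImplicit false

open MeasureTheory Filter Topology Set

namespace Pool.Agent.X101.SD

/-- along some sequence of lengths all Weyl sums are small -/
def Quasi (b : ℕ) (x : ℝ) : Prop :=
  ∃ M : ℕ → ℕ, StrictMono M ∧ ∀ h : ℕ, 1 ≤ h →
    Tendsto (fun j => (∑ n ∈ Finset.range (M j),
      Complex.exp (2 * Real.pi * Complex.I * (h * (b : ℝ) ^ n * x))) / (M j)) atTop (𝓝 0)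

lemma quasi {b : ℕ} {x : ℝ} (hx : ∀ (H : ℕ) (ε : ℝ), 0 < ε → ¬ Bad b H ε x) : Quasi b x := by
  have h1 : ∀ j M₀ : ℕ, ∃ M, M₀ < M ∧ ∀ h ∈ Finset.Icc 1 j, ‖S b M (h * x)‖ < 1 / ((j : ℝ) + 1) * M := by
    intro j M₀
    have h2 := hx j (1 / ((j : ℝ) + 1)) (by positivity)
    unfold Bad at h2
    push Not at h2
    obtain ⟨M, hM, h3⟩ := h2 (M₀ + 1)
    exact ⟨M, by omega, h3⟩
  choose f hf1 hf2 using h1
  set M : ℕ → ℕ := fun j => Nat.rec 1 (fun j m => f j m) j with hM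
  have hM1 : ∀ j, M (j + 1) = f j (M j) := fun j => rfl
  have hmono : StrictMono M := strictMono_nat_of_lt_succ fun j => by rw [hM1]; exact hf1 j _
  refine ⟨fun j => M (j + 1), fun i j hij => hmono (Nat.add_lt_add_right hij 1), fun h hh => ?_⟩
  rw [tendsto_zero_iff_norm_tendsto_zero]
  have h3 : Tendsto (fun j : ℕ => 1 / ((j : ℝ) + 1)) atTop (𝓝 0) :=
    tendsto_one_div_add_atTop_nhds_zero_nat
  refine squeeze_zero' (Eventually.of_forall fun j => norm_nonneg _) ?_ h3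
  filter_upwards [eventually_ge_atTop h] with j hj
  have h4 := hf2 j (M j) h (Finset.mem_Icc.2 ⟨hh, hj⟩)
  rw [← hM1] at h4
  have h5 : (0 : ℝ) < M (j + 1) := by
    have : 0 < M (j + 1) := lt_of_le_of_lt (Nat.zero_le _) (hf1 j (M j))
    exact_mod_cast this
  have h6 : ∑ n ∈ Finset.range (M (j + 1)),
      Complex.exp (2 * Real.pi * Complex.I * (h * (b : ℝ) ^ n * x)) = S b (M (j + 1)) (h * x) := by
    unfold S e
    refine Finset.sum_congr rfl fun n _ => ?_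
    congr 1
    push_cast
    ring
  rw [h6, norm_div, Complex.norm_natCast, div_le_iff₀ h5]
  exact h4.le

lemma exists_prime {a b : ℕ} (ha : 2 ≤ a) (h : ∀ k : ℕ, ¬ a ∣ b ^ k) :
    ∃ p : ℕ, p.Prime ∧ p ∣ a ∧ ¬ p ∣ b := by
  by_contra hcon
  push Not at hcon
  apply h a
  rw [Nat.dvd_iff_prime_pow_dvd_dvd]
  intro q k hq hqk
  rcases Nat.eq_zero_or_pos k with hk | hk
  · subst hk; simp
  have hqa : q ∣ a := (dvd_pow_self q hk.ne').trans hqk
  have hka : k ≤ a := by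
    have h1 : k < q ^ k := Nat.lt_pow_self hq.one_lt
    have h2 := Nat.le_of_dvd (by omega) hqk
    omega
  exact (pow_dvd_pow q hka).trans (pow_dvd_pow_of_dvd (hcon q hq hqa) a)

theorem part1 {a : ℕ} (ha : 2 ≤ a) (x₀ : ℝ)
    (ν : ℕ → Measure (Fin a)) [∀ k, IsProbabilityMeasure (ν k)]
    (hat : ∀ ω, Measure.infinitePi ν {ω} = 0) :
    ∀ᵐ ω ∂(Measure.infinitePi ν), ∀ b : ℕ, 2 ≤ b → (∀ k : ℕ, ¬ a ∣ b ^ k) →
      Quasi b (x₀ + val a ω) ∧ Orb b (x₀ + val a ω) = Icc 0 1 := by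
  filter_upwards [ae_main ha x₀ ν hat] with ω hω b hb hab
  have h := hω b hb (exists_prime ha hab)
  exact ⟨quasi h, orb_eq h⟩

theorem part3 {a b : ℕ} (ha : 2 ≤ a) (hb : 2 ≤ b) (hab : a.Coprime b) :
    ∃ C : ℝ, ∀ δ : ℝ, 0 < δ → δ ≤ 1 → ∀ x : ℝ,
      {r : ℝ | 0 ≤ r ∧ r < 1 ∧ (∃ (N : ℕ) (m : ℤ), r = m / (a : ℝ) ^ N) ∧
        ∃ y ∈ Icc (0 : ℝ) 1, ∀ n : ℕ, δ ≤ |Int.fract ((b : ℝ) ^ n * (x + r)) - y|}.Finite ∧
      ({r : ℝ | 0 ≤ r ∧ r < 1 ∧ (∃ (N : ℕ) (m : ℤ), r = m / (a : ℝ) ^ N) ∧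
        ∃ y ∈ Icc (0 : ℝ) 1, ∀ n : ℕ, δ ≤ |Int.fract ((b : ℝ) ^ n * (x + r)) - y|}.ncard : ℝ) ≤
        C / δ ^ 8 := by
  obtain ⟨P, hP0, hP⟩ := coset2 ha hb hab
  refine ⟨1296 * P, fun δ hδ hδ1 x => ?_⟩
  set E : Set ℝ := {r : ℝ | 0 ≤ r ∧ r < 1 ∧ (∃ (N : ℕ) (m : ℤ), r = m / (a : ℝ) ^ N) ∧
        ∃ y ∈ Icc (0 : ℝ) 1, ∀ n : ℕ, δ ≤ |Int.fract ((b : ℝ) ^ n * (x + r)) - y|} with hE
  obtain ⟨K, hK1, hK2, hbad⟩ := bad_of_miss' (δ := δ / 2) (by positivity) (by linarith)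
  have hK0 : (0 : ℝ) < K := lt_trans (by positivity) hK1
  have key : ∀ R : Finset ℝ, (R : Set ℝ) ⊆ E → (R.card : ℝ) ≤ 1296 * P / δ ^ 8 := by
    intro R hR
    have h1 := hP K (1 / (4 * K)) (by positivity) x R (by
      intro r hr
      obtain ⟨h1, h2, h3, y, hy, hy2⟩ := hR hr
      refine ⟨h1, h2, h3, ?_⟩
      -- move the centre
      have hy' : ∃ y' : ℝ, δ / 2 ≤ y' ∧ y' ≤ 1 - δ / 2 ∧ |y - y'| ≤ δ / 2 := by
        rcases le_total y (δ / 2) with h4 | h4
        · exact ⟨δ / 2, le_rfl, by linarith, by rw [abs_le]; constructor <;> linarith [hy.1]⟩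
        · rcases le_total y (1 - δ / 2) with h5 | h5
          · exact ⟨y, h4, h5, by simp; positivity⟩
          · exact ⟨1 - δ / 2, by linarith, le_rfl, by rw [abs_le]; constructor <;> linarith [hy.2]⟩
      obtain ⟨y', h4, h5, h6⟩ := hy'
      refine hbad b (x + r) y' h4 h5 fun n => ?_
      have h7 := hy2 n
      have h8 : |Int.fract ((b : ℝ) ^ n * (x + r)) - y| ≤
          |Int.fract ((b : ℝ) ^ n * (x + r)) - y'| + |y - y'| := by
        have := abs_sub_le (Int.fract ((b : ℝ) ^ n * (x + r))) y' y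
        rw [abs_sub_comm y' y] at this
        exact this
      linarith)
    have h2 : (K : ℝ) ≤ 3 / δ ^ 2 := by
      refine hK2.trans ?_
      have h3 : (1 : ℝ) ≤ 1 / δ ^ 2 := by
        rw [le_div_iff₀ (by positivity), one_mul]
        exact pow_le_one₀ hδ.le hδ1
      calc 1 / (2 * (δ / 2) ^ 2) + 1 = 2 * (1 / δ ^ 2) + 1 := by field_simp
        _ ≤ 2 * (1 / δ ^ 2) + 1 / δ ^ 2 := by linarith
        _ = 3 / δ ^ 2 := by ring
    have h3 : (R.card : ℝ) ≤ 16 * P * (K : ℝ) ^ 4 := by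
      have h4 : (R.card : ℝ) * (1 / (4 * (K : ℝ))) ^ 2 = R.card / (16 * (K : ℝ) ^ 2) := by
        field_simp; norm_num
      rw [h4, div_le_iff₀ (by positivity)] at h1
      calc (R.card : ℝ) ≤ P * (K : ℝ) ^ 2 * (16 * (K : ℝ) ^ 2) := h1
        _ = _ := by ring
    calc (R.card : ℝ) ≤ 16 * P * (K : ℝ) ^ 4 := h3
      _ ≤ 16 * P * (3 / δ ^ 2) ^ 4 := by gcongr
      _ = 1296 * P / δ ^ 8 := by field_simp; norm_num
  have hfin : E.Finite := by
    by_contra hinf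
    obtain ⟨R, hR1, hR2⟩ := Set.Infinite.exists_subset_card_eq hinf (⌊1296 * (P : ℝ) / δ ^ 8⌋₊ + 1)
    have h1 := key R hR1
    rw [hR2] at h1
    have h2 := Nat.lt_floor_add_one (1296 * (P : ℝ) / δ ^ 8)
    push_cast at h1
    linarith
  refine ⟨hfin, ?_⟩
  have h1 := key hfin.toFinset (by simp)
  rwa [← Set.ncard_eq_toFinset_card E hfin] at h1

/-- fair coins at the places of `S` -/
noncomputable def coin (a : ℕ) (S : Set ℕ) (ha : 2 ≤ a) : ℕ → Measure (Fin a) := by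
  classical
  exact fun k => if k ∈ S then (2⁻¹ : ENNReal) • Measure.dirac ⟨0, by omega⟩ +
    (2⁻¹ : ENNReal) • Measure.dirac ⟨1, by omega⟩ else Measure.dirac ⟨0, by omega⟩

lemma coin_prob {a : ℕ} (ha : 2 ≤ a) (S : Set ℕ) (k : ℕ) : IsProbabilityMeasure (coin a S ha k) := by
  classical
  by_cases h : k ∈ S
  · constructor
    simp only [coin, h, if_true]
    simp [ENNReal.inv_two_add_inv_two]
  · simp only [coin, h, if_false]
    infer_instance

lemma coin_le {a : ℕ} (ha : 2 ≤ a) {S : Set ℕ} {k : ℕ} (hk : k ∈ S) (d : Fin a) :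
    coin a S ha k {d} ≤ 2⁻¹ := by
  classical
  simp only [coin, hk, if_true, Measure.add_apply, Measure.smul_apply, smul_eq_mul,
    Measure.dirac_apply' _ (measurableSet_singleton d), Set.indicator, Set.mem_singleton_iff,
    Pi.one_apply]
  by_cases h0 : (⟨0, by omega⟩ : Fin a) = d
  · have h1 : ¬ (⟨1, by omega⟩ : Fin a) = d := by
      rw [← h0]; intro h; simp at h
    simp [h0, h1]
  · by_cases h1 : (⟨1, by omega⟩ : Fin a) = d
    · simp [h0, h1]
    · simp [h0, h1]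

lemma coin_zero {a : ℕ} (ha : 2 ≤ a) {S : Set ℕ} {k : ℕ} (hk : k ∉ S) :
    coin a S ha k {d | (d : ℕ) ≠ 0} = 0 := by
  classical
  simp only [coin, hk, if_false]
  rw [Measure.dirac_apply' _ (Set.toFinite _).measurableSet]
  simp

theorem part5 {a : ℕ} (ha : 2 ≤ a) (x₀ : ℝ) {ε : ℝ} (hε : 0 < ε) :
    ∃ y : ℝ, |y - x₀| < ε ∧ dimH (Orb a y) = dimH (Orb a x₀) ∧
      ∀ b : ℕ, 2 ≤ b → (∀ k : ℕ, ¬ a ∣ b ^ k) → Quasi b y ∧ Orb b y = Icc 0 1 := by
  classical
  have ha0 : (0 : ℝ) < a := by positivity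
  have ha1 : (1 : ℝ) < a := by exact_mod_cast (by omega : 1 < a)
  obtain ⟨K, hK⟩ : ∃ K : ℕ, (1 / (a : ℝ)) ^ K < ε := exists_pow_lt_of_lt_one hε
      (by rw [div_lt_one ha0]; exact ha1)
  set S : Set ℕ := Set.range fun i : ℕ => K + i ^ 2 with hS
  have hinst : ∀ k, IsProbabilityMeasure (coin a S ha k) := coin_prob ha S
  have hat : ∀ ω, Measure.infinitePi (coin a S ha) {ω} = 0 := by
    intro ω
    rw [Measure.infinitePi_singleton, ENNReal.tprod_eq_iInf_prod (by simp [prob_le_one])]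
    refine le_antisymm ?_ zero_le
    have h1 : ∀ n : ℕ, (⨅ s : Finset ℕ, ∏ i ∈ s, coin a S ha i {ω i}) ≤ (2⁻¹ : ENNReal) ^ n := by
      intro n
      refine (iInf_le _ ((Finset.range n).image fun i => K + i ^ 2)).trans ?_
      rw [Finset.prod_image (by
        intro i _ j _ hij
        have : i ^ 2 = j ^ 2 := by simpa using hij
        exact Nat.pow_left_injective (by norm_num : 2 ≠ 0) this)]
      calc ∏ i ∈ Finset.range n, coin a S ha (K + i ^ 2) {ω (K + i ^ 2)}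
          ≤ ∏ _i ∈ Finset.range n, (2⁻¹ : ENNReal) :=
            Finset.prod_le_prod' fun i _ => coin_le ha (show K + i ^ 2 ∈ S from ⟨i, rfl⟩) _
        _ = _ := by simp
    have h2 : Tendsto (fun n : ℕ => (2⁻¹ : ENNReal) ^ n) atTop (𝓝 0) :=
      ENNReal.tendsto_pow_atTop_nhds_zero_of_lt_one (by simp)
    exact ge_of_tendsto' h2 h1
  have h1 := part1 ha x₀ (coin a S ha) hat
  have h2 : ∀ᵐ ω ∂(Measure.infinitePi (coin a S ha)), ∀ k, k ∉ S → (ω k : ℕ) = 0 := by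
    rw [ae_all_iff]
    intro k
    by_cases hk : k ∈ S
    · exact Eventually.of_forall fun ω h => absurd hk h
    · have h3 : Measure.infinitePi (coin a S ha) ((fun ω : ℕ → Fin a => ω k) ⁻¹' {d | (d : ℕ) ≠ 0}) = 0 := by
        rw [← Measure.map_apply (measurable_pi_apply k) (Set.toFinite _).measurableSet,
          Measure.infinitePi_map_eval]
        exact coin_zero ha hk
      filter_upwards [measure_eq_zero_iff_ae_notMem.1 h3] with ω hω _
      simpa using hω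
  obtain ⟨ω, hω1, hω2⟩ := (h1.and h2).exists
  refine ⟨x₀ + val a ω, ?_, ?_, hω1⟩
  · have h3 : x₀ + val a ω - x₀ = val a ω := by ring
    rw [h3]
    have h4 : 0 ≤ val a ω := tsum_nonneg fun k => by positivity
    rw [abs_of_nonneg h4]
    refine lt_of_le_of_lt ?_ hK
    unfold val
    rw [← (summable_val ha ω).sum_add_tsum_nat_add K, Finset.sum_eq_zero, zero_add]
    · have h5 : HasSum (fun k : ℕ => (1 / (a : ℝ)) ^ (K + 1) * (a - 1) * (1 / (a : ℝ)) ^ k)
          ((1 / (a : ℝ)) ^ (K + 1) * (a - 1) * (1 - 1 / (a : ℝ))⁻¹) :=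
        (hasSum_geometric_of_lt_one (by positivity) (by rw [div_lt_one ha0]; exact ha1)).mul_left _
      have h6 : (1 / (a : ℝ)) ^ (K + 1) * (a - 1) * (1 - 1 / (a : ℝ))⁻¹ = (1 / (a : ℝ)) ^ K := by
        have : (a : ℝ) - 1 ≠ 0 := by linarith
        rw [one_sub_div ha0.ne', inv_div, pow_succ]
        field_simp
      rw [h6] at h5
      rw [← h5.tsum_eq]
      refine Summable.tsum_le_tsum (fun k => ?_) ?_ h5.summable
      · have h7 : ((ω (k + K) : ℕ) : ℝ) ≤ a - 1 := by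
          have := (ω (k + K)).2
          have h8 : (ω (k + K) : ℕ) + 1 ≤ a := this
          have h9 : ((ω (k + K) : ℕ) : ℝ) + 1 ≤ a := by exact_mod_cast h8
          linarith
        have h8 : (1 / (a : ℝ)) ^ (K + 1) * (a - 1) * (1 / (a : ℝ)) ^ k =
            ((a : ℝ) - 1) / (a : ℝ) ^ (k + K + 1) := by
          rw [div_pow, div_pow, one_pow, one_pow, pow_add, pow_add, pow_add]
          field_simp
        rw [h8]
        gcongr
      · exact (summable_nat_add_iff K).2 (summable_val ha ω)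
    · intro i hi
      rw [Finset.mem_range] at hi
      have : i ∉ S := by
        rintro ⟨j, hj⟩
        simp only at hj
        have := Nat.zero_le (j ^ 2)
        omega
      rw [hω2 i this]
      simp
  · have h3 := dimH_sparse ha x₀ (fun k => ((ω k : ℕ) : ℤ)) a (fun i => by
      have := (ω i).2
      rw [abs_of_nonneg (by positivity)]
      omega) (by
      intro g
      refine ⟨K + g ^ 2, fun i j hi hij h1 h2 => ?_⟩
      have hiS : i ∈ S := by
        by_contra h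
        exact h1 (by simp [hω2 i h])
      have hjS : j ∈ S := by
        by_contra h
        exact h2 (by simp [hω2 j h])
      obtain ⟨u, hu⟩ := hiS
      obtain ⟨v, hv⟩ := hjS
      simp only at hu hv
      have h4 : u ^ 2 < v ^ 2 := by omega
      have h5 : u < v := lt_of_pow_lt_pow_left₀ 2 (Nat.zero_le _) h4
      have h6 : g ^ 2 ≤ u ^ 2 := by omega
      have h7 : g ≤ u := le_of_pow_le_pow_left₀ two_ne_zero (Nat.zero_le _) h6
      have h8 : (u + 1) ^ 2 ≤ v ^ 2 := Nat.pow_le_pow_left h5 2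
      nlinarith)
    simp only [Int.cast_natCast] at h3
    exact h3

end Pool.Agent.X101.SD
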