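import Mathlib
import Pool.Agent.X101.SD.Fin1

set_option autoImplicit false

open Filter Topology Set

namespace Pool.Agent.X101.SD

/-- multiplicative independence -/
def MI (a b : ℕ) : Prop := ∀ k l : ℕ, 0 < k → 0 < l → a ^ k ≠ b ^ l

lemma irr {a b : ℕ} (ha : 2 ≤ a) (hb : 2 ≤ b) (h : MI a b) :
    Irrational (Real.log b / Real.log a) := by
  have hla : 0 < Real.log a := Real.log_pos (by exact_mod_cast (by omega : 1 < a))
  have hlb : 0 < Real.log b := Real.log_pos (by exact_mod_cast (by omega : 1 < b))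
  rintro ⟨r, hr⟩
  have hr0 : (0 : ℝ) < r := by rw [hr]; positivity
  have hr0' : 0 < r := by exact_mod_cast hr0
  have hnum : 0 < r.num := Rat.num_pos.2 hr0'
  obtain ⟨n, hn⟩ := Int.eq_ofNat_of_zero_le hnum.le
  have hn0 : 0 < n := by omega
  have h1 : (r : ℝ) = n / r.den := by
    have h2 : (r : ℝ) = r.num / r.den := by exact_mod_cast (Rat.num_div_den r).symm
    rw [h2, hn]; push_cast; rfl
  rw [h1] at hr
  have hden : (0 : ℝ) < r.den := by exact_mod_cast r.den_pos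
  rw [div_eq_div_iff hden.ne' hla.ne'] at hr
  have h2 : Real.log ((a : ℝ) ^ n) = Real.log ((b : ℝ) ^ r.den) := by
    rw [Real.log_pow, Real.log_pow]; linarith
  have h3 : (a : ℝ) ^ n = (b : ℝ) ^ r.den :=
    Real.log_injOn_pos (Set.mem_Ioi.2 (by positivity)) (Set.mem_Ioi.2 (by positivity)) h2
  exact h n r.den hn0 r.den_pos (by exact_mod_cast h3)

/-- small positive and negative elements of `{m α - s}` -/
lemma small_both {α : ℝ} (hα : Irrational α) (hα0 : 0 < α) {ρ : ℝ} (hρ : 0 < ρ) :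
    (∃ m s : ℕ, 0 < m * α - s ∧ m * α - s < ρ) ∧ (∃ m s : ℕ, -ρ < m * α - s ∧ m * α - s < 0) := by
  have hne : ∀ m s : ℕ, 0 < m → (m : ℝ) * α - s ≠ 0 := by
    intro m s hm h
    have hm' : (m : ℝ) ≠ 0 := by exact_mod_cast hm.ne'
    have h1 : α = ((s : ℚ) / (m : ℚ) : ℚ) := by
      push_cast
      rw [eq_div_iff hm']; linarith
    exact hα ⟨_, h1.symm⟩
  obtain ⟨n, hn⟩ := exists_nat_gt (1 / (min ρ 1))
  have hmin : 0 < min ρ 1 := lt_min hρ one_pos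
  have hn0 : 0 < n := by
    have h1 : (0 : ℝ) < n := lt_trans (by positivity) hn
    exact_mod_cast h1
  obtain ⟨j, k, hk0, _, hle⟩ := Real.exists_int_int_abs_mul_sub_le α hn0
  obtain ⟨k', rfl⟩ := Int.eq_ofNat_of_zero_le hk0.le
  have hk0' : 0 < k' := by exact_mod_cast hk0
  have hsmall : |((k' : ℤ) : ℝ) * α - j| < min ρ 1 := by
    refine lt_of_le_of_lt hle ?_
    rw [div_lt_iff₀ (by positivity)]
    rw [div_lt_iff₀ hmin] at hn
    nlinarith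
  have hj0 : 0 ≤ j := by
    by_contra hcon
    push Not at hcon
    have h1 : (j : ℝ) ≤ -1 := by exact_mod_cast (by omega : j ≤ -1)
    have h2 : 0 < ((k' : ℤ) : ℝ) * α := by
      have : (0 : ℝ) < k' := by exact_mod_cast hk0'
      push_cast; positivity
    have h3 := (abs_lt.1 hsmall).2
    have h4 := min_le_right ρ 1
    linarith
  obtain ⟨j', rfl⟩ := Int.eq_ofNat_of_zero_le hj0
  push_cast at hsmall
  have hη := hne k' j' hk0'
  set η : ℝ := (k' : ℝ) * α - j' with hηdef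
  have hηρ : |η| < ρ := lt_of_lt_of_le hsmall (min_le_left _ _)
  have hη1 : |η| < 1 := lt_of_lt_of_le hsmall (min_le_right _ _)
  rcases lt_or_gt_of_ne hη with hneg | hpos
  · -- η negative
    refine ⟨?_, k', j', ?_, hneg⟩
    · set N := ⌊1 / |η|⌋₊ with hN
      have habs : 0 < |η| := abs_pos.2 hη
      have hN1 : (N : ℝ) * |η| ≤ 1 := by
        rw [← le_div_iff₀ habs]; exact Nat.floor_le (by positivity)
      have hN2 : 1 < ((N : ℝ) + 1) * |η| := by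
        rw [← div_lt_iff₀ habs]; exact Nat.lt_floor_add_one _
      have hNpos : 1 ≤ N := by
        rw [hN]; exact Nat.one_le_floor_iff _ |>.2 (by rw [le_div_iff₀ habs]; linarith)
      have hj1 : 1 ≤ j' := by
        rcases Nat.eq_zero_or_pos j' with h0 | h0
        · rw [h0] at hηdef
          have : (0 : ℝ) < k' := by exact_mod_cast hk0'
          have : 0 < (k' : ℝ) * α := by positivity
          simp at hηdef
          linarith
        · exact h0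
      have hNj : 1 ≤ N * j' := Nat.mul_pos hNpos hj1
      have habs' : |η| = -η := abs_of_neg hneg
      have hval : ((N * k' : ℕ) : ℝ) * α - ((N * j' - 1 : ℕ) : ℝ) = 1 - N * |η| := by
        rw [Nat.cast_sub hNj, habs', hηdef]; push_cast; ring
      refine ⟨N * k', N * j' - 1, ?_, ?_⟩
      · have h1 := hne (N * k') (N * j' - 1) (Nat.mul_pos hNpos hk0')
        rw [hval] at h1 ⊢
        rcases lt_or_eq_of_le (by linarith : 0 ≤ 1 - (N : ℝ) * |η|) with h2 | h2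
        · exact h2
        · exact absurd h2.symm h1
      · rw [hval]; linarith
    · have := (abs_lt.1 hηρ).1
      exact this
  · refine ⟨⟨k', j', hpos, (abs_lt.1 hηρ).2⟩, ?_⟩
    set N := ⌊1 / η⌋₊ with hN
    have hη1' : η < 1 := (abs_lt.1 hη1).2
    have hηρ' : η < ρ := (abs_lt.1 hηρ).2
    have hN1 : (N : ℝ) * η ≤ 1 := by
      rw [← le_div_iff₀ hpos]; exact Nat.floor_le (by positivity)
    have hN2 : 1 < ((N : ℝ) + 1) * η := by
      rw [← div_lt_iff₀ hpos]; exact Nat.lt_floor_add_one _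
    have hNpos : 1 ≤ N := by
      rw [hN]; exact Nat.one_le_floor_iff _ |>.2 (by rw [le_div_iff₀ hpos]; linarith)
    have hval : ((N * k' : ℕ) : ℝ) * α - ((N * j' + 1 : ℕ) : ℝ) = N * η - 1 := by
      rw [hηdef]; push_cast; ring
    refine ⟨N * k', N * j' + 1, ?_, ?_⟩
    · rw [hval]; linarith
    · have h1 := hne (N * k') (N * j' + 1) (Nat.mul_pos hNpos hk0')
      rw [hval] at h1 ⊢
      rcases lt_or_eq_of_le (by linarith : (N : ℝ) * η - 1 ≤ 0) with h2 | h2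
      · exact h2
      · exact absurd h2 h1

lemma dense_MA {α : ℝ} (hα : Irrational α) (hα0 : 0 < α) (v : ℝ) {ρ : ℝ} (hρ : 0 < ρ) :
    ∃ m s : ℕ, |(m : ℝ) * α - s - v| < ρ := by
  obtain ⟨⟨m₁, s₁, h1, h2⟩, ⟨m₂, s₂, h3, h4⟩⟩ := small_both hα hα0 hρ
  rcases le_total 0 v with hv | hv
  · set η := (m₁ : ℝ) * α - s₁ with hη
    refine ⟨⌊v / η⌋₊ * m₁, ⌊v / η⌋₊ * s₁, ?_⟩
    have h5 : (⌊v / η⌋₊ : ℝ) * η ≤ v := by
      rw [← le_div_iff₀ h1]; exact Nat.floor_le (by positivity)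
    have h6 : v < ((⌊v / η⌋₊ : ℝ) + 1) * η := by
      rw [← div_lt_iff₀ h1]; exact Nat.lt_floor_add_one _
    have h7 : ((⌊v / η⌋₊ * m₁ : ℕ) : ℝ) * α - ((⌊v / η⌋₊ * s₁ : ℕ) : ℝ) - v =
        ⌊v / η⌋₊ * η - v := by rw [hη]; push_cast; ring
    rw [h7, abs_lt]
    constructor <;> linarith
  · set η := (m₂ : ℝ) * α - s₂ with hη
    have hη' : 0 < -η := by linarith
    refine ⟨⌊v / η⌋₊ * m₂, ⌊v / η⌋₊ * s₂, ?_⟩
    have hvη : v / η = (-v) / (-η) := by rw [neg_div_neg_eq]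
    have h5 : (⌊v / η⌋₊ : ℝ) * (-η) ≤ -v := by
      rw [← le_div_iff₀ hη', ← hvη]
      refine Nat.floor_le ?_
      rw [hvη]; exact div_nonneg (by linarith) hη'.le
    have h6 : -v < ((⌊v / η⌋₊ : ℝ) + 1) * (-η) := by
      rw [← div_lt_iff₀ hη', ← hvη]; exact Nat.lt_floor_add_one _
    have h7 : ((⌊v / η⌋₊ * m₂ : ℕ) : ℝ) * α - ((⌊v / η⌋₊ * s₂ : ℕ) : ℝ) - v =
        ⌊v / η⌋₊ * η - v := by rw [hη]; push_cast; ring
    rw [h7, abs_lt]
    constructor <;> linarith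

/-- a uniform version on a bounded interval -/
lemma dense_unif {α : ℝ} (hα : Irrational α) (hα0 : 0 < α) (V₁ V₂ : ℝ) {ρ : ℝ} (hρ : 0 < ρ) :
    ∃ G : ℕ, ∀ v : ℝ, V₁ ≤ v → v ≤ V₂ → ∃ m s : ℕ, s ≤ G ∧ |(m : ℝ) * α - s - v| < ρ := by
  have h1 : ∀ j : ℕ, ∃ m s : ℕ, |(m : ℝ) * α - s - (V₁ + j * (ρ / 2))| < ρ / 2 := fun j =>
    dense_MA hα hα0 _ (by positivity)
  choose m s hms using h1
  set J : ℕ := ⌊(V₂ - V₁) / (ρ / 2)⌋₊ with hJ
  refine ⟨(Finset.range (J + 1)).sup s, fun v hv1 hv2 => ?_⟩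
  set j := ⌊(v - V₁) / (ρ / 2)⌋₊ with hj
  have hjJ : j ≤ J := by
    rw [hj, hJ]
    exact Nat.floor_le_floor (by gcongr)
  refine ⟨m j, s j, Finset.le_sup (f := s) (Finset.mem_range.2 (by omega)), ?_⟩
  have h2 : (j : ℝ) * (ρ / 2) ≤ v - V₁ := by
    rw [← le_div_iff₀ (by positivity)]
    exact Nat.floor_le (div_nonneg (by linarith) (by positivity))
  have h3 : v - V₁ < ((j : ℝ) + 1) * (ρ / 2) := by
    rw [← div_lt_iff₀ (by positivity)]; exact Nat.lt_floor_add_one _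
  have h4 := abs_lt.1 (hms j)
  rw [abs_lt]
  constructor <;> linarith [h4.1, h4.2]

lemma syndetic {α : ℝ} (hα : Irrational α) (hα0 : 0 < α) (v₀ : ℝ) {ρ : ℝ} (hρ : 0 < ρ) :
    ∃ G : ℕ, ∀ n : ℕ, ∃ m s : ℕ, n ≤ s ∧ s ≤ n + G ∧ |(m : ℝ) * α - s - v₀| < ρ := by
  obtain ⟨G, hG⟩ := dense_unif hα hα0 (v₀ - α) v₀ hρ
  refine ⟨G, fun n => ?_⟩
  have h1 : (n : ℝ) ≤ ⌈(n : ℝ) / α⌉₊ * α := by
    rw [← div_le_iff₀ hα0]; exact Nat.le_ceil _
  have h2 : (⌈(n : ℝ) / α⌉₊ : ℝ) * α < n + α := by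
    have h3 := Nat.ceil_lt_add_one (by positivity : 0 ≤ (n : ℝ) / α)
    have h4 : ((n : ℝ) / α + 1) * α = n + α := by field_simp
    nlinarith
  obtain ⟨m, s, hs, hms⟩ := hG (v₀ + n - ⌈(n : ℝ) / α⌉₊ * α) (by linarith) (by linarith)
  refine ⟨⌈(n : ℝ) / α⌉₊ + m, n + s, by omega, by omega, ?_⟩
  have h5 : ((⌈(n : ℝ) / α⌉₊ + m : ℕ) : ℝ) * α - ((n + s : ℕ) : ℝ) - v₀ =
      (m : ℝ) * α - s - (v₀ + n - ⌈(n : ℝ) / α⌉₊ * α) := by push_cast; ring
  rw [h5]; exact hms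

/-- the quotients `b ^ m / a ^ s` come close to `τ` for syndetically many `s` -/
lemma syndetic_mul {a b : ℕ} (ha : 2 ≤ a) (hb : 2 ≤ b) (hab : MI a b) {τ : ℝ} (hτ : 0 < τ)
    {η : ℝ} (hη : 0 < η) :
    ∃ G : ℕ, ∀ n : ℕ, ∃ m s : ℕ, n ≤ s ∧ s ≤ n + G ∧ |(b : ℝ) ^ m / (a : ℝ) ^ s - τ| < η := by
  have hla : 0 < Real.log a := Real.log_pos (by exact_mod_cast (by omega : 1 < a))
  have hlb : 0 < Real.log b := Real.log_pos (by exact_mod_cast (by omega : 1 < b))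
  set α := Real.log b / Real.log a with hα
  set v₀ := Real.log τ / Real.log a with hv₀
  have hcont : ContinuousAt (fun t : ℝ => Real.exp (t * Real.log a)) v₀ := by fun_prop
  rw [Metric.continuousAt_iff] at hcont
  obtain ⟨ρ, hρ, hc⟩ := hcont η hη
  obtain ⟨G, hG⟩ := syndetic (irr ha hb hab) (by positivity) v₀ hρ
  refine ⟨G, fun n => ?_⟩
  obtain ⟨m, s, h1, h2, h3⟩ := hG n
  refine ⟨m, s, h1, h2, ?_⟩
  have h4 := hc (x := (m : ℝ) * α - s) (by rw [Real.dist_eq]; exact h3)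
  rw [Real.dist_eq] at h4
  have h5 : Real.exp (((m : ℝ) * α - s) * Real.log a) = (b : ℝ) ^ m / (a : ℝ) ^ s := by
    have h6 : ((m : ℝ) * α - s) * Real.log a = m * Real.log b - s * Real.log a := by
      rw [hα]; field_simp
    rw [h6, Real.exp_sub, Real.exp_nat_mul, Real.exp_nat_mul, Real.exp_log (by positivity),
      Real.exp_log (by positivity)]
  have h6 : Real.exp (v₀ * Real.log a) = τ := by
    rw [hv₀, div_mul_cancel₀ _ hla.ne', Real.exp_log hτ]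
  rw [h5, h6] at h4
  exact h4

/-- a positive number with a dense orbit under multiplication by `a` -/
lemma exists_dense {a : ℕ} (ha : 2 ≤ a) : ∃ τ : ℝ, 0 < τ ∧ Orb a τ = Icc 0 1 := by
  obtain ⟨p, hp1, hp⟩ := Nat.exists_infinite_primes (a + 1)
  obtain ⟨y, hy1, _, hy2⟩ := part5 (a := p) hp.two_le 1 (ε := 1 / 2) (by norm_num)
  refine ⟨y, ?_, (hy2 a ha fun k hk => ?_).2⟩
  · rw [abs_lt] at hy1
    linarith [hy1.1]
  · have h1 := hp.dvd_of_dvd_pow hk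
    have h2 := Nat.le_of_dvd (by omega) h1
    omega

lemma net {a : ℕ} {τ : ℝ} (h : Orb a τ = Icc 0 1) {δ : ℝ} (hδ : 0 < δ) :
    ∃ I : ℕ, ∀ v : ℝ, 0 ≤ v → v ≤ 1 → ∃ i ≤ I, |Int.fract ((a : ℝ) ^ i * τ) - v| < δ := by
  obtain ⟨K, hK⟩ := exists_nat_gt (2 / δ)
  have hK0 : (0 : ℝ) < K := lt_trans (by positivity) hK
  have hKδ : 1 / (K : ℝ) < δ / 2 := by
    rw [div_lt_iff₀ hK0]
    rw [div_lt_iff₀ hδ] at hK
    linarith
  have h1 : ∀ j : ℕ, ∃ i : ℕ, j ≤ K → |Int.fract ((a : ℝ) ^ i * τ) - j / K| < δ / 2 := by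
    intro j
    by_cases hj : j ≤ K
    · have h2 : (j : ℝ) / K ∈ Orb a τ := by
        rw [h]
        refine ⟨by positivity, ?_⟩
        rw [div_le_one hK0]; exact_mod_cast hj
      unfold Orb at h2
      rw [Metric.mem_closure_iff] at h2
      obtain ⟨_, ⟨i, rfl⟩, hi⟩ := h2 (δ / 2) (by positivity)
      refine ⟨i, fun _ => ?_⟩
      rw [Real.dist_eq, abs_sub_comm] at hi
      exact hi
    · exact ⟨0, fun h => absurd h hj⟩
  choose i hi using h1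
  refine ⟨(Finset.range (K + 1)).sup i, fun v hv0 hv1 => ?_⟩
  set j := ⌊v * K⌋₊ with hj
  have hj1 : (j : ℝ) ≤ v * K := Nat.floor_le (by positivity)
  have hj2 : v * K < j + 1 := Nat.lt_floor_add_one _
  have hjK : j ≤ K := by
    have : (j : ℝ) ≤ K := hj1.trans (by nlinarith)
    exact_mod_cast this
  refine ⟨i j, Finset.le_sup (f := i) (Finset.mem_range.2 (by omega)), ?_⟩
  have h2 := hi j hjK
  have h3 : |(j : ℝ) / K - v| ≤ 1 / K := by
    rw [abs_le]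
    constructor
    · rw [neg_le_sub_iff_le_add, ← add_div, le_div_iff₀ hK0]; linarith
    · rw [sub_le_iff_le_add]
      have : (j : ℝ) / K ≤ v := by rw [div_le_iff₀ hK0]; exact hj1
      have : 0 < 1 / (K : ℝ) := by positivity
      linarith
  calc |Int.fract ((a : ℝ) ^ i j * τ) - v|
      ≤ |Int.fract ((a : ℝ) ^ i j * τ) - j / K| + |(j : ℝ) / K - v| := abs_sub_le _ _ _
    _ < δ := by linarith

/-- **the hitting lemma** -/
theorem hit {a b : ℕ} (ha : 2 ≤ a) (hb : 2 ≤ b) (hab : MI a b) (z : ℝ) {δ : ℝ} (hδ : 0 < δ) :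
    ∃ (L : ℕ) (C : ℝ), 0 < C ∧ 0 < L ∧ ∀ (p : ℝ) (n : ℕ), ∃ N : ℕ, n ≤ N ∧ N < n + L ∧
      ∃ (m : ℕ) (l : ℤ), (b : ℝ) ^ m ≤ C * (a : ℝ) ^ (N + 1) ∧
        |(b : ℝ) ^ m * (p + 1 / (a : ℝ) ^ (N + 1)) - z - l| < δ := by
  have ha0 : (0 : ℝ) < a := by positivity
  have ha1 : (1 : ℝ) ≤ a := by exact_mod_cast (by omega : 1 ≤ a)
  obtain ⟨τ, hτ, hτd⟩ := exists_dense ha
  obtain ⟨I, hI⟩ := net hτd (δ := δ / 2) (by positivity)
  set η : ℝ := δ / (2 * (a : ℝ) ^ I) with hη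
  have hη0 : 0 < η := by positivity
  obtain ⟨G, hG⟩ := syndetic_mul ha hb hab hτ hη0
  refine ⟨I + G + 1, (τ + η) * (a : ℝ) ^ I, by positivity, by omega, fun p n => ?_⟩
  obtain ⟨m, s, hs1, hs2, hms⟩ := hG (n + I + 1)
  obtain ⟨i, hi, hiv⟩ := hI (Int.fract (z - (b : ℝ) ^ m * p)) (Int.fract_nonneg _)
    (Int.fract_lt_one _).le
  refine ⟨s - i - 1, by omega, by omega, m,
    ⌊(a : ℝ) ^ i * τ⌋ - ⌊z - (b : ℝ) ^ m * p⌋, ?_, ?_⟩
  · have h1 : s - i - 1 + 1 = s - i := by omega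
    rw [h1]
    have h2 : (b : ℝ) ^ m / (a : ℝ) ^ s < τ + η := by linarith [(abs_lt.1 hms).2]
    rw [div_lt_iff₀ (by positivity)] at h2
    have h3 : (a : ℝ) ^ s = (a : ℝ) ^ (s - i) * (a : ℝ) ^ i := by
      rw [← pow_add]; congr 1; omega
    calc (b : ℝ) ^ m ≤ (τ + η) * (a : ℝ) ^ s := h2.le
      _ = (τ + η) * (a : ℝ) ^ i * (a : ℝ) ^ (s - i) := by rw [h3]; ring
      _ ≤ (τ + η) * (a : ℝ) ^ I * (a : ℝ) ^ (s - i) := by
        have : (a : ℝ) ^ i ≤ (a : ℝ) ^ I := pow_le_pow_right₀ ha1 hi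
        gcongr
  · have h1 : s - i - 1 + 1 = s - i := by omega
    rw [h1]
    set θ : ℝ := (b : ℝ) ^ m / (a : ℝ) ^ s with hθ
    have h2 : (b : ℝ) ^ m * (1 / (a : ℝ) ^ (s - i)) = θ * (a : ℝ) ^ i := by
      have h3 : (a : ℝ) ^ s = (a : ℝ) ^ (s - i) * (a : ℝ) ^ i := by
        rw [← pow_add]; congr 1; omega
      rw [hθ, h3]; field_simp
    have h4 : |(θ - τ) * (a : ℝ) ^ i| < δ / 2 := by
      rw [abs_mul, abs_of_pos (by positivity : (0 : ℝ) < (a : ℝ) ^ i)]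
      calc |θ - τ| * (a : ℝ) ^ i ≤ |θ - τ| * (a : ℝ) ^ I := by
            have : (a : ℝ) ^ i ≤ (a : ℝ) ^ I := pow_le_pow_right₀ ha1 hi
            gcongr
        _ < η * (a : ℝ) ^ I := by
            have : (0 : ℝ) < (a : ℝ) ^ I := by positivity
            exact mul_lt_mul_of_pos_right hms this
        _ = δ / 2 := by rw [hη]; field_simp
    have h5 : (b : ℝ) ^ m * (p + 1 / (a : ℝ) ^ (s - i)) - z -
        ((⌊(a : ℝ) ^ i * τ⌋ - ⌊z - (b : ℝ) ^ m * p⌋ : ℤ) : ℝ) =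
        (θ - τ) * (a : ℝ) ^ i + (Int.fract ((a : ℝ) ^ i * τ) - Int.fract (z - (b : ℝ) ^ m * p)) := by
      rw [mul_add, h2]
      simp only [Int.fract]
      push_cast
      ring
    rw [h5]
    calc |(θ - τ) * (a : ℝ) ^ i + (Int.fract ((a : ℝ) ^ i * τ) - Int.fract (z - (b : ℝ) ^ m * p))|
        ≤ |(θ - τ) * (a : ℝ) ^ i| + |Int.fract ((a : ℝ) ^ i * τ) - Int.fract (z - (b : ℝ) ^ m * p)| :=
          abs_add_le _ _
      _ < δ := by linarith

end Pool.Agent.X101.SD
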