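import Mathlib
import Pool.Agent.X101.SD.Hit

set_option autoImplicit false

open MeasureTheory Filter Topology Set

namespace Pool.Agent.X101.SD

lemma resample_le {a : ℕ} (ν : ℕ → Measure (Fin a)) [∀ k, IsProbabilityMeasure (ν k)]
    (F : Finset ℕ) (A A' : Set (ℕ → Fin a)) (hA : MeasurableSet A) (hA' : MeasurableSet A')
    (κ : ENNReal) [DecidablePred (· ∈ A)] [DecidablePred (· ∈ A')]
    (h : ∀ ω, ∑ η : F → Fin a, (∏ i : F, ν i {η i}) * (if upd F η ω ∈ A then 1 else 0) ≤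
      if ω ∈ A' then κ else 0) :
    Measure.infinitePi ν A ≤ κ * Measure.infinitePi ν A' := by
  have h1 : Measure.infinitePi ν A =
      ∑ η : F → Fin a, (∏ i : F, ν i {η i}) * Measure.infinitePi ν (upd F η ⁻¹' A) := by
    conv_lhs => rw [← resample ν F]
    rw [Measure.finsetSum_apply]
    refine Finset.sum_congr rfl fun η _ => ?_
    rw [Measure.smul_apply, Measure.map_apply (measurable_upd F η) hA, smul_eq_mul]
  have h3 : ∀ η : F → Fin a, (∏ i : F, ν i {η i}) * Measure.infinitePi ν (upd F η ⁻¹' A) =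
      ∫⁻ ω, (∏ i : F, ν i {η i}) * (if upd F η ω ∈ A then 1 else 0) ∂(Measure.infinitePi ν) := by
    intro η
    have h4 : Measurable fun ω : ℕ → Fin a => (if upd F η ω ∈ A then (1 : ENNReal) else 0) :=
      Measurable.ite (measurable_upd F η hA) measurable_const measurable_const
    rw [lintegral_const_mul _ h4]
    congr 1
    have h5 : (fun ω : ℕ → Fin a => (if upd F η ω ∈ A then (1 : ENNReal) else 0)) =
        (upd F η ⁻¹' A).indicator 1 := by
      ext ω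
      simp only [Set.indicator, Set.mem_preimage, Pi.one_apply]
    rw [h5, lintegral_indicator_one (measurable_upd F η hA)]
  rw [h1, Finset.sum_congr rfl fun η _ => h3 η, ← lintegral_finsetSum]
  · calc ∫⁻ ω, ∑ η : F → Fin a, (∏ i : F, ν i {η i}) * (if upd F η ω ∈ A then 1 else 0)
          ∂(Measure.infinitePi ν)
        ≤ ∫⁻ ω, (if ω ∈ A' then κ else 0) ∂(Measure.infinitePi ν) := lintegral_mono h
      _ = κ * Measure.infinitePi ν A' := by
        have h5 : (fun ω : ℕ → Fin a => (if ω ∈ A' then κ else 0)) =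
            A'.indicator fun _ => κ := by
          ext ω
          simp only [Set.indicator]
        rw [h5, lintegral_indicator_const hA']
  · intro η _
    exact (Measurable.ite (measurable_upd F η hA) measurable_const measurable_const).const_mul _

lemma measurable_of_coords {a : ℕ} (A : Set (ℕ → Fin a)) (n : ℕ)
    (h : ∀ ω ω' : ℕ → Fin a, (∀ i < n, ω i = ω' i) → ω ∈ A → ω' ∈ A) : MeasurableSet A := by
  have h1 : A = (fun (ω : ℕ → Fin a) (i : Fin n) => ω i) ⁻¹'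
      ((fun (ω : ℕ → Fin a) (i : Fin n) => ω i) '' A) := by
    ext ω
    constructor
    · intro hω
      exact ⟨ω, hω, rfl⟩
    · rintro ⟨ω', hω', heq⟩
      refine h ω' ω (fun i hi => ?_) hω'
      exact congrFun heq ⟨i, hi⟩
  rw [h1]
  refine measurableSet_preimage ?_ (Set.toFinite _).measurableSet
  exact measurable_pi_lambda _ fun i => measurable_pi_apply _

/-- the number given by the digits before `n` -/
noncomputable def past {a : ℕ} (x₀ : ℝ) (n : ℕ) (ω : ℕ → Fin a) : ℝ :=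
  x₀ + ∑ k ∈ Finset.range n, ((ω k : ℕ) : ℝ) / (a : ℝ) ^ (k + 1)

/-- the digits in the block `[jT, (j+1)T)` are `1` at the place `κ` given by the past, and `0`
elsewhere -/
def Special {a : ℕ} (x₀ : ℝ) (κ : ℝ → ℕ → ℕ) (T j : ℕ) (ω : ℕ → Fin a) : Prop :=
  ∀ i, j * T ≤ i → i < (j + 1) * T →
    (ω i : ℕ) = if i = κ (past x₀ (j * T) ω) (j * T) then 1 else 0

lemma past_congr {a : ℕ} (x₀ : ℝ) (n : ℕ) {ω ω' : ℕ → Fin a} (h : ∀ i < n, ω i = ω' i) :
    past x₀ n ω = past x₀ n ω' := by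
  unfold past
  congr 1
  refine Finset.sum_congr rfl fun k hk => ?_
  rw [h k (Finset.mem_range.1 hk)]

lemma special_congr {a : ℕ} (x₀ : ℝ) (κ : ℝ → ℕ → ℕ) (T j : ℕ) {ω ω' : ℕ → Fin a}
    (h : ∀ i < (j + 1) * T, ω i = ω' i) (hs : Special x₀ κ T j ω) : Special x₀ κ T j ω' := by
  intro i h1 h2
  have hle : j * T ≤ (j + 1) * T := Nat.mul_le_mul_right _ (by omega)
  rw [← past_congr x₀ (j * T) (fun i hi => h i (lt_of_lt_of_le hi hle)), ← h i h2]
  exact hs i h1 h2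

/-- no special block among the first `J` blocks -/
def NoSp {a : ℕ} (x₀ : ℝ) (κ : ℝ → ℕ → ℕ) (T J : ℕ) : Set (ℕ → Fin a) :=
  {ω | ∀ j < J, ¬ Special x₀ κ T j ω}

lemma nosp_congr {a : ℕ} (x₀ : ℝ) (κ : ℝ → ℕ → ℕ) (T J : ℕ) {ω ω' : ℕ → Fin a}
    (h : ∀ i < J * T, ω i = ω' i) (hs : ω ∈ NoSp x₀ κ T J) : ω' ∈ NoSp x₀ κ T J := by
  intro j hj hsp
  refine hs j hj (special_congr x₀ κ T j (fun i hi => (h i ?_).symm) hsp)
  exact lt_of_lt_of_le hi (Nat.mul_le_mul_right _ (by omega))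

lemma step {a : ℕ} (ha : 2 ≤ a) (x₀ : ℝ) (κ : ℝ → ℕ → ℕ) {T : ℕ}
    (hκ : ∀ p n, n ≤ κ p n ∧ κ p n < n + T) (J : ℕ)
    (ν : ℕ → Measure (Fin a)) [∀ k, IsProbabilityMeasure (ν k)] {c q : ENNReal}
    (hc : ∀ i, c ≤ ν i {⟨0, by omega⟩}) (hc1 : c ≤ 1)
    (hq : ∀ i, J * T ≤ i → i < (J + 1) * T → q ≤ ν i {⟨1, by omega⟩}) :
    Measure.infinitePi ν (NoSp x₀ κ T (J + 1)) ≤
      (1 - q * c ^ T) * Measure.infinitePi ν (NoSp x₀ κ T J) := by
  classical
  set F : Finset ℕ := Finset.Ico (J * T) ((J + 1) * T) with hF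
  have hJT : J * T + T = (J + 1) * T := by ring
  refine resample_le ν F _ _ (measurable_of_coords _ ((J + 1) * T) fun ω ω' h => nosp_congr x₀ κ T _ h)
    (measurable_of_coords _ (J * T) fun ω ω' h => nosp_congr x₀ κ T _ h) _ fun ω => ?_
  -- agreement before the block
  have hbefore : ∀ η : F → Fin a, ∀ i < J * T, upd F η ω i = ω i := by
    intro η i hi
    have : i ∉ F := by rw [hF, Finset.mem_Ico]; omega
    simp [upd, this]
  have hA : ∀ η : F → Fin a, upd F η ω ∈ NoSp x₀ κ T (J + 1) →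
      ω ∈ NoSp x₀ κ T J ∧ ¬ Special x₀ κ T J (upd F η ω) := by
    intro η h
    refine ⟨?_, h J (by omega)⟩
    have h1 : upd F η ω ∈ NoSp x₀ κ T J := fun j hj => h j (by omega)
    exact nosp_congr x₀ κ T J (hbefore η) h1
  by_cases hω : ω ∈ NoSp x₀ κ T J
  swap
  · rw [if_neg hω]
    refine le_of_eq (Finset.sum_eq_zero fun η _ => ?_)
    rw [if_neg fun h => hω (hA η h).1, mul_zero]
  rw [if_pos hω]
  -- the special pattern
  set k₀ : ℕ := κ (past x₀ (J * T) ω) (J * T) with hk₀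
  obtain ⟨hk1, hk2⟩ := hκ (past x₀ (J * T) ω) (J * T)
  set pat : F → Fin a := fun i => if (i : ℕ) = k₀ then ⟨1, by omega⟩ else ⟨0, by omega⟩ with hpat
  have hspec : Special x₀ κ T J (upd F pat ω) := by
    intro i h1 h2
    have hiF : i ∈ F := by rw [hF, Finset.mem_Ico]; exact ⟨h1, h2⟩
    rw [past_congr x₀ (J * T) (hbefore pat), ← hk₀]
    simp only [upd, hiF, dif_pos, hpat]
    split_ifs <;> rfl
  have hsum1 : ∑ η : F → Fin a, ∏ i : F, ν i {η i} = 1 := by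
    have h0 : ∏ i : F, ∑ d : Fin a, ν i {d} = ∑ η : F → Fin a, ∏ i : F, ν i {η i} := by
      rw [Finset.prod_univ_sum, Fintype.piFinset_univ]
    rw [← h0]
    refine Finset.prod_eq_one fun i _ => ?_
    rw [sum_measure_singleton]
    simp
  have hw : q * c ^ T ≤ ∏ i : F, ν i {pat i} := by
    have hkF : k₀ ∈ F := by rw [hF, Finset.mem_Ico]; omega
    rw [← Finset.mul_prod_erase Finset.univ _ (Finset.mem_univ (⟨k₀, hkF⟩ : F))]
    refine mul_le_mul' ?_ ?_
    · simp only [hpat, if_true]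
      exact hq k₀ hk1 (by omega)
    · have h1 : ∀ i ∈ Finset.univ.erase (⟨k₀, hkF⟩ : F), c ≤ ν i {pat i} := by
        intro i hi
        have hne : (i : ℕ) ≠ k₀ := fun h => Finset.ne_of_mem_erase hi (Subtype.ext h)
        simp only [hpat, hne, if_false]
        exact hc i
      refine le_trans ?_ (Finset.prod_le_prod' h1)
      rw [Finset.prod_const]
      refine pow_le_pow_right_of_le_one' hc1 ?_
      rw [Finset.card_erase_of_mem (Finset.mem_univ _), Finset.card_univ, Fintype.card_coe, hF,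
        Nat.card_Ico]
      omega
  have hle : ∑ η : F → Fin a, (∏ i : F, ν i {η i}) *
      (if upd F η ω ∈ NoSp x₀ κ T (J + 1) then 1 else 0) ≤
      ∑ η ∈ Finset.univ.erase pat, ∏ i : F, ν i {η i} := by
    rw [← Finset.add_sum_erase Finset.univ _ (Finset.mem_univ pat)]
    rw [if_neg fun h => (hA pat h).2 hspec, mul_zero, zero_add]
    refine Finset.sum_le_sum fun η _ => ?_
    split_ifs
    · rw [mul_one]
    · rw [mul_zero]; exact zero_le
  refine hle.trans ?_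
  have h2 := Finset.add_sum_erase Finset.univ (fun η : F → Fin a => ∏ i : F, ν i {η i})
    (Finset.mem_univ pat)
  rw [hsum1] at h2
  have hfin : ∏ i : F, ν i {pat i} ≠ ⊤ := ENNReal.prod_ne_top fun i _ => measure_ne_top _ _
  have h3 : ∑ η ∈ Finset.univ.erase pat, ∏ i : F, ν i {η i} = 1 - ∏ i : F, ν i {pat i} :=
    ENNReal.eq_sub_of_add_eq hfin (by rw [add_comm]; exact h2)
  rw [h3]
  exact tsub_le_tsub_left hw 1

lemma tail_le {a : ℕ} (ha : 2 ≤ a) (ω : ℕ → Fin a) (n : ℕ) :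
    0 ≤ ∑' k, ((ω (k + n) : ℕ) : ℝ) / (a : ℝ) ^ (k + n + 1) ∧
      ∑' k, ((ω (k + n) : ℕ) : ℝ) / (a : ℝ) ^ (k + n + 1) ≤ 1 / (a : ℝ) ^ n := by
  have ha0 : (0 : ℝ) < a := by positivity
  have ha1 : (1 : ℝ) < a := by exact_mod_cast (by omega : 1 < a)
  refine ⟨tsum_nonneg fun k => by positivity, ?_⟩
  have h5 : HasSum (fun k : ℕ => (1 / (a : ℝ)) ^ (n + 1) * (a - 1) * (1 / (a : ℝ)) ^ k)
      ((1 / (a : ℝ)) ^ (n + 1) * (a - 1) * (1 - 1 / (a : ℝ))⁻¹) :=
    (hasSum_geometric_of_lt_one (by positivity) (by rw [div_lt_one ha0]; exact ha1)).mul_left _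
  have h6 : (1 / (a : ℝ)) ^ (n + 1) * (a - 1) * (1 - 1 / (a : ℝ))⁻¹ = 1 / (a : ℝ) ^ n := by
    have : (a : ℝ) - 1 ≠ 0 := by linarith
    rw [one_sub_div ha0.ne', inv_div, pow_succ, div_pow, one_pow]
    field_simp
  rw [h6] at h5
  rw [← h5.tsum_eq]
  refine Summable.tsum_le_tsum (fun k => ?_) ?_ h5.summable
  · have h7 : ((ω (k + n) : ℕ) : ℝ) ≤ a - 1 := by
      have := (ω (k + n)).2
      have h8 : (ω (k + n) : ℕ) + 1 ≤ a := this
      have h9 : ((ω (k + n) : ℕ) : ℝ) + 1 ≤ a := by exact_mod_cast h8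
      linarith
    have h8 : (1 / (a : ℝ)) ^ (n + 1) * (a - 1) * (1 / (a : ℝ)) ^ k =
        ((a : ℝ) - 1) / (a : ℝ) ^ (k + n + 1) := by
      rw [div_pow, div_pow, one_pow, one_pow, pow_add, pow_add, pow_add]
      field_simp
    rw [h8]
    gcongr
  · exact (summable_nat_add_iff n).2 (summable_val ha ω)

lemma val_eq_past {a : ℕ} (ha : 2 ≤ a) (x₀ : ℝ) (ω : ℕ → Fin a) (n : ℕ) :
    x₀ + val a ω = past x₀ n ω + ∑' k, ((ω (k + n) : ℕ) : ℝ) / (a : ℝ) ^ (k + n + 1) := by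
  unfold val past
  rw [← (summable_val ha ω).sum_add_tsum_nat_add n]
  ring

lemma hit_special {a b : ℕ} (ha : 2 ≤ a) (x₀ : ℝ) (κ : ℝ → ℕ → ℕ) {L g : ℕ} {C : ℝ} (hC : 0 < C)
    {z δ : ℝ} (hκ : ∀ (p : ℝ) (n : ℕ), n ≤ κ p n ∧ κ p n < n + L ∧
      ∃ (m : ℕ) (l : ℤ), (b : ℝ) ^ m ≤ C * (a : ℝ) ^ (κ p n + 1) ∧
        |(b : ℝ) ^ m * (p + 1 / (a : ℝ) ^ (κ p n + 1)) - z - l| < δ)
    (hg : C / (a : ℝ) ^ g ≤ δ) {j : ℕ} {ω : ℕ → Fin a} (hs : Special x₀ κ (L + g) j ω) :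
    ∃ (m : ℕ) (l : ℤ), |(b : ℝ) ^ m * (x₀ + val a ω) - z - l| < 2 * δ := by
  have ha0 : (0 : ℝ) < a := by positivity
  set T := L + g with hT
  have hJT : j * T + T = (j + 1) * T := by ring
  set p := past x₀ (j * T) ω with hp
  obtain ⟨h1, h2, m, l, h3, h4⟩ := hκ p (j * T)
  set k₀ := κ p (j * T) with hk₀
  refine ⟨m, l, ?_⟩
  have h5 : past x₀ ((j + 1) * T) ω = p + 1 / (a : ℝ) ^ (k₀ + 1) := by
    rw [hp]
    unfold past
    rw [← hJT, Finset.sum_range_add, ← add_assoc]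
    congr 1
    rw [Finset.sum_eq_single (k₀ - j * T)]
    · have h6 : j * T + (k₀ - j * T) = k₀ := by omega
      have h7 := hs k₀ h1 (by omega)
      rw [if_pos (by rw [hk₀, hp])] at h7
      rw [h6, h7]
      simp
    · intro i hi hne
      rw [Finset.mem_range] at hi
      have h7 := hs (j * T + i) (by omega) (by omega)
      rw [if_neg (by rw [← hp, ← hk₀]; omega)] at h7
      rw [h7]; simp
    · intro h
      exfalso
      apply h
      rw [Finset.mem_range]; omega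
  obtain ⟨h6, h7⟩ := tail_le ha ω ((j + 1) * T)
  rw [val_eq_past ha x₀ ω ((j + 1) * T), h5]
  set tl := ∑' k, ((ω (k + (j + 1) * T) : ℕ) : ℝ) / (a : ℝ) ^ (k + (j + 1) * T + 1) with htl
  have h8 : (b : ℝ) ^ m * tl ≤ δ := by
    calc (b : ℝ) ^ m * tl ≤ (C * (a : ℝ) ^ (k₀ + 1)) * (1 / (a : ℝ) ^ ((j + 1) * T)) := by
          gcongr
      _ ≤ C / (a : ℝ) ^ g := by
          have h9 : (a : ℝ) ^ (k₀ + 1) * (a : ℝ) ^ g ≤ (a : ℝ) ^ ((j + 1) * T) := by
            rw [← pow_add]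
            exact pow_le_pow_right₀ (by exact_mod_cast (by omega : 1 ≤ a)) (by omega)
          rw [mul_one_div, div_le_div_iff₀ (by positivity) (by positivity)]
          nlinarith
      _ ≤ δ := hg
  have h9 : 0 ≤ (b : ℝ) ^ m * tl := by positivity
  have h10 : (b : ℝ) ^ m * (p + 1 / (a : ℝ) ^ (k₀ + 1) + tl) - z - l =
      ((b : ℝ) ^ m * (p + 1 / (a : ℝ) ^ (k₀ + 1)) - z - l) + (b : ℝ) ^ m * tl := by ring
  rw [h10]
  rw [abs_lt] at h4 ⊢
  constructor <;> linarith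

lemma not_summable_sub {q : ℕ → ℝ} (hq : Antitone q) (hq0 : ∀ s, 0 ≤ q s) (hdiv : ¬ Summable q)
    {T : ℕ} (hT : 0 < T) : ¬ Summable fun j : ℕ => q ((j + 1) * T) := by
  intro hs
  apply hdiv
  have h1 : ∀ n : ℕ, ∑ i ∈ Finset.range n, q (i + T) ≤ T * ∑' j : ℕ, q ((j + 1) * T) := by
    intro n
    have h2 : ∑ i ∈ Finset.range n, q (i + T) ≤ ∑ i ∈ Finset.range (n * T), q (i + T) := by
      refine Finset.sum_le_sum_of_subset_of_nonneg ?_ fun i _ _ => hq0 _
      intro i hi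
      rw [Finset.mem_range] at hi ⊢
      exact lt_of_lt_of_le hi (Nat.le_mul_of_pos_right _ hT)
    have h3 : ∀ k : ℕ, ∑ i ∈ Finset.range (k * T), q (i + T) ≤
        T * ∑ j ∈ Finset.range k, q ((j + 1) * T) := by
      intro k
      induction k with
      | zero => simp
      | succ k ih =>
        rw [Nat.succ_mul, Finset.sum_range_add, Finset.sum_range_succ, mul_add]
        refine add_le_add ih ?_
        calc ∑ x ∈ Finset.range T, q (k * T + x + T) ≤ ∑ _x ∈ Finset.range T, q ((k + 1) * T) := by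
              refine Finset.sum_le_sum fun x _ => hq ?_
              rw [Nat.succ_mul]; omega
          _ = T * q ((k + 1) * T) := by simp
    refine h2.trans ((h3 n).trans ?_)
    gcongr
    exact hs.sum_le_tsum _ fun j _ => hq0 _
  have h2 : Summable fun i => q (i + T) :=
    summable_of_sum_range_le (fun i => hq0 _) h1
  exact (summable_nat_add_iff T).1 h2

theorem ae_special {a : ℕ} (ha : 2 ≤ a) (x₀ : ℝ) (κ : ℝ → ℕ → ℕ) {T : ℕ} (hT : 0 < T)
    (hκ : ∀ p n, n ≤ κ p n ∧ κ p n < n + T)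
    (ν : ℕ → Measure (Fin a)) [∀ k, IsProbabilityMeasure (ν k)] {c : ℝ} (hc0 : 0 < c)
    {q : ℕ → ℝ} (hq : Antitone q) (hq0 : ∀ s, 0 ≤ q s) (hdiv : ¬ Summable q)
    (h0 : ∀ s, ENNReal.ofReal c ≤ ν s {⟨0, by omega⟩})
    (h1 : ∀ s, ENNReal.ofReal (q s) ≤ ν s {⟨1, by omega⟩}) :
    ∀ᵐ ω ∂(Measure.infinitePi ν), ∃ j, Special x₀ κ T j ω := by
  have hc1 : ENNReal.ofReal c ≤ 1 := (h0 0).trans prob_le_one
  have hcr : c ≤ 1 := by
    have := ENNReal.ofReal_le_one.1 hc1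
    exact this
  have hq1 : ∀ s, q s ≤ 1 := fun s => ENNReal.ofReal_le_one.1 ((h1 s).trans prob_le_one)
  have hbound : ∀ J : ℕ, Measure.infinitePi ν (NoSp x₀ κ T J) ≤
      ENNReal.ofReal (Real.exp (-(c ^ T * ∑ j ∈ Finset.range J, q ((j + 1) * T)))) := by
    intro J
    induction J with
    | zero => simpa using prob_le_one
    | succ J ih =>
      have h2 := step ha x₀ κ hκ J ν (c := ENNReal.ofReal c) (q := ENNReal.ofReal (q ((J + 1) * T)))
        h0 hc1 (fun i _ hi => (ENNReal.ofReal_le_ofReal (hq hi.le)).trans (h1 i))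
      refine h2.trans ?_
      have h3 : (1 : ENNReal) - ENNReal.ofReal (q ((J + 1) * T)) * ENNReal.ofReal c ^ T ≤
          ENNReal.ofReal (Real.exp (-(c ^ T * q ((J + 1) * T)))) := by
        rw [← ENNReal.ofReal_pow hc0.le, ← ENNReal.ofReal_mul (hq0 _), ← ENNReal.ofReal_one,
          ← ENNReal.ofReal_sub _ (by have := hq0 ((J + 1) * T); positivity)]
        refine ENNReal.ofReal_le_ofReal ?_
        have := Real.add_one_le_exp (-(c ^ T * q ((J + 1) * T)))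
        linarith
      calc (1 - ENNReal.ofReal (q ((J + 1) * T)) * ENNReal.ofReal c ^ T) *
            Measure.infinitePi ν (NoSp x₀ κ T J)
          ≤ ENNReal.ofReal (Real.exp (-(c ^ T * q ((J + 1) * T)))) *
            ENNReal.ofReal (Real.exp (-(c ^ T * ∑ j ∈ Finset.range J, q ((j + 1) * T)))) :=
            mul_le_mul' h3 ih
        _ = _ := by
            rw [← ENNReal.ofReal_mul (Real.exp_pos _).le, ← Real.exp_add, Finset.sum_range_succ]
            congr 2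
            ring
  have htend : Tendsto (fun J : ℕ => ENNReal.ofReal
      (Real.exp (-(c ^ T * ∑ j ∈ Finset.range J, q ((j + 1) * T))))) atTop (𝓝 0) := by
    rw [← ENNReal.ofReal_zero]
    refine ENNReal.tendsto_ofReal ?_
    refine Real.tendsto_exp_neg_atTop_nhds_zero.comp ?_
    refine Tendsto.const_mul_atTop (by positivity) ?_
    exact (not_summable_iff_tendsto_nat_atTop_of_nonneg (fun j => hq0 _)).1
      (not_summable_sub hq hq0 hdiv hT)
  have hzero : Measure.infinitePi ν {ω | ¬ ∃ j, Special x₀ κ T j ω} = 0 := by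
    refine le_antisymm (ge_of_tendsto' htend fun J => ?_) zero_le
    refine le_trans (measure_mono ?_) (hbound J)
    intro ω hω j _ hsp
    exact hω ⟨j, hsp⟩
  rw [ae_iff]
  exact hzero

theorem ae_dense {a : ℕ} (ha : 2 ≤ a) (x₀ : ℝ)
    (ν : ℕ → Measure (Fin a)) [∀ k, IsProbabilityMeasure (ν k)] {c : ℝ} (hc0 : 0 < c)
    {q : ℕ → ℝ} (hq : Antitone q) (hq0 : ∀ s, 0 ≤ q s) (hdiv : ¬ Summable q)
    (h0 : ∀ s, ENNReal.ofReal c ≤ ν s {⟨0, by omega⟩})
    (h1 : ∀ s, ENNReal.ofReal (q s) ≤ ν s {⟨1, by omega⟩}) :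
    ∀ᵐ ω ∂(Measure.infinitePi ν), ∀ b : ℕ, 2 ≤ b → MI a b → Orb b (x₀ + val a ω) = Icc 0 1 := by
  have ha0 : (0 : ℝ) < a := by positivity
  have ha1 : (1 : ℝ) < a := by exact_mod_cast (by omega : 1 < a)
  have key : ∀ᵐ ω ∂(Measure.infinitePi ν), ∀ b : ℕ, ∀ z : ℚ, ∀ k : ℕ, 2 ≤ b → MI a b →
      ∃ (m : ℕ) (l : ℤ), |(b : ℝ) ^ m * (x₀ + val a ω) - z - l| < 2 * (1 / ((k : ℝ) + 1)) := by
    rw [ae_all_iff]; intro b
    rw [ae_all_iff]; intro z
    rw [ae_all_iff]; intro k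
    by_cases hb : 2 ≤ b ∧ MI a b
    swap
    · exact Eventually.of_forall fun ω h1 h2 => absurd ⟨h1, h2⟩ hb
    obtain ⟨hb, hab⟩ := hb
    obtain ⟨L, C, hC, hL, hhit⟩ := hit ha hb hab z (δ := 1 / ((k : ℝ) + 1)) (by positivity)
    choose κ hκ using hhit
    obtain ⟨g, hg⟩ : ∃ g : ℕ, C / (a : ℝ) ^ g ≤ 1 / ((k : ℝ) + 1) := by
      obtain ⟨g, hg⟩ := exists_pow_lt_of_lt_one (x := 1 / ((k : ℝ) + 1) / C) (by positivity)
        (by rw [div_lt_one ha0]; exact ha1 : 1 / (a : ℝ) < 1)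
      refine ⟨g, ?_⟩
      rw [div_pow, one_pow, lt_div_iff₀ hC] at hg
      calc C / (a : ℝ) ^ g = 1 / (a : ℝ) ^ g * C := by ring
        _ ≤ _ := hg.le
    filter_upwards [ae_special ha x₀ κ (T := L + g) (by omega)
      (fun p n => ⟨(hκ p n).1, by have := (hκ p n).2.1; omega⟩) ν hc0 hq hq0 hdiv h0 h1] with ω hω _ _
    obtain ⟨j, hj⟩ := hω
    exact hit_special ha x₀ κ hC hκ hg hj
  filter_upwards [key] with ω hω b hb hab
  refine Subset.antisymm (orb_subset b _) ?_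
  have h2 : Ioo (0 : ℝ) 1 ⊆ Orb b (x₀ + val a ω) := by
    intro y hy
    unfold Orb
    rw [Metric.mem_closure_iff]
    intro ε hε
    set ρ : ℝ := min ε (min y (1 - y)) with hρ
    have hρ0 : 0 < ρ := lt_min hε (lt_min hy.1 (by linarith [hy.2]))
    have hρ1 : ρ ≤ ε := min_le_left _ _
    have hρ2 : ρ ≤ y := (min_le_right _ _).trans (min_le_left _ _)
    have hρ3 : ρ ≤ 1 - y := (min_le_right _ _).trans (min_le_right _ _)
    obtain ⟨z, hz1, hz2⟩ := exists_rat_btwn (by linarith : y - ρ / 4 < y + ρ / 4)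
    obtain ⟨k, hk⟩ := exists_nat_one_div_lt (by positivity : 0 < ρ / 8)
    obtain ⟨m, l, hm⟩ := hω b z k hb hab
    have h3 : |(b : ℝ) ^ m * (x₀ + val a ω) - z - l| < ρ / 4 := by linarith
    rw [abs_lt] at h3
    have h4 : Int.fract ((b : ℝ) ^ m * (x₀ + val a ω)) = (b : ℝ) ^ m * (x₀ + val a ω) - l := by
      rw [Int.fract_eq_iff]
      refine ⟨by linarith, by linarith, l, by ring⟩
    refine ⟨_, ⟨m, rfl⟩, ?_⟩
    simp only
    rw [h4, Real.dist_eq, abs_lt]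
    constructor <;> linarith
  rw [(closure_Ioo (by norm_num : (0 : ℝ) ≠ 1)).symm]
  exact closure_minimal h2 isClosed_closure

end Pool.Agent.X101.SD
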