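import Mathlib
import Pool.Agent.X101.SD.Blocks

set_option autoImplicit false

open MeasureTheory Filter Topology Set

namespace Pool.Agent.X101.SD

lemma ae_sparse {a : ℕ} (ν : ℕ → Measure (Fin a)) [∀ k, IsProbabilityMeasure (ν k)]
    (hs : ∑' k, (ν k {d | (d : ℕ) ≠ 0}) ^ 2 ≠ ⊤) :
    ∀ᵐ ω ∂(Measure.infinitePi ν), Sparse fun k => ((ω k : ℕ) : ℤ) := by
  set ρ : ℕ → ENNReal := fun k => ν k {d | (d : ℕ) ≠ 0} with hρ
  have key : ∀ r : ℕ, 1 ≤ r → ∀ᵐ ω ∂(Measure.infinitePi ν),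
      ∀ᶠ k in atTop, ω ∉ {ω : ℕ → Fin a | (ω k : ℕ) ≠ 0 ∧ (ω (k + r) : ℕ) ≠ 0} := by
    intro r hr
    refine ae_eventually_notMem ?_
    have h1 : ∀ k, Measure.infinitePi ν {ω : ℕ → Fin a | (ω k : ℕ) ≠ 0 ∧ (ω (k + r) : ℕ) ≠ 0} =
        ρ k * ρ (k + r) := by
      intro k
      have h2 : {ω : ℕ → Fin a | (ω k : ℕ) ≠ 0 ∧ (ω (k + r) : ℕ) ≠ 0} =
          Set.pi (({k, k + r} : Finset ℕ) : Set ℕ) (fun _ => {d : Fin a | (d : ℕ) ≠ 0}) := by
        ext ω
        simp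
      rw [h2, Measure.infinitePi_pi ν (fun i _ => (Set.toFinite _).measurableSet),
        Finset.prod_pair (by omega)]
    have h3 : ∀ k, ρ k * ρ (k + r) ≤ ρ k ^ 2 + ρ (k + r) ^ 2 := by
      intro k
      rcases le_total (ρ k) (ρ (k + r)) with h | h
      · calc ρ k * ρ (k + r) ≤ ρ (k + r) * ρ (k + r) := by gcongr
          _ = ρ (k + r) ^ 2 := by ring
          _ ≤ _ := le_add_self
      · calc ρ k * ρ (k + r) ≤ ρ k * ρ k := by gcongr
          _ = ρ k ^ 2 := by ring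
          _ ≤ _ := le_self_add
    have h4 : ∑' k, Measure.infinitePi ν {ω : ℕ → Fin a | (ω k : ℕ) ≠ 0 ∧ (ω (k + r) : ℕ) ≠ 0} ≤
        ∑' k, ρ k ^ 2 + ∑' k, ρ (k + r) ^ 2 := by
      rw [← ENNReal.tsum_add]
      exact ENNReal.tsum_le_tsum fun k => by rw [h1]; exact h3 k
    have h5 : ∑' k, ρ (k + r) ^ 2 ≤ ∑' k, ρ k ^ 2 :=
      ENNReal.tsum_comp_le_tsum_of_injective (f := fun k => k + r) (fun i j h => by simpa using h)
        (fun k => ρ k ^ 2)
    exact ne_top_of_le_ne_top (ENNReal.add_ne_top.2 ⟨hs, ne_top_of_le_ne_top hs h5⟩) h4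
  have key2 : ∀ᵐ ω ∂(Measure.infinitePi ν), ∀ r : ℕ, 1 ≤ r →
      ∀ᶠ k in atTop, ω ∉ {ω : ℕ → Fin a | (ω k : ℕ) ≠ 0 ∧ (ω (k + r) : ℕ) ≠ 0} := by
    rw [ae_all_iff]
    intro r
    by_cases hr : 1 ≤ r
    · filter_upwards [key r hr] with ω hω _
      exact hω
    · exact Eventually.of_forall fun ω h => absurd h hr
  filter_upwards [key2] with ω hω g
  have h1 : ∀ r : ℕ, ∃ K : ℕ, 1 ≤ r → ∀ k ≥ K, ¬ ((ω k : ℕ) ≠ 0 ∧ (ω (k + r) : ℕ) ≠ 0) := by
    intro r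
    by_cases hr : 1 ≤ r
    · obtain ⟨K, hK⟩ := eventually_atTop.1 (hω r hr)
      exact ⟨K, fun _ k hk => hK k hk⟩
    · exact ⟨0, fun h => absurd h hr⟩
  choose K hK using h1
  refine ⟨(Finset.range g).sup K, fun i j hi hij h2 h3 => ?_⟩
  by_contra hcon
  push Not at hcon
  have h4 := hK (j - i) (by omega) i
    ((Finset.le_sup (f := K) (Finset.mem_range.2 (by omega : j - i < g))).trans hi)
  have h5 : i + (j - i) = j := by omega
  rw [h5] at h4
  exact h4 ⟨by simpa using h2, by simpa using h3⟩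

theorem ae_dim {a : ℕ} (ha : 2 ≤ a) (x₀ : ℝ) (ν : ℕ → Measure (Fin a))
    [∀ k, IsProbabilityMeasure (ν k)] (hs : ∑' k, (ν k {d | (d : ℕ) ≠ 0}) ^ 2 ≠ ⊤) :
    ∀ᵐ ω ∂(Measure.infinitePi ν), dimH (Orb a (x₀ + val a ω)) = dimH (Orb a x₀) := by
  filter_upwards [ae_sparse ν hs] with ω hω
  have h3 := dimH_sparse ha x₀ (fun k => ((ω k : ℕ) : ℤ)) a (fun i => by
      have := (ω i).2
      rw [abs_of_nonneg (by positivity)]
      omega) hω
  simp only [Int.cast_natCast] at h3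
  exact h3

/-- the digit at place `k` is `1` with probability `1/(k+2)` and `0` otherwise -/
noncomputable def harm (a : ℕ) (ha : 2 ≤ a) (k : ℕ) : Measure (Fin a) :=
  ENNReal.ofReal (1 - 1 / ((k : ℝ) + 2)) • Measure.dirac ⟨0, by omega⟩ +
    ENNReal.ofReal (1 / ((k : ℝ) + 2)) • Measure.dirac ⟨1, by omega⟩

lemma harm_aux (k : ℕ) : 0 < 1 / ((k : ℝ) + 2) ∧ 1 / ((k : ℝ) + 2) ≤ 1 / 2 := by
  refine ⟨by positivity, ?_⟩
  have : (0 : ℝ) ≤ k := by positivity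
  gcongr
  linarith

instance harm_prob (a : ℕ) (ha : 2 ≤ a) (k : ℕ) : IsProbabilityMeasure (harm a ha k) := by
  constructor
  obtain ⟨h1, h2⟩ := harm_aux k
  simp only [harm, Measure.add_apply, Measure.smul_apply, measure_univ, smul_eq_mul, mul_one]
  rw [← ENNReal.ofReal_add (by linarith) h1.le]
  simp

lemma harm_zero (a : ℕ) (ha : 2 ≤ a) (k : ℕ) :
    harm a ha k {⟨0, by omega⟩} = ENNReal.ofReal (1 - 1 / ((k : ℝ) + 2)) := by
  have h : ¬ (⟨1, by omega⟩ : Fin a) = ⟨0, by omega⟩ := by intro h; simp at h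
  simp only [harm, Measure.add_apply, Measure.smul_apply, smul_eq_mul,
    Measure.dirac_apply' _ (measurableSet_singleton _), Set.indicator, Set.mem_singleton_iff,
    Pi.one_apply, h, if_true, if_false, mul_one, mul_zero, add_zero]

lemma harm_one (a : ℕ) (ha : 2 ≤ a) (k : ℕ) :
    harm a ha k {⟨1, by omega⟩} = ENNReal.ofReal (1 / ((k : ℝ) + 2)) := by
  have h : ¬ (⟨0, by omega⟩ : Fin a) = ⟨1, by omega⟩ := by intro h; simp at h
  simp only [harm, Measure.add_apply, Measure.smul_apply, smul_eq_mul,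
    Measure.dirac_apply' _ (measurableSet_singleton _), Set.indicator, Set.mem_singleton_iff,
    Pi.one_apply, h, if_true, if_false, mul_one, mul_zero, zero_add]

lemma harm_ne (a : ℕ) (ha : 2 ≤ a) (k : ℕ) :
    harm a ha k {d | (d : ℕ) ≠ 0} = ENNReal.ofReal (1 / ((k : ℝ) + 2)) := by
  simp only [harm, Measure.add_apply, Measure.smul_apply, smul_eq_mul,
    Measure.dirac_apply' _ (Set.toFinite _).measurableSet, Set.indicator,
    Set.mem_ofPred_eq, Pi.one_apply]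
  simp

theorem harm_all {a : ℕ} (ha : 2 ≤ a) (x₀ : ℝ) :
    ∀ᵐ ω ∂(Measure.infinitePi (harm a ha)), dimH (Orb a (x₀ + val a ω)) = dimH (Orb a x₀) ∧
      ∀ b : ℕ, 2 ≤ b → MI a b → Orb b (x₀ + val a ω) = Icc 0 1 := by
  have h1 : ∑' k, (harm a ha k {d | (d : ℕ) ≠ 0}) ^ 2 ≠ ⊤ := by
    have h2 : Summable fun k : ℕ => (1 / ((k : ℝ) + 2)) ^ 2 := by
      have h3 : Summable fun k : ℕ => 1 / ((k : ℝ)) ^ 2 := Real.summable_one_div_nat_pow.2 (by norm_num)
      have h4 := (summable_nat_add_iff 2).2 h3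
      refine h4.congr fun k => ?_
      rw [div_pow, one_pow]; push_cast; rfl
    have h3 : ∀ k : ℕ, (harm a ha k {d | (d : ℕ) ≠ 0}) ^ 2 =
        ENNReal.ofReal ((1 / ((k : ℝ) + 2)) ^ 2) := fun k => by
      rw [harm_ne, ENNReal.ofReal_pow (harm_aux k).1.le]
    rw [tsum_congr h3, ← ENNReal.ofReal_tsum_of_nonneg (fun k => by positivity) h2]
    exact ENNReal.ofReal_ne_top
  have h2 := ae_dense ha x₀ (harm a ha) (c := 1 / 2) (by norm_num)
    (q := fun s => 1 / ((s : ℝ) + 2)) (fun s t hst => by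
      have : (s : ℝ) ≤ t := by exact_mod_cast hst
      simp only
      gcongr) (fun s => (harm_aux s).1.le) (by
      intro h
      have h3 : Summable fun k : ℕ => 1 / (((k + 2 : ℕ)) : ℝ) := by
        refine h.congr fun k => ?_
        push_cast; rfl
      exact Real.not_summable_one_div_natCast ((summable_nat_add_iff 2).1 h3))
    (fun s => by
      rw [harm_zero]
      refine ENNReal.ofReal_le_ofReal ?_
      linarith [(harm_aux s).2])
    (fun s => by rw [harm_one])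
  filter_upwards [ae_dim ha x₀ (harm a ha) h1, h2] with ω h3 h4
  exact ⟨h3, h4⟩

theorem near {a : ℕ} (ha : 2 ≤ a) (x₀ : ℝ) {ε : ℝ} (hε : 0 < ε) :
    ∃ y : ℝ, |y - x₀| < ε ∧ dimH (Orb a y) = dimH (Orb a x₀) ∧
      ∀ b : ℕ, 2 ≤ b → MI a b → Orb b y = Icc 0 1 := by
  have ha0 : (0 : ℝ) < a := by positivity
  have ha1 : (1 : ℝ) < a := by exact_mod_cast (by omega : 1 < a)
  obtain ⟨K, hK⟩ : ∃ K : ℕ, (1 / (a : ℝ)) ^ K < ε := exists_pow_lt_of_lt_one hε
      (by rw [div_lt_one ha0]; exact ha1)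
  have h1 := harm_all ha x₀
  have h2 : Measure.infinitePi (harm a ha)
      (Set.pi (Finset.range K : Set ℕ) fun _ => {⟨0, by omega⟩}) ≠ 0 := by
    rw [Measure.infinitePi_pi _ (fun i _ => measurableSet_singleton _), Finset.prod_ne_zero_iff]
    intro i _
    rw [harm_zero]
    have := (harm_aux i).2
    rw [Ne, ENNReal.ofReal_eq_zero]
    linarith
  have h3 : ∃ ω ∈ Set.pi (Finset.range K : Set ℕ) (fun _ => ({⟨0, by omega⟩} : Set (Fin a))),
      dimH (Orb a (x₀ + val a ω)) = dimH (Orb a x₀) ∧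
      ∀ b : ℕ, 2 ≤ b → MI a b → Orb b (x₀ + val a ω) = Icc 0 1 := by
    by_contra hcon
    push Not at hcon
    apply h2
    rw [ae_iff] at h1
    refine le_antisymm (le_trans (measure_mono fun ω hω => ?_) h1.le) zero_le
    rintro ⟨h4, h5⟩
    obtain ⟨b, hb1, hb2, hb3⟩ := hcon ω hω h4
    exact hb3 (h5 b hb1 hb2)
  obtain ⟨ω, hω, h4, h5⟩ := h3
  refine ⟨x₀ + val a ω, ?_, h4, h5⟩
  have h6 : x₀ + val a ω - x₀ = ∑' k, ((ω (k + K) : ℕ) : ℝ) / (a : ℝ) ^ (k + K + 1) := by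
    rw [val_eq_past ha x₀ ω K]
    unfold past
    rw [Finset.sum_eq_zero]
    · ring
    · intro i hi
      have := hω i (by simpa using hi)
      rw [Set.mem_singleton_iff] at this
      rw [this]; simp
  obtain ⟨h7, h8⟩ := tail_le ha ω K
  rw [h6, abs_of_nonneg h7]
  refine lt_of_le_of_lt h8 ?_
  rwa [div_pow, one_pow] at hK

end Pool.Agent.X101.SD
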