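import Mathlib
import Pool.Agent.X101.SD.Fin2

set_option autoImplicit false

open Filter Topology Set

namespace Pool.Agent.X101.SD

lemma targets {a b : ℕ} (ha : 2 ≤ a) (hb : 2 ≤ b) (hab : MI a b) {δ : ℝ} (hδ : 0 < δ)
    (Z : List ℝ) : ∃ L : ℕ, ∀ (x : ℝ) (n : ℕ), ∃ w : ℕ, (w : ℝ) / (a : ℝ) ^ (n + L) ≤ 1 / (a : ℝ) ^ n ∧
      ∀ t : ℝ, 0 ≤ t → t ≤ 1 / (a : ℝ) ^ (n + L) → ∀ z ∈ Z, ∃ (m : ℕ) (l : ℤ),
        |(b : ℝ) ^ m * (x + w / (a : ℝ) ^ (n + L) + t) - z - l| < 2 * δ := by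
  have ha0 : (0 : ℝ) < a := by positivity
  have ha1 : (1 : ℝ) < a := by exact_mod_cast (by omega : 1 < a)
  have ha2 : (2 : ℝ) ≤ a := by exact_mod_cast ha
  induction Z with
  | nil => exact ⟨0, fun x n => ⟨0, by simp, fun t _ _ z hz => by simp at hz⟩⟩
  | cons z Z ih =>
    obtain ⟨L', hL'⟩ := ih
    obtain ⟨L₁, C, hC, hL₁, hhit⟩ := hit ha hb hab z hδ
    obtain ⟨g, hg⟩ : ∃ g : ℕ, 2 * C / (a : ℝ) ^ g ≤ δ := by
      obtain ⟨g, hg⟩ := exists_pow_lt_of_lt_one (x := δ / (2 * C)) (by positivity)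
        (by rw [div_lt_one ha0]; exact ha1 : 1 / (a : ℝ) < 1)
      refine ⟨g, ?_⟩
      rw [div_pow, one_pow, lt_div_iff₀ (by positivity)] at hg
      calc 2 * C / (a : ℝ) ^ g = 1 / (a : ℝ) ^ g * (2 * C) := by ring
        _ ≤ _ := hg.le
    refine ⟨L₁ + g + L', fun x n => ?_⟩
    obtain ⟨N, hN1, hN2, m, l, hm1, hm2⟩ := hhit x n
    obtain ⟨w', hw', hr⟩ := hL' (x + 1 / (a : ℝ) ^ (N + 1)) (n + (L₁ + g))
    have hexp : n + (L₁ + g + L') = n + (L₁ + g) + L' := by ring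
    rw [hexp]
    set n' := n + (L₁ + g) with hn'
    have hNn : N + 1 ≤ n' + L' := by omega
    refine ⟨a ^ (n' + L' - (N + 1)) + w', ?_, ?_⟩
    · have h1 : ((a ^ (n' + L' - (N + 1)) + w' : ℕ) : ℝ) / (a : ℝ) ^ (n' + L') =
          1 / (a : ℝ) ^ (N + 1) + w' / (a : ℝ) ^ (n' + L') := by
        have h2 : (a : ℝ) ^ (n' + L') = (a : ℝ) ^ (n' + L' - (N + 1)) * (a : ℝ) ^ (N + 1) := by
          rw [← pow_add]; congr 1; omega
        push_cast
        rw [add_div]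
        congr 1
        rw [h2]; field_simp
      rw [h1]
      have h3 : 1 / (a : ℝ) ^ (N + 1) ≤ 1 / (a : ℝ) ^ (n + 1) :=
        one_div_le_one_div_of_le (by positivity) (pow_le_pow_right₀ ha1.le (by omega))
      have h4 : 1 / (a : ℝ) ^ n' ≤ 1 / (a : ℝ) ^ (n + 1) :=
        one_div_le_one_div_of_le (by positivity) (pow_le_pow_right₀ ha1.le (by omega))
      have h5 : 2 * (1 / (a : ℝ) ^ (n + 1)) ≤ 1 / (a : ℝ) ^ n := by
        rw [pow_succ, mul_one_div, div_le_div_iff₀ (by positivity) (by positivity)]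
        have : (0 : ℝ) < (a : ℝ) ^ n := by positivity
        nlinarith
      linarith
    · intro t ht0 ht1 z' hz'
      have h1 : x + ((a ^ (n' + L' - (N + 1)) + w' : ℕ) : ℝ) / (a : ℝ) ^ (n' + L') + t =
          x + 1 / (a : ℝ) ^ (N + 1) + w' / (a : ℝ) ^ (n' + L') + t := by
        have h2 : (a : ℝ) ^ (n' + L') = (a : ℝ) ^ (n' + L' - (N + 1)) * (a : ℝ) ^ (N + 1) := by
          rw [← pow_add]; congr 1; omega
        have h3 : ((a ^ (n' + L' - (N + 1)) + w' : ℕ) : ℝ) / (a : ℝ) ^ (n' + L') =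
            1 / (a : ℝ) ^ (N + 1) + w' / (a : ℝ) ^ (n' + L') := by
          push_cast
          rw [add_div]
          congr 1
          rw [h2]; field_simp
        rw [h3]; ring
      rw [h1]
      rw [List.mem_cons] at hz'
      rcases hz' with rfl | hz'
      · refine ⟨m, l, ?_⟩
        set s : ℝ := w' / (a : ℝ) ^ (n' + L') + t with hs
        have hs0 : 0 ≤ s := by positivity
        have hs1 : s ≤ 2 * (1 / (a : ℝ) ^ n') := by
          have h4 : 1 / (a : ℝ) ^ (n' + L') ≤ 1 / (a : ℝ) ^ n' :=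
            one_div_le_one_div_of_le (by positivity) (pow_le_pow_right₀ ha1.le (by omega))
          linarith
        have h5 : (b : ℝ) ^ m * s ≤ δ := by
          calc (b : ℝ) ^ m * s ≤ (C * (a : ℝ) ^ (N + 1)) * (2 * (1 / (a : ℝ) ^ n')) := by gcongr
            _ ≤ 2 * C / (a : ℝ) ^ g := by
              have h9 : (a : ℝ) ^ (N + 1) * (a : ℝ) ^ g ≤ (a : ℝ) ^ n' := by
                rw [← pow_add]
                exact pow_le_pow_right₀ ha1.le (by omega)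
              have h10 : C * (a : ℝ) ^ (N + 1) * (2 * (1 / (a : ℝ) ^ n')) =
                  2 * C * (a : ℝ) ^ (N + 1) / (a : ℝ) ^ n' := by ring
              rw [h10, div_le_div_iff₀ (by positivity) (by positivity)]
              nlinarith
            _ ≤ δ := hg
        have h6 : 0 ≤ (b : ℝ) ^ m * s := by positivity
        have h7 : (b : ℝ) ^ m * (x + 1 / (a : ℝ) ^ (N + 1) + w' / (a : ℝ) ^ (n' + L') + t) - z' - l =
            ((b : ℝ) ^ m * (x + 1 / (a : ℝ) ^ (N + 1)) - z' - l) + (b : ℝ) ^ m * s := by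
          rw [hs]; ring
        rw [h7]
        rw [abs_lt] at hm2 ⊢
        constructor <;> linarith
      · exact hr t ht0 ht1 z' hz'

theorem uniform {a b : ℕ} (ha : 2 ≤ a) (hb : 2 ≤ b) (hab : MI a b) {δ : ℝ} (hδ : 0 < δ) :
    ∃ L : ℕ, ∀ (x : ℝ) (n : ℕ), ∃ w : ℕ, (w : ℝ) / (a : ℝ) ^ (n + L) ≤ 1 / (a : ℝ) ^ n ∧
      ∀ y ∈ Icc (0 : ℝ) 1, ∃ m : ℕ,
        |Int.fract ((b : ℝ) ^ m * (x + w / (a : ℝ) ^ (n + L))) - y| < δ := by
  obtain ⟨K, hK⟩ := exists_nat_gt (2 / δ)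
  have hK0 : (0 : ℝ) < K := lt_trans (by positivity) hK
  have hK1 : 1 ≤ K := by exact_mod_cast hK0
  have hKδ : 1 / (K : ℝ) < δ / 2 := by
    rw [div_lt_iff₀ hK0]
    rw [div_lt_iff₀ hδ] at hK
    linarith
  -- the midpoints (j + 1/2) / K
  set Z : List ℝ := (List.range K).map fun j : ℕ => ((j : ℝ) + 1 / 2) / K with hZ
  obtain ⟨L, hL⟩ := targets ha hb hab (δ := 1 / (4 * K)) (by positivity) Z
  refine ⟨L, fun x n => ?_⟩
  obtain ⟨w, hw, h⟩ := hL x n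
  refine ⟨w, hw, fun y hy => ?_⟩
  obtain ⟨j, hjK, hj1, hj2⟩ : ∃ j : ℕ, j < K ∧ (j : ℝ) / K ≤ y ∧ y ≤ ((j : ℝ) + 1) / K := by
    rcases hy.2.eq_or_lt with h1 | h1
    · refine ⟨K - 1, by omega, ?_, ?_⟩
      · rw [h1, div_le_one hK0]; exact_mod_cast (by omega : K - 1 ≤ K)
      · rw [h1, Nat.cast_sub hK1, Nat.cast_one, sub_add_cancel, div_self hK0.ne']
    · refine ⟨⌊y * K⌋₊, ?_, ?_, ?_⟩
      · rw [Nat.floor_lt (by have := hy.1; positivity)]
        nlinarith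
      · rw [div_le_iff₀ hK0]; exact Nat.floor_le (by have := hy.1; positivity)
      · rw [le_div_iff₀ hK0]; exact (Nat.lt_floor_add_one _).le
  obtain ⟨m, l, hm⟩ := h 0 le_rfl (by positivity) (((j : ℝ) + 1 / 2) / K)
    (List.mem_map.2 ⟨j, List.mem_range.2 hjK, rfl⟩)
  rw [add_zero] at hm
  have h4 : 2 * (1 / (4 * (K : ℝ))) = (1 / 2) / K := by field_simp; norm_num
  rw [h4, abs_lt] at hm
  set v := (b : ℝ) ^ m * (x + w / (a : ℝ) ^ (n + L)) with hv
  have h5 : ((j : ℝ) + 1 / 2) / K = j / K + (1 / 2) / K := by rw [add_div]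
  have h6 : ((j : ℝ) + 1) / K = j / K + 1 / K := by rw [add_div]
  have h7 : 1 / (K : ℝ) = (1 / 2) / K + (1 / 2) / K := by ring
  have h8 : (0 : ℝ) ≤ j / K := by positivity
  have h9 : ((j : ℝ) + 1) / K ≤ 1 := by
    rw [div_le_one hK0]; exact_mod_cast hjK
  have h10 : Int.fract v = v - l := by
    rw [Int.fract_eq_iff]
    refine ⟨by linarith [hm.1], by linarith [hm.2], l, by ring⟩
  refine ⟨m, ?_⟩
  rw [h10, abs_lt]
  constructor <;> linarith [hm.1, hm.2]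

end Pool.Agent.X101.SD
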