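import Mathlib

set_option autoImplicit false

open MeasureTheory Filter Topology

namespace Pool.Agent.X101.SD

/-- the Fourier coefficients along the translates of geometric progressions tend to zero on
average -/
def Spread (b : ℕ) (ρ : Measure UnitAddCircle) : Prop :=
  ∀ k h : ℤ, h ≠ 0 → Tendsto (fun N : ℕ => (∑ n ∈ Finset.range N,
    ∫ x, (fourier (k + h * (b : ℤ) ^ n) x : ℂ) ∂ρ) / (N : ℂ)) atTop (𝓝 0)

lemma tendsto_zero_of_approx {a : ℕ → ℂ} (h : ∀ ε : ℝ, 0 < ε → ∃ u : ℕ → ℂ,
    Tendsto u atTop (𝓝 0) ∧ ∀ N, ‖a N - u N‖ ≤ ε) : Tendsto a atTop (𝓝 0) := by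
  rw [Metric.tendsto_atTop]
  intro ε hε
  obtain ⟨u, hu, h2⟩ := h (ε / 2) (half_pos hε)
  rw [Metric.tendsto_atTop] at hu
  obtain ⟨N, hN⟩ := hu (ε / 2) (half_pos hε)
  refine ⟨N, fun n hn => ?_⟩
  have h3 := hN n hn
  rw [dist_zero_right] at h3 ⊢
  have h4 := h2 n
  have h5 := norm_add_le (a n - u n) (u n)
  rw [sub_add_cancel] at h5
  linarith

/-- averages of integrals -/
noncomputable def Av (b : ℕ) (h : ℤ) (ρ : Measure UnitAddCircle) (N : ℕ) (φ : UnitAddCircle → ℂ) :
    ℂ := (∑ n ∈ Finset.range N, ∫ x, (fourier (h * (b : ℤ) ^ n) x : ℂ) * φ x ∂ρ) / (N : ℂ)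

lemma norm_fourier_one (n : ℤ) (x : UnitAddCircle) : ‖(fourier n x : ℂ)‖ = 1 := by
  rw [fourier_apply]; exact Circle.norm_coe _

lemma integrable_fourier_mul {ρ : Measure UnitAddCircle} [IsFiniteMeasure ρ] (n : ℤ)
    {φ : UnitAddCircle → ℂ} (hφ : Integrable φ ρ) :
    Integrable (fun x => (fourier n x : ℂ) * φ x) ρ :=
  hφ.bdd_mul (c := 1) (fourier n).continuous.aestronglyMeasurable
    (Eventually.of_forall fun x => (norm_fourier_one n x).le)

lemma Av_sub_le {b : ℕ} {h : ℤ} {ρ : Measure UnitAddCircle} [IsFiniteMeasure ρ] (N : ℕ)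
    {φ ψ : UnitAddCircle → ℂ} (hφ : Integrable φ ρ) (hψ : Integrable ψ ρ) :
    ‖Av b h ρ N φ - Av b h ρ N ψ‖ ≤ ∫ x, ‖φ x - ψ x‖ ∂ρ := by
  have h0 : 0 ≤ ∫ x, ‖φ x - ψ x‖ ∂ρ := integral_nonneg fun x => norm_nonneg _
  unfold Av
  rw [← sub_div, ← Finset.sum_sub_distrib, norm_div, Complex.norm_natCast]
  rcases Nat.eq_zero_or_pos N with hN | hN
  · subst hN; simpa using h0
  rw [div_le_iff₀ (by positivity)]
  refine (norm_sum_le _ _).trans ?_
  have h1 : ∀ n ∈ Finset.range N, ‖(∫ x, (fourier (h * (b : ℤ) ^ n) x : ℂ) * φ x ∂ρ) -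
      ∫ x, (fourier (h * (b : ℤ) ^ n) x : ℂ) * ψ x ∂ρ‖ ≤ ∫ x, ‖φ x - ψ x‖ ∂ρ := by
    intro n _
    rw [← integral_sub (integrable_fourier_mul _ hφ) (integrable_fourier_mul _ hψ)]
    refine (norm_integral_le_integral_norm _).trans (le_of_eq ?_)
    refine integral_congr_ae (Eventually.of_forall fun x => ?_)
    simp only
    rw [← mul_sub, norm_mul, norm_fourier_one, one_mul]
  refine (Finset.sum_le_card_nsmul _ _ _ h1).trans ?_
  rw [nsmul_eq_mul, Finset.card_range, mul_comm]

lemma integrable_cont {ρ : Measure UnitAddCircle} [IsFiniteMeasure ρ] {E : Type*}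
    [NormedAddCommGroup E] (q : C(UnitAddCircle, E)) [SecondCountableTopologyEither UnitAddCircle E] :
    Integrable q ρ :=
  q.continuous.integrable_of_hasCompactSupport (HasCompactSupport.of_compactSpace _)

lemma Av_continuous {b : ℕ} {ρ : Measure UnitAddCircle} [IsFiniteMeasure ρ] (hρ : Spread b ρ)
    {h : ℤ} (hh : h ≠ 0) (q : C(UnitAddCircle, ℂ)) :
    Tendsto (fun N => Av b h ρ N q) atTop (𝓝 0) := by
  have hspan : ∀ p ∈ Submodule.span ℂ (Set.range (fun n : ℤ => (fourier n : C(UnitAddCircle, ℂ)))),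
      Tendsto (fun N => Av b h ρ N p) atTop (𝓝 0) := by
    intro p hp
    induction hp using Submodule.span_induction with
    | mem p hp =>
      obtain ⟨k, rfl⟩ := hp
      refine (hρ k h hh).congr fun N => ?_
      unfold Av
      congr 1
      refine Finset.sum_congr rfl fun n _ => ?_
      refine integral_congr_ae (Eventually.of_forall fun x => ?_)
      simp only
      rw [fourier_add, mul_comm]
    | zero =>
      have : (fun N => Av b h ρ N (0 : C(UnitAddCircle, ℂ))) = fun _ => 0 := by
        funext N; unfold Av; simp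
      rw [this]; exact tendsto_const_nhds
    | add p q _ _ hp hq =>
      have : (fun N => Av b h ρ N (p + q : C(UnitAddCircle, ℂ))) =
          fun N => Av b h ρ N p + Av b h ρ N q := by
        funext N
        unfold Av
        rw [← add_div, ← Finset.sum_add_distrib]
        congr 1
        refine Finset.sum_congr rfl fun n _ => ?_
        rw [← integral_add (integrable_fourier_mul _ (integrable_cont p))
          (integrable_fourier_mul _ (integrable_cont q))]
        refine integral_congr_ae (Eventually.of_forall fun x => ?_)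
        simp only [ContinuousMap.add_apply]
        ring
      rw [this]
      simpa using hp.add hq
    | smul c p _ hp =>
      have : (fun N => Av b h ρ N (c • p : C(UnitAddCircle, ℂ))) =
          fun N => c * Av b h ρ N p := by
        funext N
        unfold Av
        rw [mul_div_assoc', Finset.mul_sum]
        congr 1
        refine Finset.sum_congr rfl fun n _ => ?_
        rw [← integral_const_mul]
        refine integral_congr_ae (Eventually.of_forall fun x => ?_)
        simp only [ContinuousMap.smul_apply, smul_eq_mul]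
        ring
      rw [this]
      simpa using hp.const_mul c
  refine tendsto_zero_of_approx fun ε hε => ?_
  have hq : q ∈ closure ((Submodule.span ℂ
      (Set.range (fun n : ℤ => (fourier n : C(UnitAddCircle, ℂ))))) : Set C(UnitAddCircle, ℂ)) := by
    have h1 : q ∈ (Submodule.span ℂ
      (Set.range (fun n : ℤ => (fourier n : C(UnitAddCircle, ℂ))))).topologicalClosure := by
      rw [span_fourier_closure_eq_top]; trivial
    exact h1
  set C : ℝ := ρ.real Set.univ with hC
  have hC0 : 0 ≤ C := measureReal_nonneg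
  obtain ⟨p, hp, hpq⟩ := Metric.mem_closure_iff.1 hq (ε / (C + 1)) (by positivity)
  refine ⟨fun N => Av b h ρ N p, hspan p hp, fun N => ?_⟩
  refine (Av_sub_le N (integrable_cont q) (integrable_cont p)).trans ?_
  have h1 : ∀ x, ‖q x - p x‖ ≤ ε / (C + 1) := fun x => by
    rw [← dist_eq_norm]
    exact (ContinuousMap.dist_apply_le_dist x).trans hpq.le
  calc ∫ x, ‖q x - p x‖ ∂ρ ≤ ∫ _x, ε / (C + 1) ∂ρ := by
        refine integral_mono ?_ (integrable_const _) h1
        exact ((integrable_cont q).sub (integrable_cont p)).norm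
    _ = C * (ε / (C + 1)) := by rw [integral_const, smul_eq_mul]
    _ ≤ ε := by
        rw [mul_div_assoc', div_le_iff₀ (by positivity)]
        nlinarith

lemma Av_integrable {b : ℕ} {ρ : Measure UnitAddCircle} [IsFiniteMeasure ρ] (hρ : Spread b ρ)
    {h : ℤ} (hh : h ≠ 0) {f : UnitAddCircle → ℂ} (hf : Integrable f ρ) :
    Tendsto (fun N => Av b h ρ N f) atTop (𝓝 0) := by
  refine tendsto_zero_of_approx fun ε hε => ?_
  obtain ⟨g, hg1, hg2⟩ := hf.exists_boundedContinuous_integral_sub_le hε
  refine ⟨fun N => Av b h ρ N g, Av_continuous hρ hh g.toContinuousMap, fun N => ?_⟩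
  exact (Av_sub_le N hf hg2).trans hg1

lemma nsmul_map_fourier (k : ℤ) (m : ℕ) (x : UnitAddCircle) :
    (fourier k (m • x) : ℂ) = fourier (k * (m : ℤ)) x := by
  rw [fourier_apply, fourier_apply, ← natCast_zsmul, ← mul_smul]

lemma mp_pow {b : ℕ} {μ : Measure UnitAddCircle}
    (hμ : MeasurePreserving (fun x : UnitAddCircle => b • x) μ μ) (n : ℕ) :
    MeasurePreserving (fun x : UnitAddCircle => (b ^ n) • x) μ μ := by
  induction n with
  | zero =>
    have h : (fun x : UnitAddCircle => (b ^ 0) • x) = id := by funext x; simp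
    rw [h]; exact MeasurePreserving.id μ
  | succ n ih =>
    have h1 := hμ.comp ih
    convert h1 using 2
    rw [pow_succ', mul_smul]
    rfl

lemma integral_fourier_vol {n : ℤ} (hn : n ≠ 0) :
    ∫ x : UnitAddCircle, (fourier n x : ℂ) = 0 := by
  have h1 : ∫ x : UnitAddCircle, (fourier n x : ℂ) = -∫ x : UnitAddCircle, (fourier n x : ℂ) := by
    have h2 := integral_add_right_eq_self (μ := (volume : Measure UnitAddCircle))
      (fun x : UnitAddCircle => (fourier n x : ℂ)) ((1 / 2 / n : ℝ) : UnitAddCircle)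
    refine h2.symm.trans ?_
    rw [← integral_neg]
    refine integral_congr_ae (Eventually.of_forall fun x => ?_)
    simp only
    exact fourier_add_half_inv_index hn one_pos x
  have h3 : (2 : ℂ) * ∫ x : UnitAddCircle, (fourier n x : ℂ) = 0 := by
    linear_combination h1
  simpa using h3

/-- **Measures with a component that is absolutely continuous with respect to a spread measure** -/
theorem lower {b : ℕ} {μ ρ : Measure UnitAddCircle} [IsProbabilityMeasure μ] [IsFiniteMeasure ρ]
    (hμ : MeasurePreserving (fun x : UnitAddCircle => b • x) μ μ) (hρ : Spread b ρ)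
    (hns : ¬ μ ⟂ₘ ρ) : ∃ c : ℝ, 0 < c ∧ ∀ q : C(UnitAddCircle, ℝ), (∀ x, 0 ≤ q x) →
      c * ∫ x, q x ≤ ∫ x, q x ∂μ := by
  set f := μ.rnDeriv ρ with hf
  set σ := ρ.withDensity f with hσ
  have hσμ : σ ≤ μ := Measure.withDensity_rnDeriv_le μ ρ
  have hσfin : IsFiniteMeasure σ := isFiniteMeasure_of_le μ hσμ
  have hσ0 : σ ≠ 0 := by
    intro h0
    apply hns
    have hdec := Measure.haveLebesgueDecomposition_of_sigmaFinite μ ρ
    have h1 := Measure.haveLebesgueDecomposition_add μ ρ
    rw [← hf, ← hσ, h0, add_zero] at h1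
    rw [h1]
    exact Measure.mutuallySingular_singularPart μ ρ
  set c : ℝ := σ.real Set.univ with hc
  have hc0 : 0 < c := by
    rw [hc, measureReal_def, ENNReal.toReal_pos_iff]
    exact ⟨pos_iff_ne_zero.2 (by simpa using hσ0), measure_lt_top _ _⟩
  have hint : Integrable (fun x => (((f x).toReal : ℝ) : ℂ)) ρ :=
    (Measure.integrable_toReal_rnDeriv (μ := μ) (ν := ρ)).ofReal
  have hdens : ∀ g : UnitAddCircle → ℂ, ∫ x, g x ∂σ = ∫ x, g x * (((f x).toReal : ℝ) : ℂ) ∂ρ := by
    intro g
    rw [hσ, integral_withDensity_eq_integral_toReal_smul (Measure.measurable_rnDeriv μ ρ)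
      (Measure.rnDeriv_lt_top μ ρ)]
    refine integral_congr_ae (Eventually.of_forall fun x => ?_)
    simp only
    rw [Complex.real_smul, mul_comm]
  -- averages of continuous functions
  have hcont : ∀ q : C(UnitAddCircle, ℂ), Tendsto (fun N : ℕ => (∑ n ∈ Finset.range N,
      ∫ x, q ((b ^ n) • x) ∂σ) / (N : ℂ)) atTop (𝓝 (c * ∫ x, q x)) := by
    intro q
    have hmeas : ∀ (p : C(UnitAddCircle, ℂ)) (n : ℕ), Integrable (fun x => p ((b ^ n) • x)) σ := by
      intro p n
      exact integrable_cont (ρ := σ) (⟨fun x => p ((b ^ n) • x), by fun_prop⟩ : C(UnitAddCircle, ℂ))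
    have hspan : ∀ p ∈ Submodule.span ℂ (Set.range (fun n : ℤ => (fourier n : C(UnitAddCircle, ℂ)))),
        Tendsto (fun N : ℕ => (∑ n ∈ Finset.range N,
          ∫ x, p ((b ^ n) • x) ∂σ) / (N : ℂ)) atTop (𝓝 (c * ∫ x, p x)) := by
      intro p hp
      induction hp using Submodule.span_induction with
      | mem p hp =>
        obtain ⟨k, rfl⟩ := hp
        simp only
        rcases eq_or_ne k 0 with hk | hk
        · subst hk
          have h1 : ∀ y : UnitAddCircle, (fourier 0 y : ℂ) = 1 := fun y => by simp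
          simp only [h1]
          rw [integral_const, integral_const]
          have h2 : (volume : Measure UnitAddCircle).real Set.univ = 1 := by
            rw [measureReal_def, UnitAddCircle.measure_univ]; simp
          rw [h2, ← hc]
          refine Tendsto.congr' ?_ tendsto_const_nhds
          filter_upwards [eventually_ge_atTop 1] with N hN
          have h3 : (N : ℂ) ≠ 0 := by exact_mod_cast (by omega : N ≠ 0)
          rw [Finset.sum_const, Finset.card_range, nsmul_eq_mul, Complex.real_smul,
            Complex.real_smul, mul_one, mul_one, Complex.ofReal_one, mul_one]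
          field_simp
        · rw [integral_fourier_vol hk, mul_zero]
          refine (Av_integrable hρ hk hint).congr fun N => ?_
          unfold Av
          congr 1
          refine Finset.sum_congr rfl fun n _ => ?_
          rw [hdens]
          refine integral_congr_ae (Eventually.of_forall fun x => ?_)
          simp only
          rw [nsmul_map_fourier]
          push_cast
          rfl
      | zero => simp
      | add p q _ _ hp hq =>
        have h1 := hp.add hq
        have h2 : ∀ N : ℕ, (∑ n ∈ Finset.range N, ∫ x, p ((b ^ n) • x) ∂σ) / (N : ℂ) +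
            (∑ n ∈ Finset.range N, ∫ x, q ((b ^ n) • x) ∂σ) / (N : ℂ) =
            (∑ n ∈ Finset.range N, ∫ x, (p + q) ((b ^ n) • x) ∂σ) / (N : ℂ) := by
          intro N
          rw [← add_div, ← Finset.sum_add_distrib]
          congr 1
          refine Finset.sum_congr rfl fun n _ => ?_
          rw [← integral_add (hmeas p n) (hmeas q n)]
          rfl
        simp only [h2] at h1
        convert h1 using 2
        rw [← mul_add, ← integral_add (integrable_cont p) (integrable_cont q)]
        rfl
      | smul z p _ hp =>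
        have h1 := hp.const_mul z
        have h2 : ∀ N : ℕ, z * ((∑ n ∈ Finset.range N, ∫ x, p ((b ^ n) • x) ∂σ) / (N : ℂ)) =
            (∑ n ∈ Finset.range N, ∫ x, (z • p) ((b ^ n) • x) ∂σ) / (N : ℂ) := by
          intro N
          rw [mul_div_assoc', Finset.mul_sum]
          congr 1
          refine Finset.sum_congr rfl fun n _ => ?_
          rw [← integral_const_mul]
          rfl
        simp only [h2] at h1
        convert h1 using 2
        have h3 : ∫ x, (z • p) x = z * ∫ x, p x := by
          rw [← integral_const_mul]; rfl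
        rw [h3]; ring
    rw [← tendsto_sub_nhds_zero_iff]
    refine tendsto_zero_of_approx fun ε hε => ?_
    have hq : q ∈ closure ((Submodule.span ℂ
        (Set.range (fun n : ℤ => (fourier n : C(UnitAddCircle, ℂ))))) : Set C(UnitAddCircle, ℂ)) := by
      have h1 : q ∈ (Submodule.span ℂ
        (Set.range (fun n : ℤ => (fourier n : C(UnitAddCircle, ℂ))))).topologicalClosure := by
        rw [span_fourier_closure_eq_top]; trivial
      exact h1
    obtain ⟨p, hp, hpq⟩ := Metric.mem_closure_iff.1 hq (ε / (2 * c)) (by positivity)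
    refine ⟨fun N => (∑ n ∈ Finset.range N, ∫ x, p ((b ^ n) • x) ∂σ) / (N : ℂ) - c * ∫ x, p x,
      tendsto_sub_nhds_zero_iff.2 (hspan p hp), fun N => ?_⟩
    have h1 : ∀ x, ‖q x - p x‖ ≤ ε / (2 * c) := fun x => by
      rw [← dist_eq_norm]
      exact (ContinuousMap.dist_apply_le_dist x).trans hpq.le
    have h2 : ‖(∑ n ∈ Finset.range N, ∫ x, q ((b ^ n) • x) ∂σ) / (N : ℂ) -
        (∑ n ∈ Finset.range N, ∫ x, p ((b ^ n) • x) ∂σ) / (N : ℂ)‖ ≤ ε / 2 := by
      rw [← sub_div, ← Finset.sum_sub_distrib, norm_div, Complex.norm_natCast]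
      rcases Nat.eq_zero_or_pos N with hN | hN
      · subst hN; simp; positivity
      rw [div_le_iff₀ (by positivity)]
      refine (norm_sum_le _ _).trans ?_
      have h3 : ∀ n ∈ Finset.range N, ‖(∫ x, q ((b ^ n) • x) ∂σ) - ∫ x, p ((b ^ n) • x) ∂σ‖ ≤
          ε / 2 := by
        intro n _
        rw [← integral_sub (hmeas q n) (hmeas p n)]
        refine (norm_integral_le_of_norm_le_const (C := ε / (2 * c))
          (Eventually.of_forall fun x => h1 _)).trans ?_
        rw [← hc]
        have : ε / (2 * c) * c = ε / 2 := by field_simp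
        rw [this]
      refine (Finset.sum_le_card_nsmul _ _ _ h3).trans ?_
      rw [nsmul_eq_mul, Finset.card_range, mul_comm]
    have h3 : ‖(c : ℂ) * (∫ x, q x) - (c : ℂ) * (∫ x, p x)‖ ≤ ε / 2 := by
      rw [← mul_sub, norm_mul, Complex.norm_real, Real.norm_of_nonneg hc0.le,
        ← integral_sub (integrable_cont q) (integrable_cont p)]
      have h4 := norm_integral_le_of_norm_le_const (μ := (volume : Measure UnitAddCircle))
        (C := ε / (2 * c)) (f := fun x => q x - p x) (Eventually.of_forall fun x => h1 x)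
      have h5 : (volume : Measure UnitAddCircle).real Set.univ = 1 := by
        rw [measureReal_def, UnitAddCircle.measure_univ]; simp
      rw [h5, mul_one] at h4
      calc c * ‖∫ x, q x - p x‖ ≤ c * (ε / (2 * c)) := by gcongr
        _ = ε / 2 := by field_simp
    have h4 : ∀ A B A' B' : ℂ, A - B - (A' - B') = (A - A') - (B - B') := fun _ _ _ _ => by ring
    rw [h4]
    refine (norm_sub_le _ _).trans ?_
    linarith
  refine ⟨c, hc0, fun q hq => ?_⟩
  set Q : C(UnitAddCircle, ℂ) := ⟨fun x => ((q x : ℝ) : ℂ), by fun_prop⟩ with hQ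
  have h1 := hcont Q
  have h2 : (c : ℂ) * ∫ x, Q x = ((c * ∫ x, q x : ℝ) : ℂ) := by
    push_cast
    rw [← integral_complex_ofReal]
    rfl
  rw [h2] at h1
  have h3 := (Complex.continuous_re.tendsto _).comp h1
  rw [Complex.ofReal_re] at h3
  refine le_of_tendsto h3 ?_
  filter_upwards [eventually_ge_atTop 1] with N hN
  have h4 : ∀ n : ℕ, ∫ x, Q ((b ^ n) • x) ∂σ = ((∫ x, q ((b ^ n) • x) ∂σ : ℝ) : ℂ) := by
    intro n
    rw [← integral_complex_ofReal]
    rfl
  have h5 : (∑ n ∈ Finset.range N, ∫ x, Q ((b ^ n) • x) ∂σ) / (N : ℂ) =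
      (((∑ n ∈ Finset.range N, ∫ x, q ((b ^ n) • x) ∂σ) / N : ℝ) : ℂ) := by
    push_cast
    rw [Finset.sum_congr rfl fun n _ => h4 n]
  simp only [Function.comp]
  rw [h5, Complex.ofReal_re, div_le_iff₀ (by positivity)]
  have h6 : ∀ n ∈ Finset.range N, ∫ x, q ((b ^ n) • x) ∂σ ≤ ∫ x, q x ∂μ := by
    intro n _
    have h7 : ∫ x, q ((b ^ n) • x) ∂μ = ∫ x, q x ∂μ := by
      have h8 := (mp_pow hμ n).map_eq
      conv_rhs => rw [← h8]
      rw [integral_map]
      · exact (by fun_prop : Continuous fun x : UnitAddCircle => (b ^ n) • x).aemeasurable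
      · exact q.continuous.aestronglyMeasurable
    rw [← h7]
    refine integral_mono_measure hσμ (Eventually.of_forall fun x => hq _) ?_
    exact integrable_cont (ρ := μ) (⟨fun x => q ((b ^ n) • x), by fun_prop⟩ : C(UnitAddCircle, ℝ))
  refine (Finset.sum_le_card_nsmul _ _ _ h6).trans ?_
  rw [nsmul_eq_mul, Finset.card_range, mul_comm]

end Pool.Agent.X101.SD
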