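import Pool.Agent.X101.SD.TraceL

set_option autoImplicit false

open MeasureTheory Filter Topology
open scoped ComplexOrder

namespace Pool.Agent.X101.SD

open Pool.Agent.W763.Tr
open Pool.Agent.TH654.FC

/-- the regular trace -/
noncomputable def Reg (G : Subgroup (Equiv.Perm ℚ)) : G → ℂ :=
  Set.indicator ({1} : Set G) (fun _ => (1 : ℂ))

lemma reg_one {G : Subgroup (Equiv.Perm ℚ)} : Reg G 1 = 1 :=
  Set.indicator_of_mem (Set.mem_singleton _) _

lemma reg_ne {G : Subgroup (Equiv.Perm ℚ)} {g : G} (hg : g ≠ 1) : Reg G g = 0 :=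
  Set.indicator_of_notMem (by simpa using hg) _

lemma reg_mem (G : Subgroup (Equiv.Perm ℚ)) : Reg G ∈ Tra G := by
  classical
  refine ⟨reg_one, fun g h => ?_, fun s c => ?_⟩
  · by_cases hg : g = 1
    · rw [hg]; simp
    · rw [reg_ne hg, reg_ne]
      intro h1
      apply hg
      rw [mul_inv_eq_one] at h1
      exact mul_eq_left.1 h1
  · refine Finset.sum_nonneg fun i hi => ?_
    rw [Finset.sum_eq_single i]
    · rw [inv_mul_cancel, reg_one, mul_one, Complex.star_def, ← Complex.normSq_eq_conj_mul_self]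
      exact Complex.zero_le_real.2 (Complex.normSq_nonneg _)
    · intro j _ hj
      rw [reg_ne, mul_zero]
      intro h
      rw [inv_mul_eq_one] at h
      exact hj h
    · intro h; exact absurd hi h

section

variable {G : Subgroup (Equiv.Perm ℚ)} {τ : ℤ → G} {φ : G → ℂ} {S6 : G} {μ : Measure UnitAddCircle}

/-- an extreme trace without atoms whose measure is at least a multiple of Lebesgue measure -/
theorem extreme_regular (D : Data G τ φ S6 μ) (hext : φ ∈ Set.extremePoints ℝ (Tra G))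
    (hat : ∀ x, μ {x} = 0) {c : ℝ} (hc : 0 < c)
    (hlow : ∀ q : C(UnitAddCircle, ℝ), (∀ x, 0 ≤ q x) → c * ∫ x, q x ≤ ∫ x, q x ∂μ) :
    φ = Reg G := by
  set c' : ℝ := min c (1 / 2) with hc'
  have hc'0 : 0 < c' := lt_min hc (by norm_num)
  have hc'1 : c' < 1 := lt_of_le_of_lt (min_le_right _ _) (by norm_num)
  have hlow' : ∀ q : C(UnitAddCircle, ℝ), (∀ x, 0 ≤ q x) → c' * ∫ x, q x ≤ ∫ x, q x ∂μ := by
    intro q hq
    refine le_trans ?_ (hlow q hq)
    have h0 : 0 ≤ ∫ x, q x := integral_nonneg hq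
    exact mul_le_mul_of_nonneg_right (min_le_left _ _) h0
  have h1c : (1 - c') ≠ 0 := by linarith
  set ψ : G → ℂ := fun g => ((1 - c')⁻¹ : ℝ) * (φ g - c' * Reg G g) with hψ
  have hψmem : ψ ∈ Tra G := by
    refine ⟨?_, fun g h => ?_, fun s a => ?_⟩
    · simp only [hψ]
      rw [D.h1, reg_one, mul_one]
      have : (1 : ℂ) - (c' : ℂ) = ((1 - c' : ℝ) : ℂ) := by push_cast; ring
      rw [this, ← Complex.ofReal_mul, inv_mul_cancel₀ h1c, Complex.ofReal_one]
    · simp only [hψ]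
      rw [D.hcl, (reg_mem G).2.1]
    · have h2 := sub_pd D hat hlow' s a
      have h3 : ∑ i ∈ s, ∑ j ∈ s, star (a j) * a i * ψ (j⁻¹ * i) =
          ((1 - c')⁻¹ : ℝ) * ∑ i ∈ s, ∑ j ∈ s, star (a j) * a i *
            (φ (j⁻¹ * i) - c' * Set.indicator ({1} : Set G) (fun _ => (1 : ℂ)) (j⁻¹ * i)) := by
        rw [Finset.mul_sum]
        refine Finset.sum_congr rfl fun i _ => ?_
        rw [Finset.mul_sum]
        refine Finset.sum_congr rfl fun j _ => ?_
        simp only [hψ, Reg]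
        ring
      rw [h3]
      refine mul_nonneg ?_ h2
      rw [Complex.zero_le_real]
      exact inv_nonneg.2 (by linarith)
  have hseg : φ ∈ openSegment ℝ (Reg G) ψ := by
    refine ⟨c', 1 - c', hc'0, by linarith, by ring, ?_⟩
    funext g
    simp only [Pi.add_apply, Pi.smul_apply, Complex.real_smul, hψ]
    rw [← mul_assoc, ← Complex.ofReal_mul, mul_inv_cancel₀ h1c, Complex.ofReal_one, one_mul]
    ring
  exact ((mem_extremePoints.1 hext).2 _ (reg_mem G) _ hψmem hseg).1.symm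

/-- conditionally finite-dimensional traces have no Lebesgue component -/
lemma no_lower_of_kernel (D : Data G τ φ S6 μ) {M : ℕ} (hM : 1 ≤ M)
    (hker : ∀ n : ℤ, φ (τ (M * n)) = 1) {c : ℝ} (hc : 0 < c)
    (hlow : ∀ q : C(UnitAddCircle, ℝ), (∀ x, 0 ≤ q x) → c * ∫ x, q x ≤ ∫ x, q x ∂μ) : False := by
  have := D.prob
  have h1 := hlow ⟨fun x => 1 - (fourier (M : ℤ) x : ℂ).re, by fun_prop⟩ (fun x => by
    simp only [ContinuousMap.coe_mk]
    have h2 := Complex.re_le_norm (fourier (M : ℤ) x : ℂ)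
    rw [norm_fourier_one] at h2
    linarith)
  simp only [ContinuousMap.coe_mk] at h1
  have hre : ∀ (m : Measure UnitAddCircle) [IsFiniteMeasure m],
      ∫ x, (fourier (M : ℤ) x : ℂ).re ∂m = (∫ x, (fourier (M : ℤ) x : ℂ) ∂m).re := by
    intro m _
    exact integral_re (𝕜 := ℂ) (int_cont (by fun_prop))
  have hi : ∀ (m : Measure UnitAddCircle) [IsFiniteMeasure m],
      Integrable (fun x => (fourier (M : ℤ) x : ℂ).re) m := fun m _ => int_cont (by fun_prop)
  have hM0 : (M : ℤ) ≠ 0 := by exact_mod_cast (by omega : M ≠ 0)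
  rw [integral_sub (integrable_const _) (hi _), integral_sub (integrable_const _) (hi _), hre, hre,
    integral_fourier_vol hM0, D.hμ, integral_const, integral_const] at h1
  have h2 := hker 1
  rw [mul_one] at h2
  have h4 : (volume : Measure UnitAddCircle).real Set.univ = 1 := by
    rw [measureReal_def, UnitAddCircle.measure_univ]; simp
  rw [h2, h4] at h1
  simp at h1
  linarith

/-- invariance under the products of powers of two and three -/
lemma mp23 (D : Data G τ φ S6 μ) (i j : ℕ) :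
    MeasurePreserving (fun x : UnitAddCircle => (2 ^ i * 3 ^ j) • x) μ μ := by
  have h1 := (mp_pow D.mp2 i).comp (mp_pow D.mp3 j)
  convert h1 using 2
  simp only [Function.comp]
  rw [mul_smul]

/-- **extreme traces are singular to spread measures** -/
theorem singular_spread (D : Data G τ φ S6 μ) (hext : φ ∈ Set.extremePoints ℝ (Tra G))
    (hne : φ ≠ Reg G) (i j : ℕ) (ρ : Measure UnitAddCircle) [IsFiniteMeasure ρ]
    (hρ : Spread (2 ^ i * 3 ^ j) ρ) : μ ⟂ₘ ρ := by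
  by_contra hns
  have := D.prob
  obtain ⟨c, hc, hlow⟩ := lower (mp23 D i j) hρ hns
  rcases Pool.Agent.TH463.UQ.finite_or_atomless D hext with hfin | hat
  · obtain ⟨M, hM1, hM⟩ := exists_kernel D.hτ D.hμ D.h2 hfin
    exact no_lower_of_kernel D hM1 hM hc hlow
  · exact hne (extreme_regular D hext hat hc hlow)

lemma prime_choice {a : ℕ} (ha : 2 ≤ a) :
    ∃ p : ℕ, p.Prime ∧ p ∣ a ∧ (¬ p ∣ 2 ∨ ¬ p ∣ 3) := by
  refine ⟨a.minFac, Nat.minFac_prime (by omega), Nat.minFac_dvd a, ?_⟩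
  by_contra h
  push Not at h
  have h1 := Nat.dvd_gcd h.1 h.2
  norm_num at h1
  omega

theorem singular_law (D : Data G τ φ S6 μ) (hext : φ ∈ Set.extremePoints ℝ (Tra G))
    (hne : φ ≠ Reg G) {a : ℕ} (ha : 2 ≤ a) (κ : Measure ℝ) [IsFiniteMeasure κ]
    (ν : ℕ → Measure (Fin a)) [∀ k, IsProbabilityMeasure (ν k)]
    (hat : ∀ ω, Measure.infinitePi ν {ω} = 0) : μ ⟂ₘ law a κ ν := by
  have := finite_law κ ν
  obtain ⟨p, hp, hpa, hp23⟩ := prime_choice ha
  rcases hp23 with h | h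
  · refine singular_spread D hext hne 1 0 _ ?_
    norm_num
    exact spread_law ha le_rfl hp hpa h κ ν hat
  · refine singular_spread D hext hne 0 1 _ ?_
    norm_num
    exact spread_law ha (by norm_num) hp hpa h κ ν hat

/-- **domination by the characteristic function of a digit law** -/
theorem dominated (D : Data G τ φ S6 μ) {a : ℕ} (ha : 2 ≤ a)
    (ν : ℕ → Measure (Fin a)) [∀ k, IsProbabilityMeasure (ν k)]
    (hat : ∀ ω, Measure.infinitePi ν {ω} = 0) (C : ℝ)
    (hC : ∀ n : ℕ, 1 ≤ n → ‖φ (τ n)‖ ≤ C * ‖lam ν n‖) : φ = Reg G := by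
  have hz : ∀ h : ℕ, 1 ≤ h → φ (τ h) = 0 := by
    intro h hh
    obtain ⟨p, hp, hpa, hp23⟩ := prime_choice ha
    have key : ∀ b : ℕ, 2 ≤ b → ¬ p ∣ b → (∀ n : ℕ, φ (τ ((h : ℤ) * (b : ℤ) ^ n)) = φ (τ h)) →
        φ (τ h) = 0 := by
      intro b hb hpb hinv
      by_contra hne
      have hpos : 0 < ‖φ (τ h)‖ ^ 2 := by positivity
      obtain ⟨N₀, hN₀⟩ := decay ha hb hp hpa hpb ν hat 0 h hh
        (ε := ‖φ (τ h)‖ ^ 2 / (2 * (C ^ 2 + 1))) (by positivity)
      have h1 := hN₀ (N₀ + 1) (by omega)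
      have h2 : ∀ n ∈ Finset.range (N₀ + 1), ‖φ (τ h)‖ ^ 2 ≤
          C ^ 2 * ‖lam ν (0 + h * (b : ℝ) ^ n)‖ ^ 2 := by
        intro n _
        have h3 := hC (h * b ^ n) (Nat.mul_pos hh (Nat.pow_pos (by omega)))
        push_cast at h3
        rw [hinv n] at h3
        rw [zero_add]
        calc ‖φ (τ h)‖ ^ 2 ≤ (C * ‖lam ν (h * (b : ℝ) ^ n)‖) ^ 2 := by gcongr
          _ = _ := by ring
      have h3 := Finset.card_nsmul_le_sum _ _ _ h2
      rw [nsmul_eq_mul, Finset.card_range, ← Finset.mul_sum] at h3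
      have h4 : C ^ 2 * ∑ n ∈ Finset.range (N₀ + 1), ‖lam ν (0 + h * (b : ℝ) ^ n)‖ ^ 2 ≤
          C ^ 2 * (‖φ (τ h)‖ ^ 2 / (2 * (C ^ 2 + 1)) * ((N₀ + 1 : ℕ) : ℝ)) := by
        gcongr
      have h5 : C ^ 2 * (‖φ (τ h)‖ ^ 2 / (2 * (C ^ 2 + 1)) * ((N₀ + 1 : ℕ) : ℝ)) <
          ((N₀ + 1 : ℕ) : ℝ) * ‖φ (τ h)‖ ^ 2 := by
        have h6 : C ^ 2 * (‖φ (τ h)‖ ^ 2 / (2 * (C ^ 2 + 1)) * ((N₀ + 1 : ℕ) : ℝ)) =
            (C ^ 2 / (2 * (C ^ 2 + 1))) * (((N₀ + 1 : ℕ) : ℝ) * ‖φ (τ h)‖ ^ 2) := by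
          field_simp
        rw [h6]
        have h7 : C ^ 2 / (2 * (C ^ 2 + 1)) < 1 := by
          rw [div_lt_one (by positivity)]
          nlinarith [sq_nonneg C]
        have h8 : 0 < ((N₀ + 1 : ℕ) : ℝ) * ‖φ (τ h)‖ ^ 2 := by positivity
        nlinarith
      linarith
    rcases hp23 with h1 | h1
    · refine key 2 le_rfl h1 fun n => ?_
      induction n with
      | zero => simp
      | succ n ih =>
        rw [← ih]
        have := D.h2 ((h : ℤ) * ((2 : ℕ) : ℤ) ^ n)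
        rw [← this]
        congr 2
        push_cast; ring
    · refine key 3 (by norm_num) h1 fun n => ?_
      induction n with
      | zero => simp
      | succ n ih =>
        rw [← ih]
        have := D.h3 ((h : ℤ) * ((3 : ℕ) : ℤ) ^ n)
        rw [← this]
        congr 2
        push_cast; ring
  have hz' : ∀ n : ℤ, n ≠ 0 → φ (τ n) = 0 := by
    intro n hn
    rcases Int.natAbs_eq n with h | h
    · rw [h]; exact hz _ (Int.natAbs_pos.2 hn)
    · rw [h, ← tau_inv D.hτ, D.hpd.inv D.h1, hz _ (Int.natAbs_pos.2 hn), star_zero]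
  funext g
  by_cases hg : g = 1
  · rw [hg, D.h1, reg_one]
  · rw [reg_ne hg]
    exact eq_regular D.hτ D.h1 D.hcl D.hpd S6 D.hS6 D.hform hz' g hg

end

/-- the spectral measure is unique -/
lemma spectral_unique {μ μ' : Measure UnitAddCircle} [IsFiniteMeasure μ] [IsFiniteMeasure μ']
    (h : ∀ n : ℤ, ∫ x, (fourier n x : ℂ) ∂μ = ∫ x, (fourier n x : ℂ) ∂μ') : μ = μ' :=
  Pool.Agent.Y139.GR.ext_fc fun n => h n

end Pool.Agent.X101.SD
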