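import Mathlib
import Pool.Agent.X101.SD.Main

set_option autoImplicit false

open MeasureTheory

namespace Pool.Agent.X101.SD

/-- the characteristic function of the law of the number -/
noncomputable def lam {a : ℕ} (ν : ℕ → Measure (Fin a)) (m : ℝ) : ℂ :=
  ∫ ω, e (m * val a ω) ∂(Measure.infinitePi ν)

/-- the weight of a choice of digits -/
noncomputable def wt {a : ℕ} (ν : ℕ → Measure (Fin a)) (F : Finset ℕ) (η : F → Fin a) : ℝ :=
  (∏ i : F, ν i {η i}).toReal

/-- the shift -/
noncomputable def sh {a : ℕ} (F : Finset ℕ) (η : F → Fin a) : ℝ :=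
  ∑ i : F, ((η i : ℕ) : ℝ) / (a : ℝ) ^ ((i : ℕ) + 1)

lemma continuous_e : Continuous e := by unfold e; fun_prop

lemma integrable_e {a : ℕ} (ha : 2 ≤ a) (μ : Measure (ℕ → Fin a)) [IsFiniteMeasure μ] (m : ℝ) :
    Integrable (fun ω => e (m * val a ω)) μ := by
  refine Integrable.of_bound (C := 1) ?_ (Filter.Eventually.of_forall fun ω => (norm_e _).le)
  exact (continuous_e.measurable.comp ((measurable_val ha).const_mul m)).aestronglyMeasurable

lemma val_upd {a : ℕ} (ha : 2 ≤ a) (F : Finset ℕ) (η : F → Fin a) (ω : ℕ → Fin a) :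
    val a (upd F η ω) = val a (upd F (fun _ => ⟨0, by omega⟩) ω) + sh F η := by
  have h := val_sub ha F η (fun _ => ⟨0, by omega⟩) ω
  have h2 : ∑ i : F, (((η i : ℕ) : ℝ) - (((⟨0, by omega⟩ : Fin a) : ℕ) : ℝ)) /
      (a : ℝ) ^ ((i : ℕ) + 1) = sh F η := by
    unfold sh
    refine Finset.sum_congr rfl fun i _ => ?_
    simp
  rw [h2] at h
  linarith

lemma lam_le {a : ℕ} (ha : 2 ≤ a) (ν : ℕ → Measure (Fin a)) [∀ k, IsProbabilityMeasure (ν k)]
    (F : Finset ℕ) (m : ℝ) :
    ‖lam ν m‖ ≤ ‖∑ η : F → Fin a, (wt ν F η : ℂ) * e (m * sh F η)‖ := by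
  classical
  have h1 : lam ν m = ∫ ω, e (m * val a (upd F (fun _ => ⟨0, by omega⟩) ω)) *
      (∑ η : F → Fin a, (wt ν F η : ℂ) * e (m * sh F η)) ∂(Measure.infinitePi ν) := by
    have hne : ∀ η : F → Fin a, ∏ i : F, ν i {η i} ≠ ⊤ := fun η =>
      ENNReal.prod_ne_top fun i _ => measure_ne_top _ _
    have h2 : lam ν m = ∑ η : F → Fin a, (wt ν F η : ℂ) *
        ∫ ω, e (m * val a (upd F η ω)) ∂(Measure.infinitePi ν) := by
      unfold lam
      conv_lhs => rw [← resample ν F]
      rw [integral_finsetSum_measure]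
      · refine Finset.sum_congr rfl fun η _ => ?_
        rw [integral_smul_measure, integral_map (measurable_upd F η).aemeasurable]
        · rw [Complex.real_smul]; rfl
        · exact (continuous_e.measurable.comp ((measurable_val ha).const_mul m)).aestronglyMeasurable
      · intro η _
        refine Integrable.smul_measure ?_ (hne η)
        have := Measure.isProbabilityMeasure_map (μ := Measure.infinitePi ν)
          (measurable_upd F η).aemeasurable
        exact integrable_e ha _ m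
    rw [h2, integral_mul_const]
    have h3 : ∀ η : F → Fin a, ∫ ω, e (m * val a (upd F η ω)) ∂(Measure.infinitePi ν) =
        (∫ ω, e (m * val a (upd F (fun _ => ⟨0, by omega⟩) ω)) ∂(Measure.infinitePi ν)) *
          e (m * sh F η) := by
      intro η
      rw [← integral_mul_const]
      refine integral_congr_ae (Filter.Eventually.of_forall fun ω => ?_)
      simp only
      rw [val_upd ha F η ω, mul_add, e_add]
    rw [Finset.sum_congr rfl fun η _ => by rw [h3 η], Finset.mul_sum]
    refine Finset.sum_congr rfl fun η _ => ?_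
    ring
  rw [h1, integral_mul_const, norm_mul]
  refine mul_le_of_le_one_left (norm_nonneg _) ?_
  refine (norm_integral_le_of_norm_le_const (C := 1)
    (Filter.Eventually.of_forall fun ω => (norm_e _).le)).trans ?_
  simp

lemma sum_wt {a : ℕ} (ν : ℕ → Measure (Fin a)) [∀ k, IsProbabilityMeasure (ν k)]
    (F : Finset ℕ) : ∑ η : F → Fin a, wt ν F η = 1 := by
  classical
  have h1 : Measure.infinitePi ν Set.univ = ∑ η : F → Fin a, ∏ i : F, ν i {η i} := by
    conv_lhs => rw [← resample ν F]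
    rw [Measure.finsetSum_apply]
    refine Finset.sum_congr rfl fun η _ => ?_
    have := Measure.isProbabilityMeasure_map (μ := Measure.infinitePi ν)
      (measurable_upd F η).aemeasurable
    rw [Measure.smul_apply, measure_univ, smul_eq_mul, mul_one]
  rw [measure_univ] at h1
  unfold wt
  rw [← ENNReal.toReal_sum fun η _ => ENNReal.prod_ne_top fun i _ => measure_ne_top _ _, ← h1]
  simp

lemma wt_nonneg {a : ℕ} (ν : ℕ → Measure (Fin a)) (F : Finset ℕ) (η : F → Fin a) :
    0 ≤ wt ν F η := ENNReal.toReal_nonneg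

/-- places far out, with gaps, such that all choices of digits have a small probability -/
lemma exists_F' {a : ℕ} (ν : ℕ → Measure (Fin a)) (ha : 2 ≤ a)
    [∀ k, IsProbabilityMeasure (ν k)]
    (hat : ∀ ω, Measure.infinitePi ν {ω} = 0) {g : ℕ} (hg : 0 < g) (K : ℕ)
    {c : ℝ} (hc : 0 < c) : ∃ F : Finset ℕ, (∀ i ∈ F, K ≤ i) ∧
      (∀ i ∈ F, ∀ j ∈ F, i < j → i + g ≤ j) ∧ ∀ η : F → Fin a, wt ν F η ≤ c := by
  classical
  have : NeZero a := ⟨by omega⟩
  have hmax : ∀ i : ℕ, ∃ d : Fin a, ∀ d' : Fin a, ν i {d'} ≤ ν i {d} := fun i =>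
    Finite.exists_max fun d => ν i {d}
  choose d hd using hmax
  set t : ℕ → ℝ := fun i => (ν i {d i}).toReal with ht
  have htpos : ∀ i, ν i {d i} ≠ 0 := by
    intro i h0
    have h1 : ν i Set.univ = 0 := by
      rw [← Finset.coe_univ, ← sum_measure_singleton]
      refine Finset.sum_eq_zero fun d' _ => ?_
      exact le_antisymm (h0 ▸ hd i d') zero_le
    rw [measure_univ] at h1
    exact one_ne_zero h1
  have ht0 : ∀ i, 0 < t i := fun i => ENNReal.toReal_pos (htpos i) (measure_ne_top _ _)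
  have ht1 : ∀ i, t i ≤ 1 := fun i => by
    have := ENNReal.toReal_mono ENNReal.one_ne_top (prob_le_one (μ := ν i) (s := {d i}))
    simpa using this
  have hprod : ∀ F : Finset ℕ, (∏ i ∈ F, ν i {d i}).toReal = ∏ i ∈ F, t i := fun F =>
    ENNReal.toReal_prod _ _
  have hsmall : ∀ c : ℝ, 0 < c → ∃ s : Finset ℕ, ∏ i ∈ s, t i < c := by
    intro c hc
    have h1 := hat d
    rw [Measure.infinitePi_singleton, ENNReal.tprod_eq_iInf_prod (by simp [prob_le_one])] at h1
    have h2 : (⨅ s : Finset ℕ, ∏ i ∈ s, ν i {d i}) < ENNReal.ofReal c := by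
      rw [h1]; simpa using hc
    obtain ⟨s, hs⟩ := iInf_lt_iff.1 h2
    refine ⟨s, ?_⟩
    rw [← hprod]
    exact (ENNReal.lt_ofReal_iff_toReal_lt (ne_top_of_lt hs)).1 hs
  obtain ⟨F, hF1, hF2, hF3⟩ := exists_F t ht0 ht1 hsmall hg K hc
  refine ⟨F, hF1, hF2, fun η => ?_⟩
  have h1 : ∏ i : F, ν i {η i} ≤ ∏ i : F, ν i {d i} :=
    Finset.prod_le_prod' fun i _ => hd i (η i)
  have h2 : ∏ i : F, ν i {d i} = ∏ i ∈ F, ν i {d i} := Finset.prod_coe_sort F (fun i => ν i {d i})
  rw [h2] at h1
  have h3 : ∏ i ∈ F, ν i {d i} ≠ ⊤ := ENNReal.prod_ne_top fun i _ => measure_ne_top _ _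
  have h4 := ENNReal.toReal_mono h3 h1
  rw [hprod] at h4
  exact h4.trans hF3.le

/-- **decay of the characteristic function along geometric progressions** -/
theorem decay {a b p : ℕ} (ha : 2 ≤ a) (hb : 2 ≤ b) (hp : p.Prime) (hpa : p ∣ a)
    (hpb : ¬ p ∣ b) (ν : ℕ → Measure (Fin a)) [∀ k, IsProbabilityMeasure (ν k)]
    (hat : ∀ ω, Measure.infinitePi ν {ω} = 0) (k : ℝ) (h : ℕ) (hh : 1 ≤ h) {ε : ℝ} (hε : 0 < ε) :
    ∃ N₀ : ℕ, ∀ N ≥ N₀, ∑ n ∈ Finset.range N, ‖lam ν (k + h * (b : ℝ) ^ n)‖ ^ 2 ≤ ε * N := by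
  classical
  obtain ⟨N₀, hN₀⟩ := orth_frac (a := a) hp hb hpb (by omega) hpa h a
  obtain ⟨F, hF1, hF2, hF3⟩ := exists_F' ν ha hat (by omega : 0 < a) N₀ (half_pos hε)
  -- bounded sums
  have hB : ∃ B : ℝ, 0 ≤ B ∧ ∀ η η' : F → Fin a, η ≠ η' → ∀ M : ℕ,
      ‖S b M (h * (sh F η - sh F η'))‖ ≤ B := by
    have h1 : ∀ η η' : F → Fin a, ∃ B : ℝ, 0 ≤ B ∧ (η ≠ η' → ∀ M : ℕ,
        ‖S b M (h * (sh F η - sh F η'))‖ ≤ B) := by
      intro η η'
      by_cases hne : η ≠ η'
      · obtain ⟨N, hN, m, hm, hval⟩ := val_sub_eq ha hp hpa F hF1 hF2 η η' hne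
          (fun _ => ⟨0, by omega⟩)
        have h2 : sh F η - sh F η' = m / (a : ℝ) ^ N := by
          rw [← hval, val_upd ha F η, val_upd ha F η']
          ring
        obtain ⟨B, hB⟩ := hN₀ N hN m hm h hh le_rfl
        refine ⟨max B 0, le_max_right _ _, fun _ M => ?_⟩
        rw [h2]
        exact (hB M).trans (le_max_left _ _)
      · exact ⟨0, le_rfl, fun h => absurd h hne⟩
    choose B hB0 hB using h1
    refine ⟨∑ η, ∑ η', B η η', Finset.sum_nonneg fun η _ => Finset.sum_nonneg fun η' _ => hB0 _ _,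
      fun η η' hne M => (hB η η' hne M).trans ?_⟩
    calc B η η' ≤ ∑ η', B η η' :=
          Finset.single_le_sum (f := fun η' => B η η') (fun η' _ => hB0 _ _) (Finset.mem_univ _)
      _ ≤ _ := Finset.single_le_sum (f := fun η => ∑ η', B η η')
          (fun η _ => Finset.sum_nonneg fun η' _ => hB0 _ _) (Finset.mem_univ _)
  obtain ⟨B, hB0, hB⟩ := hB
  set w := wt ν F with hw
  have hw0 : ∀ η, 0 ≤ w η := wt_nonneg ν F
  have hw1 : ∑ η, w η = 1 := sum_wt ν F
  have key : ∀ N : ℕ, ∑ n ∈ Finset.range N, ‖lam ν (k + h * (b : ℝ) ^ n)‖ ^ 2 ≤ ε / 2 * N + B := by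
    intro N
    have h1 : ∀ n : ℕ, ‖lam ν (k + h * (b : ℝ) ^ n)‖ ^ 2 ≤
        ‖∑ η : F → Fin a, (w η : ℂ) * e ((k + h * (b : ℝ) ^ n) * sh F η)‖ ^ 2 := fun n =>
      pow_le_pow_left₀ (norm_nonneg _) (lam_le ha ν F _) 2
    have h2 : ∑ n ∈ Finset.range N,
        ‖∑ η : F → Fin a, (w η : ℂ) * e ((k + h * (b : ℝ) ^ n) * sh F η)‖ ^ 2 =
        ‖∑ η : F → Fin a, ∑ η' : F → Fin a, ((w η : ℂ) * w η') *
          (e (k * (sh F η - sh F η')) * S b N (h * (sh F η - sh F η')))‖ := by
      have h3 : ((∑ n ∈ Finset.range N,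
          ‖∑ η : F → Fin a, (w η : ℂ) * e ((k + h * (b : ℝ) ^ n) * sh F η)‖ ^ 2 : ℝ) : ℂ) =
          ∑ η : F → Fin a, ∑ η' : F → Fin a, ((w η : ℂ) * w η') *
          (e (k * (sh F η - sh F η')) * S b N (h * (sh F η - sh F η'))) := by
        have h4 : ∀ n : ℕ, ((‖∑ η : F → Fin a, (w η : ℂ) *
            e ((k + h * (b : ℝ) ^ n) * sh F η)‖ ^ 2 : ℝ) : ℂ) =
            ∑ η : F → Fin a, ∑ η' : F → Fin a, ((w η : ℂ) * w η') *
              (e (k * (sh F η - sh F η')) * e ((b : ℝ) ^ n * (h * (sh F η - sh F η')))) := by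
          intro n
          push_cast
          rw [← Complex.mul_conj', map_sum, Finset.sum_mul]
          refine Finset.sum_congr rfl fun η _ => ?_
          rw [Finset.mul_sum]
          refine Finset.sum_congr rfl fun η' _ => ?_
          rw [map_mul, Complex.conj_ofReal, ← e_add]
          have h5 : e (k * (sh F η - sh F η') + (b : ℝ) ^ n * (h * (sh F η - sh F η'))) =
              e ((k + h * (b : ℝ) ^ n) * sh F η) *
                (starRingEnd ℂ) (e ((k + h * (b : ℝ) ^ n) * sh F η')) := by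
            rw [← e_sub]; congr 1; ring
          rw [h5]; ring
        push_cast
        simp only [← Complex.ofReal_pow]
        rw [Finset.sum_congr rfl fun n _ => h4 n, Finset.sum_comm]
        refine Finset.sum_congr rfl fun η _ => ?_
        rw [Finset.sum_comm]
        refine Finset.sum_congr rfl fun η' _ => ?_
        rw [← Finset.mul_sum, ← Finset.mul_sum]
        rfl
      rw [← h3, Complex.norm_real, Real.norm_of_nonneg (Finset.sum_nonneg fun _ _ => by positivity)]
    refine (Finset.sum_le_sum fun n _ => h1 n).trans ?_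
    rw [h2]
    have h5 : ∀ η η' : F → Fin a, ‖((w η : ℂ) * w η') *
          (e (k * (sh F η - sh F η')) * S b N (h * (sh F η - sh F η')))‖ ≤
          (if η = η' then w η * w η' * N else 0) + w η * w η' * B := by
      intro η η'
      rw [norm_mul, norm_mul, norm_mul, norm_e, one_mul, Complex.norm_real, Complex.norm_real,
        Real.norm_of_nonneg (hw0 η), Real.norm_of_nonneg (hw0 η')]
      by_cases hne : η = η'
      · rw [if_pos hne]
        have h6 := norm_S_le b N (h * (sh F η - sh F η'))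
        have h7 := mul_nonneg (hw0 η) (hw0 η')
        have h8 := mul_nonneg h7 hB0
        have h9 := mul_le_mul_of_nonneg_left h6 h7
        linarith
      · rw [if_neg hne, zero_add]
        exact mul_le_mul_of_nonneg_left (hB η η' hne N) (mul_nonneg (hw0 η) (hw0 η'))
    have h6 : ∑ η : F → Fin a, ∑ η' : F → Fin a,
        ((if η = η' then w η * w η' * N else 0) + w η * w η' * B) ≤ ε / 2 * N + B := by
      simp only [Finset.sum_add_distrib]
      have h7 : ∑ η : F → Fin a, ∑ η' : F → Fin a, (if η = η' then w η * w η' * N else 0) ≤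
          ε / 2 * N := by
        have h8 : ∀ η : F → Fin a, ∑ η' : F → Fin a, (if η = η' then w η * w η' * N else 0) ≤
            w η * (ε / 2 * N) := by
          intro η
          rw [Finset.sum_ite_eq Finset.univ η (fun η' => w η * w η' * N), if_pos (Finset.mem_univ _)]
          have h9 := hF3 η
          have h10 : w η * w η * N = w η * (w η * N) := by ring
          rw [h10]
          have := hw0 η
          gcongr
        refine (Finset.sum_le_sum fun η _ => h8 η).trans ?_
        rw [← Finset.sum_mul, hw1, one_mul]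
      have h8 : ∑ η : F → Fin a, ∑ η' : F → Fin a, w η * w η' * B = B := by
        have h9 : ∀ η : F → Fin a, ∑ η' : F → Fin a, w η * w η' * B = w η * B := by
          intro η
          rw [← Finset.sum_mul, ← Finset.mul_sum, hw1, mul_one]
        rw [Finset.sum_congr rfl fun η _ => h9 η, ← Finset.sum_mul, hw1, one_mul]
      linarith
    refine le_trans ?_ h6
    refine (norm_sum_le _ _).trans (Finset.sum_le_sum fun η _ => ?_)
    exact (norm_sum_le _ _).trans (Finset.sum_le_sum fun η' _ => h5 η η')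
  obtain ⟨N₁, hN₁⟩ := exists_nat_ge (B / (ε / 2))
  refine ⟨N₁, fun N hN => (key N).trans ?_⟩
  have h1 : B / (ε / 2) ≤ N := hN₁.trans (by exact_mod_cast hN)
  rw [div_le_iff₀ (half_pos hε)] at h1
  linarith

end Pool.Agent.X101.SD
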