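import Mathlib
import Pool.Agent.X101.SD.Four
import Pool.Agent.X101.SD.Circ

set_option autoImplicit false

open MeasureTheory Filter Topology

namespace Pool.Agent.X101.SD

lemma fourier_coe_e (m : ℤ) (t : ℝ) : (fourier m (t : UnitAddCircle) : ℂ) = e (m * t) := by
  rw [fourier_coe_apply]
  unfold e
  congr 1
  push_cast
  ring

lemma lam_neg {a : ℕ} (ν : ℕ → Measure (Fin a)) (m : ℝ) : ‖lam ν (-m)‖ = ‖lam ν m‖ := by
  have h : lam ν (-m) = (starRingEnd ℂ) (lam ν m) := by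
    unfold lam
    rw [← integral_conj]
    refine integral_congr_ae (Eventually.of_forall fun ω => ?_)
    simp only
    rw [← e_neg]; congr 1; ring
  rw [h, RCLike.norm_conj]

theorem decayZ {a b p : ℕ} (ha : 2 ≤ a) (hb : 2 ≤ b) (hp : p.Prime) (hpa : p ∣ a)
    (hpb : ¬ p ∣ b) (ν : ℕ → Measure (Fin a)) [∀ k, IsProbabilityMeasure (ν k)]
    (hat : ∀ ω, Measure.infinitePi ν {ω} = 0) (k : ℝ) (h : ℤ) (hh : h ≠ 0) {ε : ℝ} (hε : 0 < ε) :
    ∃ N₀ : ℕ, ∀ N ≥ N₀, ∑ n ∈ Finset.range N, ‖lam ν (k + h * (b : ℝ) ^ n)‖ ^ 2 ≤ ε * N := by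
  have hpos : 1 ≤ h.natAbs := Int.natAbs_pos.2 hh
  rcases Int.natAbs_eq h with h1 | h1
  · obtain ⟨N₀, hN₀⟩ := decay ha hb hp hpa hpb ν hat k h.natAbs hpos hε
    refine ⟨N₀, fun N hN => ?_⟩
    have h2 : (h : ℝ) = (h.natAbs : ℝ) := by
      have := congrArg (Int.cast (R := ℝ)) h1
      rwa [Int.cast_natCast] at this
    rw [h2]
    exact hN₀ N hN
  · obtain ⟨N₀, hN₀⟩ := decay ha hb hp hpa hpb ν hat (-k) h.natAbs hpos hε
    refine ⟨N₀, fun N hN => ?_⟩
    have h2 : (h : ℝ) = -(h.natAbs : ℝ) := by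
      have := congrArg (Int.cast (R := ℝ)) h1
      rwa [Int.cast_neg, Int.cast_natCast] at this
    rw [h2]
    refine le_of_eq_of_le (Finset.sum_congr rfl fun n _ => ?_) (hN₀ N hN)
    rw [← lam_neg]
    congr 3
    ring

/-- the distribution modulo one of the sum of a random real number with distribution `κ` and an
independent random number with independent base-`a` digits with distributions `ν k` -/
noncomputable def law (a : ℕ) (κ : Measure ℝ) (ν : ℕ → Measure (Fin a)) : Measure UnitAddCircle :=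
  (κ.prod (Measure.infinitePi ν)).map
    fun p : ℝ × (ℕ → Fin a) => ((p.1 + val a p.2 : ℝ) : UnitAddCircle)

lemma measurable_law {a : ℕ} (ha : 2 ≤ a) :
    Measurable fun p : ℝ × (ℕ → Fin a) => ((p.1 + val a p.2 : ℝ) : UnitAddCircle) := by
  have h1 : Measurable fun p : ℝ × (ℕ → Fin a) => p.1 + val a p.2 :=
    measurable_fst.add ((measurable_val ha).comp measurable_snd)
  exact (AddCircle.measurable_mk').comp h1

lemma norm_fourier_law {a : ℕ} (ha : 2 ≤ a) (κ : Measure ℝ) [IsFiniteMeasure κ]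
    (ν : ℕ → Measure (Fin a)) [∀ k, IsProbabilityMeasure (ν k)] (m : ℤ) :
    ‖∫ x, (fourier m x : ℂ) ∂(law a κ ν)‖ ≤ κ.real Set.univ * ‖lam ν m‖ := by
  have h1 : ∫ x, (fourier m x : ℂ) ∂(law a κ ν) = (∫ t, e (m * t) ∂κ) * lam ν m := by
    unfold law lam
    rw [integral_map (measurable_law ha).aemeasurable
      (fourier m).continuous.aestronglyMeasurable]
    rw [← integral_prod_mul]
    refine integral_congr_ae (Eventually.of_forall fun p => ?_)
    simp only
    rw [fourier_coe_e, mul_add, e_add]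
  rw [h1, norm_mul]
  refine mul_le_mul_of_nonneg_right ?_ (norm_nonneg _)
  have h2 := norm_integral_le_of_norm_le_const (μ := κ) (f := fun t => e (m * t)) (C := 1)
    (Eventually.of_forall fun t => (norm_e _).le)
  simpa using h2

lemma finite_law {a : ℕ} (κ : Measure ℝ) [IsFiniteMeasure κ]
    (ν : ℕ → Measure (Fin a)) [∀ k, IsProbabilityMeasure (ν k)] : IsFiniteMeasure (law a κ ν) := by
  unfold law; infer_instance

theorem spread_law {a b p : ℕ} (ha : 2 ≤ a) (hb : 2 ≤ b) (hp : p.Prime) (hpa : p ∣ a)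
    (hpb : ¬ p ∣ b) (κ : Measure ℝ) [IsFiniteMeasure κ]
    (ν : ℕ → Measure (Fin a)) [∀ k, IsProbabilityMeasure (ν k)]
    (hat : ∀ ω, Measure.infinitePi ν {ω} = 0) : Spread b (law a κ ν) := by
  intro k h hh
  rw [Metric.tendsto_atTop]
  intro ε hε
  set C : ℝ := κ.real Set.univ with hC
  have hC0 : 0 ≤ C := measureReal_nonneg
  set δ : ℝ := ε / (2 * (C + 1)) with hδ
  have hδ0 : 0 < δ := by positivity
  obtain ⟨N₀, hN₀⟩ := decayZ ha hb hp hpa hpb ν hat k h hh (ε := δ ^ 2) (by positivity)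
  refine ⟨max N₀ 1, fun N hN => ?_⟩
  have hN1 : 1 ≤ N := (le_max_right _ _).trans hN
  have hNR : (0 : ℝ) < N := by exact_mod_cast hN1
  rw [dist_zero_right, norm_div, Complex.norm_natCast, div_lt_iff₀ hNR]
  have h1 := hN₀ N ((le_max_left _ _).trans hN)
  have h2 : (∑ n ∈ Finset.range N, ‖lam ν (k + h * (b : ℝ) ^ n)‖) ^ 2 ≤ (δ * N) ^ 2 := by
    calc (∑ n ∈ Finset.range N, ‖lam ν (k + h * (b : ℝ) ^ n)‖) ^ 2
        ≤ ((Finset.range N).card : ℝ) * ∑ n ∈ Finset.range N, ‖lam ν (k + h * (b : ℝ) ^ n)‖ ^ 2 :=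
          sq_sum_le_card_mul_sum_sq
      _ ≤ N * (δ ^ 2 * N) := by rw [Finset.card_range]; gcongr
      _ = (δ * N) ^ 2 := by ring
  have h3 : ∑ n ∈ Finset.range N, ‖lam ν (k + h * (b : ℝ) ^ n)‖ ≤ δ * N :=
    le_of_sq_le_sq h2 (by positivity)
  calc ‖∑ n ∈ Finset.range N, ∫ x, (fourier (k + h * (b : ℤ) ^ n) x : ℂ) ∂(law a κ ν)‖
      ≤ ∑ n ∈ Finset.range N, C * ‖lam ν (k + h * (b : ℝ) ^ n)‖ := by
        refine (norm_sum_le _ _).trans (Finset.sum_le_sum fun n _ => ?_)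
        have := norm_fourier_law ha κ ν (k + h * (b : ℤ) ^ n)
        push_cast at this
        exact this
    _ ≤ C * (δ * N) := by rw [← Finset.mul_sum]; gcongr
    _ < ε * N := by
        rw [← mul_assoc]
        refine mul_lt_mul_of_pos_right ?_ hNR
        rw [hδ, mul_div_assoc', div_lt_iff₀ (by positivity)]
        nlinarith

end Pool.Agent.X101.SD
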