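import Pool.Agent.Y139.GR.Inv
import Pool.Agent.TH463.UQ.Trace
import Pool.Agent.X101.SD.Law

set_option autoImplicit false

open MeasureTheory Filter Topology
open scoped ComplexOrder

namespace Pool.Agent.X101.SD

open Pool.Agent.W763.Tr
open Pool.Agent.TH654.FC

/-- the tracial states -/
def Tra (G : Subgroup (Equiv.Perm ℚ)) : Set (G → ℂ) :=
  {ψ : G → ℂ | ψ 1 = 1 ∧ (∀ g h : G, ψ (h * g * h⁻¹) = ψ g) ∧
    ∀ (s : Finset G) (c : G → ℂ), 0 ≤ ∑ i ∈ s, ∑ j ∈ s, star (c j) * c i * ψ (j⁻¹ * i)}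

/-- **approximate Bessel inequality** -/
lemma bessel_approx {G : Type*} [Group G] {φ : G → ℂ} (h : PD φ) (h1 : φ 1 = 1) (x : ℕ → G)
    (z : ℂ) (hz : ∀ i, φ (x i) = z) (Q : ℕ → ℝ)
    (hQ : ∀ K : ℕ, ∑ i ∈ Finset.range K, ∑ j ∈ Finset.range K, φ ((x j)⁻¹ * x i) = (Q K : ℂ))
    (hlim : Tendsto (fun K : ℕ => Q K / (K : ℝ) ^ 2) atTop (𝓝 0)) : z = 0 := by
  have key : ∀ (K : ℕ) (t : ℝ), 0 ≤ 1 - 2 * t * K * ‖z‖ ^ 2 + t ^ 2 * ‖z‖ ^ 2 * Q K := by
    intro K t
    have h2 := h.family (Finset.univ : Finset (Option (Fin K)))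
      (fun o => o.elim 1 (fun i => x i)) (fun o => o.elim 1 (fun _ => - (t : ℂ) * star z))
    rw [Fintype.sum_option] at h2
    simp only [Fintype.sum_option, Option.elim_none, Option.elim_some, inv_one, one_mul, mul_one,
      star_one, h1, hz] at h2
    have h3 : ∀ i : Fin K, φ (x i)⁻¹ = star z := fun i => by rw [h.inv h1, hz]
    have h4 : star (-(t : ℂ) * star z) = -(t : ℂ) * z := by
      rw [star_mul, star_star, star_neg, Complex.star_def, Complex.conj_ofReal]; ring
    simp only [h3, h4] at h2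
    have h5 : z * star z = ((‖z‖ ^ 2 : ℝ) : ℂ) := by
      rw [Complex.star_def, Complex.mul_conj, Complex.normSq_eq_norm_sq]
    have h6 : ∑ i : Fin K, ∑ j : Fin K, φ ((x j)⁻¹ * x i) = (Q K : ℂ) := by
      rw [← hQ K, Finset.sum_range]
      refine Finset.sum_congr rfl fun i _ => ?_
      rw [Finset.sum_range]
    have h7 : (1 + ∑ _j : Fin K, -(t : ℂ) * z * star z) +
        ∑ i : Fin K, (-(t : ℂ) * star z * z +
          ∑ j : Fin K, -(t : ℂ) * z * (-(t : ℂ) * star z) * φ ((x j)⁻¹ * x i)) =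
        ((1 - 2 * t * K * ‖z‖ ^ 2 + t ^ 2 * ‖z‖ ^ 2 * Q K : ℝ) : ℂ) := by
      rw [Finset.sum_add_distrib]
      have h8 : ∑ i : Fin K, ∑ j : Fin K, -(t : ℂ) * z * (-(t : ℂ) * star z) *
          φ ((x j)⁻¹ * x i) = (t : ℂ) ^ 2 * (z * star z) * (Q K : ℂ) := by
        rw [← h6, Finset.mul_sum]
        refine Finset.sum_congr rfl fun i _ => ?_
        rw [Finset.mul_sum]
        refine Finset.sum_congr rfl fun j _ => ?_
        ring
      rw [h8, Finset.sum_const, Finset.sum_const, Finset.card_univ, Fintype.card_fin, nsmul_eq_mul,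
        nsmul_eq_mul, h5]
      have h9 : -(t : ℂ) * z * star z = -(t : ℂ) * ((‖z‖ ^ 2 : ℝ) : ℂ) := by rw [← h5]; ring
      have h10 : -(t : ℂ) * star z * z = -(t : ℂ) * ((‖z‖ ^ 2 : ℝ) : ℂ) := by rw [← h5]; ring
      rw [h9, h10]
      push_cast
      ring
    have h8 := (Complex.nonneg_iff.1 h2).1
    have h9 := congrArg Complex.re h7
    rw [Complex.ofReal_re] at h9
    rw [← h9]
    exact h8
  by_contra hne
  have hpos : 0 < ‖z‖ ^ 2 := by positivity
  set δ : ℝ := ‖z‖ ^ 2 / 2 with hδ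
  have hδ0 : 0 < δ := by positivity
  rw [Metric.tendsto_atTop] at hlim
  obtain ⟨N, hN⟩ := hlim δ hδ0
  have h2 := hN (N + 1) (by omega)
  rw [dist_zero_right, Real.norm_eq_abs] at h2
  have hK : (0 : ℝ) < ((N + 1 : ℕ) : ℝ) := by positivity
  have h3 : Q (N + 1) < δ * ((N + 1 : ℕ) : ℝ) ^ 2 := by
    have := (le_abs_self _).trans_lt h2
    rwa [div_lt_iff₀ (by positivity)] at this
  have h4 := key (N + 1) (1 / (δ * ((N + 1 : ℕ) : ℝ)))
  have h5 : (1 / (δ * ((N + 1 : ℕ) : ℝ))) ^ 2 * ‖z‖ ^ 2 * Q (N + 1) ≤ ‖z‖ ^ 2 / δ := by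
    calc (1 / (δ * ((N + 1 : ℕ) : ℝ))) ^ 2 * ‖z‖ ^ 2 * Q (N + 1)
        ≤ (1 / (δ * ((N + 1 : ℕ) : ℝ))) ^ 2 * ‖z‖ ^ 2 * (δ * ((N + 1 : ℕ) : ℝ) ^ 2) := by gcongr
      _ = ‖z‖ ^ 2 / δ := by field_simp
  have h6 : 2 * (1 / (δ * ((N + 1 : ℕ) : ℝ))) * ((N + 1 : ℕ) : ℝ) * ‖z‖ ^ 2 = 2 * (‖z‖ ^ 2 / δ) := by
    field_simp
  have h7 : ‖z‖ ^ 2 / δ = 2 := by rw [hδ]; field_simp
  rw [h6] at h4
  linarith

section

variable {G : Subgroup (Equiv.Perm ℚ)} {τ : ℤ → G} {φ : G → ℂ} {S6 : G} {μ : Measure UnitAddCircle}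

lemma int_cont {m : Measure UnitAddCircle} [IsFiniteMeasure m] {E : Type*}
    [NormedAddCommGroup E] [SecondCountableTopologyEither UnitAddCircle E] {f : UnitAddCircle → E}
    (hf : Continuous f) : Integrable f m :=
  hf.integrable_of_hasCompactSupport (HasCompactSupport.of_compactSpace _)

/-- square integrals of trigonometric polynomials -/
lemma sq_trig {m : Measure UnitAddCircle} [IsFiniteMeasure m] {ι : Type*} (s : Finset ι)
    (n : ι → ℤ) (a : ι → ℂ) :
    ∑ i ∈ s, ∑ j ∈ s, star (a j) * a i * (∫ x, (fourier (n j - n i) x : ℂ) ∂m) =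
      ((∫ x, ‖∑ i ∈ s, a i * fourier (-n i) x‖ ^ 2 ∂m : ℝ) : ℂ) := by
  have hsq : ∀ x : UnitAddCircle, ((‖∑ i ∈ s, a i * (fourier (-n i) x : ℂ)‖ ^ 2 : ℝ) : ℂ) =
      ∑ i ∈ s, ∑ j ∈ s, star (a j) * a i * (fourier (n j - n i) x : ℂ) := by
    intro x
    rw [← Complex.normSq_eq_norm_sq, ← Complex.mul_conj, map_sum, Finset.sum_mul]
    refine Finset.sum_congr rfl fun i _ => ?_
    rw [Finset.mul_sum]
    refine Finset.sum_congr rfl fun j _ => ?_
    rw [map_mul, ← fourier_neg, neg_neg]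
    have e2 : (fourier (n j - n i) x : ℂ) = fourier (n j) x * fourier (-n i) x := by
      rw [← fourier_add]; congr 1
    rw [e2, Complex.star_def]; ring
  rw [← integral_complex_ofReal]
  simp only [hsq]
  have hi : ∀ k : ℤ, Integrable (fun x : UnitAddCircle => (fourier k x : ℂ)) m := fun k =>
    int_cont (by fun_prop)
  rw [integral_finsetSum]
  · refine Finset.sum_congr rfl fun i _ => ?_
    rw [integral_finsetSum]
    · refine Finset.sum_congr rfl fun j _ => ?_
      rw [integral_const_mul]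
    · intro j _
      exact (hi _).const_mul _
  · intro i _
    exact integrable_finsetSum _ fun j _ => (hi _).const_mul _

/-- an atomless measure: mean squares of geometric sums -/
lemma mean_sq {m : Measure UnitAddCircle} [IsFiniteMeasure m] (hat : ∀ x, m {x} = 0) {d : ℤ}
    (hd : d ≠ 0) : Tendsto (fun K : ℕ =>
      (∫ x, ‖∑ i ∈ Finset.range K, (fourier (-(d * (i : ℤ))) x : ℂ)‖ ^ 2 ∂m) / (K : ℝ) ^ 2)
      atTop (𝓝 0) := by
  have h1 : ∀ K : ℕ, (∫ x, ‖∑ i ∈ Finset.range K, (fourier (-(d * (i : ℤ))) x : ℂ)‖ ^ 2 ∂m) /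
      (K : ℝ) ^ 2 =
      ∫ x, ‖∑ i ∈ Finset.range K, (fourier (-(d * (i : ℤ))) x : ℂ)‖ ^ 2 / (K : ℝ) ^ 2 ∂m := by
    intro K; rw [integral_div]
  simp only [h1]
  have h0 : (0 : ℝ) = ∫ _x : UnitAddCircle, (0 : ℝ) ∂m := by simp
  rw [h0]
  refine tendsto_integral_of_dominated_convergence (fun _ => (1 : ℝ)) (fun K => ?_)
    (integrable_const _) (fun K => Eventually.of_forall fun x => ?_) ?_
  · exact (by fun_prop : Continuous fun x : UnitAddCircle =>
      ‖∑ i ∈ Finset.range K, (fourier (-(d * (i : ℤ))) x : ℂ)‖ ^ 2 / (K : ℝ) ^ 2).aestronglyMeasurable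
  · rw [Real.norm_eq_abs, abs_of_nonneg (by positivity)]
    rcases Nat.eq_zero_or_pos K with hK | hK
    · subst hK; simp
    rw [div_le_one (by positivity)]
    have h2 : ‖∑ i ∈ Finset.range K, (fourier (-(d * (i : ℤ))) x : ℂ)‖ ≤ K := by
      refine (norm_sum_le _ _).trans (le_of_eq ?_)
      rw [Finset.sum_congr rfl fun i _ => norm_fourier_one _ _]
      simp
    gcongr
  · have hnull : m {x : UnitAddCircle | (fourier (-d) x : ℂ) = 1} = 0 := by
      have hfin : ({x : UnitAddCircle | (fourier (-d) x : ℂ) = 1}).Finite := by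
        have h3 := Pool.Agent.Y139.GR.finite_fiber (d := d.natAbs) (Int.natAbs_pos.2 hd)
          (0 : UnitAddCircle)
        refine h3.subset fun x hx => ?_
        simp only [Set.mem_setOf_eq] at hx
        have h4 : (-d) • x = 0 := by
          rw [fourier_apply] at hx
          have h5 : AddCircle.toCircle ((-d) • x) = 1 := by
            apply Circle.ext
            rw [hx]; simp
          exact (AddCircle.injective_toCircle one_ne_zero) (by rw [h5, AddCircle.toCircle_zero])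
        have h5 : d • x = 0 := by rw [neg_smul, neg_eq_zero] at h4; exact h4
        have h6 : (d.natAbs : ℤ) • x = 0 := by
          rcases Int.natAbs_eq d with h7 | h7
          · rw [← h7]; exact h5
          · have h8 : (d.natAbs : ℤ) = -d := by omega
            rw [h8]; exact h4
        rw [natCast_zsmul] at h6
        exact h6
      have : NullSingletonClass m := ⟨hat⟩
      exact hfin.measure_zero m
    have hae : ∀ᵐ x ∂m, (fourier (-d) x : ℂ) ≠ 1 := by
      rw [ae_iff]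
      simpa using hnull
    filter_upwards [hae] with x hx
    set w : ℂ := (fourier (-d) x : ℂ) with hw
    have hw1 : ‖w‖ = 1 := norm_fourier_one _ _
    have hpow : ∀ i : ℕ, (fourier (-(d * (i : ℤ))) x : ℂ) = w ^ i := by
      intro i
      induction i with
      | zero => simp
      | succ i ih =>
        rw [pow_succ, ← ih, hw, ← fourier_add]
        congr 2
        push_cast; ring
    have hb : ∀ K : ℕ, ‖∑ i ∈ Finset.range K, (fourier (-(d * (i : ℤ))) x : ℂ)‖ ≤
        2 / ‖w - 1‖ := by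
      intro K
      have hw2 : 0 < ‖w - 1‖ := norm_pos_iff.2 (sub_ne_zero.2 hx)
      rw [le_div_iff₀ hw2, Finset.sum_congr rfl fun i _ => hpow i, ← norm_mul, geom_sum_mul]
      refine (norm_sub_le _ _).trans ?_
      rw [norm_pow, hw1]; norm_num
    have hlim : Tendsto (fun K : ℕ => (2 / ‖w - 1‖) ^ 2 * (1 / (K : ℝ)) ^ 2) atTop (𝓝 0) := by
      have h3 : Tendsto (fun K : ℕ => (1 / (K : ℝ))) atTop (𝓝 0) := tendsto_one_div_atTop_nhds_zero_nat
      have h4 := (h3.pow 2).const_mul ((2 / ‖w - 1‖) ^ 2)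
      simpa using h4
    refine squeeze_zero (fun K => by positivity) (fun K => ?_) hlim
    rw [div_eq_mul_one_div, ← one_div_pow]
    have := hb K
    gcongr

/-- outside the translations the trace vanishes if the measure has no atoms -/
lemma vanish (D : Data G τ φ S6 μ) (hat : ∀ x, μ {x} = 0) {g : G} {lamq r : ℚ} (hl : lamq ≠ 1)
    (hx : ∀ x, (g : Equiv.Perm ℚ) x = lamq * x + r) : φ g = 0 := by
  have := D.prob
  have hτ := D.hτ
  have hd : (1 - lamq).num ≠ 0 := by
    rw [Rat.num_ne_zero, sub_ne_zero]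
    exact fun e => hl e.symm
  have hnum : (1 - lamq) * (1 - lamq).den = (1 - lamq).num := Rat.mul_den_eq_num _
  set v : ℤ := ((1 - lamq).den : ℤ) with hv
  set d : ℤ := (1 - lamq).num with hD
  have hnum' : (1 - lamq) * (v : ℚ) = d := by
    rw [hv]; push_cast; exact hnum
  have hconj : ∀ i : ℤ, φ (τ (d * i) * g) = φ g := by
    intro i
    have e : τ (v * i) * g * (τ (v * i))⁻¹ = τ (d * i) * g := by
      rw [mul_inv_eq_iff_eq_mul]
      apply Subtype.ext
      apply Equiv.ext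
      intro x
      simp only [Subgroup.coe_mul, Equiv.Perm.mul_apply, hτ, hx]
      push_cast
      rw [← hnum']; ring
    rw [← e, D.hcl]
  refine bessel_approx D.hpd D.h1 (fun i : ℕ => τ (d * i) * g) _ (fun i => hconj i)
    (fun K => ∫ x, ‖∑ i ∈ Finset.range K, (fourier (-(d * (i : ℤ))) x : ℂ)‖ ^ 2 ∂μ) (fun K => ?_)
    (mean_sq hat hd)
  have h1 := sq_trig (m := μ) (Finset.range K) (fun i : ℕ => d * (i : ℤ)) (fun _ => 1)
  simp only [star_one, one_mul] at h1
  rw [← h1]
  -- swap the order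
  rw [Finset.sum_comm]
  refine Finset.sum_congr rfl fun i _ => Finset.sum_congr rfl fun j _ => ?_
  have e : (τ (d * (i : ℤ)) * g)⁻¹ * (τ (d * (j : ℤ)) * g) =
      g⁻¹ * τ (d * (j : ℤ) - d * (i : ℤ)) * (g⁻¹)⁻¹ := by
    rw [mul_inv_rev, tau_inv hτ, inv_inv]
    have : τ (d * (j : ℤ) - d * (i : ℤ)) = τ (-(d * (i : ℤ))) * τ (d * (j : ℤ)) := by
      rw [tau_add hτ]; congr 1; ring
    rw [this]
    simp only [mul_assoc]
  rw [e, D.hcl, D.hμ]

/-- the value at the quotient of two elements with the same linear coefficient -/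
lemma phi_quot (D : Data G τ φ S6 μ) {i j : G} {l ri rj : ℚ} (hl : l ≠ 0)
    (hi : ∀ x, (i : Equiv.Perm ℚ) x = l * x + ri) (hj : ∀ x, (j : Equiv.Perm ℚ) x = l * x + rj)
    {n m : ℤ} {K : ℕ} (hn : -(ri / l) = n / 6 ^ K) (hm : -(rj / l) = m / 6 ^ K) :
    φ (j⁻¹ * i) = ∫ x, (fourier (m - n) x : ℂ) ∂μ := by
  rw [D.hμ]
  refine phi_trans D.hτ D.hcl S6 D.hS6 _ _ K fun x => ?_
  rw [Subgroup.coe_mul, Equiv.Perm.mul_apply, Subgroup.coe_inv, Equiv.Perm.inv_eq_iff_eq, hi, hj]
  push_cast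
  have h1 : ((m : ℚ) - n) / 6 ^ K = ri / l - rj / l := by
    rw [sub_div, ← hn, ← hm]; ring
  rw [h1]
  field_simp
  ring

/-- positivity of the trace minus a multiple of the regular trace -/
lemma sub_pd (D : Data G τ φ S6 μ) (hat : ∀ x, μ {x} = 0) {c : ℝ}
    (hlow : ∀ q : C(UnitAddCircle, ℝ), (∀ x, 0 ≤ q x) → c * ∫ x, q x ≤ ∫ x, q x ∂μ)
    (s : Finset G) (a : G → ℂ) :
    0 ≤ ∑ i ∈ s, ∑ j ∈ s, star (a j) * a i *
      (φ (j⁻¹ * i) - c * Set.indicator ({1} : Set G) (fun _ => (1 : ℂ)) (j⁻¹ * i)) := by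
  classical
  have := D.prob
  -- linear coefficients and translation parts
  have hform : ∀ g : G, ∃ (l r : ℚ) (nk : ℤ × ℕ), l ≠ 0 ∧ (∀ x, (g : Equiv.Perm ℚ) x = l * x + r) ∧
      -(r / l) = nk.1 / 6 ^ nk.2 := by
    intro g
    obtain ⟨a, b, r, hr, hx⟩ := D.hform g
    have hl : (2 : ℚ) ^ a * 3 ^ b ≠ 0 := by positivity
    have h1 : Six (-(r / (2 ^ a * 3 ^ b))) := by
      have h2 : r / (2 ^ a * 3 ^ b) = r * (2 ^ (-a) * 3 ^ (-b)) := by
        rw [zpow_neg, zpow_neg, div_eq_mul_inv, mul_inv]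
      rw [h2]
      exact (hr.mul ((six_two _).mul (six_three _))).neg
    obtain ⟨n, k, hnk⟩ := h1
    exact ⟨2 ^ a * 3 ^ b, r, (n, k), hl, hx, hnk⟩
  choose L r nk hL hLx hnk using hform
  set K : ℕ := s.sup fun g => (nk g).2 with hK
  set n : G → ℤ := fun g => (nk g).1 * 6 ^ (K - (nk g).2) with hn
  have hnK : ∀ g ∈ s, -(r g / L g) = n g / 6 ^ K := by
    intro g hg
    rw [hnk g, hn]
    have hle : (nk g).2 ≤ K := Finset.le_sup (f := fun g => (nk g).2) hg
    have e : (6 : ℚ) ^ K = 6 ^ (K - (nk g).2) * 6 ^ (nk g).2 := by rw [← pow_add]; congr 1; omega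
    have h6 : (6 : ℚ) ^ (K - (nk g).2) ≠ 0 := by positivity
    have h6' : (6 : ℚ) ^ (nk g).2 ≠ 0 := by positivity
    push_cast
    rw [e]
    field_simp
  -- the terms
  set f : G → G → ℂ := fun i j => star (a j) * a i *
      (φ (j⁻¹ * i) - c * Set.indicator ({1} : Set G) (fun _ => (1 : ℂ)) (j⁻¹ * i)) with hf
  have hoff : ∀ i ∈ s, ∀ j ∈ s, L j ≠ L i → f i j = 0 := by
    intro i _ j _ hne
    have hlin : ∀ x, ((j⁻¹ * i : G) : Equiv.Perm ℚ) x = (L i / L j) * x + (r i - r j) / L j := by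
      intro x
      rw [Subgroup.coe_mul, Equiv.Perm.mul_apply, Subgroup.coe_inv, Equiv.Perm.inv_eq_iff_eq, hLx,
        hLx]
      have := hL j
      field_simp
      ring
    have hl1 : L i / L j ≠ 1 := by
      intro h
      rw [div_eq_one_iff_eq (hL j)] at h
      exact hne h.symm
    have h1 : φ (j⁻¹ * i) = 0 := vanish D hat hl1 hlin
    have h2 : (j⁻¹ * i) ∉ ({1} : Set G) := by
      intro h
      rw [Set.mem_singleton_iff] at h
      have e0 := hlin 0
      have e1 := hlin 1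
      rw [h] at e0 e1
      simp only [Subgroup.coe_one, Equiv.Perm.coe_one, id_eq] at e0 e1
      apply hl1
      linarith
    simp only [hf]
    rw [h1, Set.indicator_of_notMem h2]
    ring
  have hon : ∀ i ∈ s, ∀ j ∈ s, L j = L i → f i j = star (a j) * a i *
      ((∫ x, (fourier (n j - n i) x : ℂ) ∂μ) -
        c * ∫ x : UnitAddCircle, (fourier (n j - n i) x : ℂ)) := by
    intro i hi j hj he
    have hj' : ∀ x, (j : Equiv.Perm ℚ) x = L i * x + r j := fun x => by rw [hLx, he]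
    have h1 := phi_quot D (hL i) (hLx i) hj' (hnK i hi) (by rw [← he]; exact hnK j hj)
    simp only [hf]
    rw [h1]
    congr 2
    by_cases hij : j⁻¹ * i = 1
    · have h2 : n j - n i = 0 := by
        have h3 : i = j := by rw [← mul_left_cancel_iff (a := j⁻¹), hij, inv_mul_cancel]
        rw [h3, sub_self]
      rw [hij, h2, Set.indicator_of_mem (Set.mem_singleton _)]
      have h3 : ∀ y : UnitAddCircle, (fourier 0 y : ℂ) = 1 := fun y => by simp
      have h4 : (volume : Measure UnitAddCircle).real Set.univ = 1 := by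
        rw [measureReal_def, UnitAddCircle.measure_univ]; simp
      simp only [h3]
      rw [integral_const, h4]
      simp
    · have h2 : n j - n i ≠ 0 := by
        intro h3
        apply hij
        have h4 : -(r i / L i) = -(r j / L i) := by
          have h5 := hnK i hi
          have h6 := hnK j hj
          rw [he] at h6
          rw [h5, h6]
          have h7 : n j = n i := by omega
          rw [h7]
        have h5 : r i = r j := by
          have := hL i
          field_simp at h4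
          linarith
        rw [inv_mul_eq_one]
        apply Subtype.ext
        apply Equiv.ext
        intro x
        rw [hj' x, hLx i x, h5]
      rw [Set.indicator_of_notMem (by simpa using hij), integral_fourier_vol h2]
  -- group by the linear coefficient
  have hsum : ∑ i ∈ s, ∑ j ∈ s, f i j = ∑ l ∈ s.image L,
      (((∫ x, ‖∑ i ∈ s.filter (fun g => L g = l), a i * fourier (-n i) x‖ ^ 2 ∂μ) -
        c * (∫ x : UnitAddCircle,
          ‖∑ i ∈ s.filter (fun g => L g = l), a i * fourier (-n i) x‖ ^ 2) : ℝ) : ℂ) := by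
    rw [← Finset.sum_fiberwise_of_maps_to (s := s) (t := s.image L) (g := L)
      (fun i hi => Finset.mem_image_of_mem L hi)]
    refine Finset.sum_congr rfl fun l _ => ?_
    push_cast
    have e1 := sq_trig (m := μ) (s.filter fun g => L g = l) n a
    have e2 := sq_trig (m := (volume : Measure UnitAddCircle)) (s.filter fun g => L g = l) n a
    rw [← e1, ← e2, Finset.mul_sum, ← Finset.sum_sub_distrib]
    refine Finset.sum_congr rfl fun i hi => ?_
    have hi1 := (Finset.mem_filter.1 hi).1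
    have hi2 := (Finset.mem_filter.1 hi).2
    rw [Finset.mul_sum, ← Finset.sum_sub_distrib]
    rw [← Finset.sum_filter_add_sum_filter_not s (fun g => L g = l) (fun j => f i j)]
    have h3 : ∑ j ∈ s.filter (fun g => ¬ L g = l), f i j = 0 := by
      refine Finset.sum_eq_zero fun j hj => ?_
      rw [Finset.mem_filter] at hj
      exact hoff i hi1 j hj.1 (by rw [hi2]; exact hj.2)
    rw [h3, add_zero]
    refine Finset.sum_congr rfl fun j hj => ?_
    rw [Finset.mem_filter] at hj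
    rw [hon i hi1 j hj.1 (by rw [hj.2, hi2])]
    ring
  rw [hsum]
  refine Finset.sum_nonneg fun l _ => ?_
  rw [Complex.zero_le_real]
  have h1 := hlow ⟨fun x => ‖∑ i ∈ s.filter (fun g => L g = l), a i * (fourier (-n i) x : ℂ)‖ ^ 2,
    by fun_prop⟩ (fun x => by simp only [ContinuousMap.coe_mk]; positivity)
  simp only [ContinuousMap.coe_mk] at h1
  linarith

end

end Pool.Agent.X101.SD
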